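import Mathlib

/-!
# Tools for `2-large implies polynomial Bohr recurrent` (MP_cad6ee_co)

* `vdw` : finite van der Waerden theorem from Hales-Jewett
* `propB` : a family of fewer than `2^(s-1)` sets with at least `s` elements is 2-colourable
* `visits` : a sequence of integers with steps at most one visits all residues mod `Q`
* `polyLip`, `lipC` : polynomials of degree `≤ e` bounded by one at `0, …, e` are Lipschitz on
  `[0, 2e]` with a constant depending only on `e`.
-/

set_option autoImplicit false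

open Finset

namespace Pool.Agent.H65.TL

theorem vdw (r k : ℕ) : ∃ W : ℕ, ∀ f : ℕ → Fin r, ∃ j0 q : ℕ, 0 < q ∧ q ≤ W ∧ j0 ≤ W ∧
    ∀ i : ℕ, i ≤ k → f (j0 + i * q) = f j0 := by
  classical
  obtain ⟨ι, _, h⟩ := Combinatorics.Line.exists_mono_in_high_dimension (Fin (k + 1)) (Fin r)
  refine ⟨Fintype.card ι * (k + 1), fun f => ?_⟩
  obtain ⟨l, c, hc⟩ := h (fun v => f (∑ i, (v i : ℕ)))
  set j0 := ∑ i, (if (l.idxFun i) = none then 0 else ((l.idxFun i).getD 0 : ℕ)) with hj0
  set q := (univ.filter fun i => l.idxFun i = none).card with hq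
  have key : ∀ x : Fin (k + 1), ∑ i, ((l x i : Fin (k + 1)) : ℕ) = j0 + (x : ℕ) * q := by
    intro x
    have h1 : ∀ i, ((l x i : Fin (k + 1)) : ℕ) =
        (if (l.idxFun i) = none then 0 else ((l.idxFun i).getD 0 : ℕ)) +
          (if l.idxFun i = none then (x : ℕ) else 0) := by
      intro i
      have h2 : l x i = (l.idxFun i).getD x := rfl
      rw [h2]
      cases h3 : l.idxFun i with
      | none => simp
      | some y => simp
    rw [Finset.sum_congr rfl fun i _ => h1 i, Finset.sum_add_distrib, ← hj0]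
    congr 1
    rw [← Finset.sum_filter, Finset.sum_const, smul_eq_mul, mul_comm]
  refine ⟨j0, q, ?_, ?_, ?_, ?_⟩
  · obtain ⟨i, hi⟩ := l.proper
    exact Finset.card_pos.2 ⟨i, Finset.mem_filter.2 ⟨Finset.mem_univ _, hi⟩⟩
  · calc q ≤ (univ : Finset ι).card := Finset.card_filter_le _ _
      _ = Fintype.card ι := rfl
      _ ≤ Fintype.card ι * (k + 1) := Nat.le_mul_of_pos_right _ (Nat.succ_pos _)
  · calc j0 ≤ ∑ _i : ι, (k + 1) := by
          refine Finset.sum_le_sum fun i _ => ?_
          split_ifs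
          · exact Nat.zero_le _
          · exact le_of_lt (Fin.is_lt _)
      _ = Fintype.card ι * (k + 1) := by
          rw [Finset.sum_const, smul_eq_mul]
          rfl
  · intro i hi
    have h1 := hc ⟨i, Nat.lt_succ_of_le hi⟩
    have h2 := hc 0
    simp only [key] at h1 h2
    rw [Fin.val_zero, Nat.zero_mul, Nat.add_zero] at h2
    rw [h1, h2]

theorem propB {Y : Type*} [Fintype Y] [DecidableEq Y] (E : Finset (Finset Y)) (s : ℕ)
    (hs : ∀ e ∈ E, s ≤ e.card) (hs1 : 1 ≤ s) (hE : E.card < 2 ^ (s - 1)) :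
    ∃ c : Y → Bool, ∀ e ∈ E, ∀ b : Bool, ∃ y ∈ e, c y = b := by
  classical
  by_contra hcon
  push Not at hcon
  have h1 : (univ : Finset (Y → Bool)) ⊆ (E ×ˢ (univ : Finset Bool)).biUnion fun p =>
      univ.filter fun c : Y → Bool => ∀ y ∈ p.1, c y = p.2 := by
    intro c _
    obtain ⟨e, he, b, hb⟩ := hcon c
    refine Finset.mem_biUnion.2 ⟨(e, !b), ?_, ?_⟩
    · exact Finset.mem_product.2 ⟨he, Finset.mem_univ _⟩
    · refine Finset.mem_filter.2 ⟨Finset.mem_univ _, fun y hy => ?_⟩
      have := hb y hy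
      revert this
      cases c y <;> cases b <;> simp
  have h2 : ∀ p ∈ E ×ˢ (univ : Finset Bool),
      (univ.filter fun c : Y → Bool => ∀ y ∈ p.1, c y = p.2).card ≤
        2 ^ (Fintype.card Y - s) := by
    intro p hp
    have hp1 : p.1 ∈ E := (Finset.mem_product.1 hp).1
    have h3 : (univ.filter fun c : Y → Bool => ∀ y ∈ p.1, c y = p.2) =
        Fintype.piFinset (fun y => if y ∈ p.1 then {p.2} else (univ : Finset Bool)) := by
      ext c
      rw [Finset.mem_filter, Fintype.mem_piFinset]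
      constructor
      · intro h y
        by_cases hy : y ∈ p.1
        · rw [if_pos hy]
          exact Finset.mem_singleton.2 (h.2 y hy)
        · rw [if_neg hy]
          exact Finset.mem_univ _
      · intro h
        refine ⟨Finset.mem_univ _, fun y hy => ?_⟩
        have := h y
        rw [if_pos hy] at this
        exact Finset.mem_singleton.1 this
    rw [h3, Fintype.card_piFinset]
    have h4 : ∀ y, (if y ∈ p.1 then {p.2} else (univ : Finset Bool)).card =
        if y ∈ p.1 then 1 else 2 := by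
      intro y
      split_ifs <;> simp
    rw [Finset.prod_congr rfl fun y _ => h4 y, Finset.prod_ite, Finset.prod_const_one, one_mul,
      Finset.prod_const]
    refine Nat.pow_le_pow_right (by norm_num) ?_
    have h5 : (univ.filter fun y => y ∉ p.1).card = Fintype.card Y - p.1.card := by
      rw [← Finset.card_univ_diff]
      congr 1
      ext y
      simp
    rw [h5]
    exact Nat.sub_le_sub_left (hs _ hp1) _
  have hsY : E.Nonempty → s ≤ Fintype.card Y := by
    rintro ⟨e, he⟩
    exact (hs e he).trans (Finset.card_le_univ e)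
  have h6 := Finset.card_le_card h1
  rw [Finset.card_univ, Fintype.card_fun, Fintype.card_bool] at h6
  have h7 := h6.trans ((Finset.card_biUnion_le).trans (Finset.sum_le_card_nsmul _ _ _ h2))
  rw [Finset.card_product, Finset.card_univ, Fintype.card_bool, smul_eq_mul] at h7
  rcases E.eq_empty_or_nonempty with h8 | h8
  · rw [h8] at h7
    simp at h7
  · have h9 := hsY h8
    have h10 : E.card * 2 < 2 ^ s := by
      calc E.card * 2 < 2 ^ (s - 1) * 2 := by omega
        _ = 2 ^ s := by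
          rw [← pow_succ]
          congr 1
          omega
    have h11 : E.card * 2 * 2 ^ (Fintype.card Y - s) < 2 ^ Fintype.card Y := by
      calc E.card * 2 * 2 ^ (Fintype.card Y - s) < 2 ^ s * 2 ^ (Fintype.card Y - s) :=
            Nat.mul_lt_mul_of_pos_right h10 (by positivity)
        _ = 2 ^ Fintype.card Y := by
          rw [← pow_add]
          congr 1
          omega
    omega

/-- discrete intermediate value theorem -/
theorem ivt (v : ℕ → ℤ) (J : ℕ) (hv : ∀ j < J, |v (j + 1) - v j| ≤ 1) (z : ℤ)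
    (h : (v 0 ≤ z ∧ z ≤ v J) ∨ (v J ≤ z ∧ z ≤ v 0)) : ∃ j ≤ J, v j = z := by
  induction J with
  | zero =>
    refine ⟨0, le_refl _, ?_⟩
    omega
  | succ J ih =>
    by_cases h1 : (v 0 ≤ z ∧ z ≤ v J) ∨ (v J ≤ z ∧ z ≤ v 0)
    · obtain ⟨j, hj, hj'⟩ := ih (fun j hj => hv j (by omega)) h1
      exact ⟨j, by omega, hj'⟩
    · have h2 := abs_le.1 (hv J (by omega))
      refine ⟨J + 1, le_refl _, ?_⟩
      omega

/-- a sequence of integers with steps at most one and total movement at least `Q` visits all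
residues -/
theorem visits (Q : ℕ) (hQ : 0 < Q) (v : ℕ → ℤ) (J : ℕ) (hv : ∀ j < J, |v (j + 1) - v j| ≤ 1)
    (h : (Q : ℤ) ≤ |v J - v 0|) (c : ZMod Q) : ∃ j ≤ J, ((v j : ℤ) : ZMod Q) = c := by
  haveI : NeZero Q := ⟨by omega⟩
  -- an integer in a window of length Q in the residue class
  have key : ∀ w : ℤ, ∃ z : ℤ, w ≤ z ∧ z ≤ w + Q ∧ ((z : ℤ) : ZMod Q) = c := by
    intro w
    refine ⟨w + ((c - (w : ZMod Q)).val : ℤ), ?_, ?_, ?_⟩
    · have : (0 : ℤ) ≤ ((c - (w : ZMod Q)).val : ℤ) := Int.natCast_nonneg _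
      omega
    · have : ((c - (w : ZMod Q)).val : ℤ) < Q := by
        exact_mod_cast ZMod.val_lt (c - (w : ZMod Q))
      omega
    · push_cast
      rw [ZMod.natCast_zmod_val]
      ring
  rcases le_total (v 0) (v J) with h1 | h1
  · rw [abs_of_nonneg (by omega)] at h
    obtain ⟨z, hz1, hz2, hz3⟩ := key (v 0)
    obtain ⟨j, hj, hj'⟩ := ivt v J hv z (Or.inl ⟨hz1, by omega⟩)
    exact ⟨j, hj, by rw [hj', hz3]⟩
  · rw [abs_of_nonpos (by omega)] at h
    obtain ⟨z, hz1, hz2, hz3⟩ := key (v J)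
    obtain ⟨j, hj, hj'⟩ := ivt v J hv z (Or.inr ⟨hz1, by omega⟩)
    exact ⟨j, hj, by rw [hj', hz3]⟩

theorem polyLip (p : Polynomial ℝ) (B : ℝ) (hB : 0 ≤ B) : ∃ C : ℝ, 0 ≤ C ∧
    ∀ s t : ℝ, 0 ≤ s → s ≤ B → 0 ≤ t → t ≤ B → |p.eval t - p.eval s| ≤ C * |t - s| := by
  have h1 : ContinuousOn (fun x : ℝ => (p.derivative).eval x) (Set.Icc 0 B) :=
    (p.derivative).continuous.continuousOn
  obtain ⟨C, hC⟩ := isCompact_Icc.exists_bound_of_continuousOn h1
  refine ⟨max C 0, le_max_right _ _, fun s t hs hs' ht ht' => ?_⟩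
  have h2 := Convex.norm_image_sub_le_of_norm_hasDerivWithin_le (f := fun x : ℝ => p.eval x)
    (f' := fun x : ℝ => (p.derivative).eval x) (s := Set.Icc 0 B) (C := max C 0) (x := s) (y := t)
    (fun x _ => (p.hasDerivAt x).hasDerivWithinAt)
    (fun x hx => (hC x hx).trans (le_max_left _ _)) (convex_Icc 0 B) ⟨hs, hs'⟩ ⟨ht, ht'⟩
  rwa [Real.norm_eq_abs, Real.norm_eq_abs] at h2

/-- Lagrange interpolation at `0, …, e` -/
theorem lagr (e : ℕ) (P : Polynomial ℝ) (hP : P.natDegree ≤ e) (t : ℝ) :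
    P.eval t = ∑ i ∈ range (e + 1), P.eval (i : ℝ) *
      (Lagrange.basis (range (e + 1)) (fun i : ℕ => (i : ℝ)) i).eval t := by
  have hinj : Set.InjOn (fun i : ℕ => (i : ℝ)) (range (e + 1) : Finset ℕ) :=
    fun a _ b _ h => Nat.cast_injective h
  have hdeg : P.degree < ((range (e + 1)).card : WithBot ℕ) := by
    rw [Finset.card_range]
    refine lt_of_le_of_lt Polynomial.degree_le_natDegree ?_
    exact_mod_cast Nat.lt_succ_of_le hP
  have h := Lagrange.eq_interpolate hinj hdeg
  have h2 := congrArg (Polynomial.eval t) h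
  rw [Lagrange.interpolate_apply, Polynomial.eval_finset_sum] at h2
  rw [h2]
  refine Finset.sum_congr rfl fun i _ => ?_
  rw [Polynomial.eval_mul, Polynomial.eval_C]

theorem lipC (e : ℕ) : ∃ C : ℝ, 1 ≤ C ∧ ∀ P : Polynomial ℝ, P.natDegree ≤ e →
    (∀ i : ℕ, i ≤ e → |P.eval (i : ℝ)| ≤ 1) → ∀ s t : ℝ, 0 ≤ s → s ≤ 2 * e → 0 ≤ t → t ≤ 2 * e →
      |P.eval t - P.eval s| ≤ C * |t - s| := by
  classical
  have h1 : ∀ i : ℕ, ∃ C : ℝ, 0 ≤ C ∧ ∀ s t : ℝ, 0 ≤ s → s ≤ 2 * e → 0 ≤ t → t ≤ 2 * e →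
      |(Lagrange.basis (range (e + 1)) (fun i : ℕ => (i : ℝ)) i).eval t -
        (Lagrange.basis (range (e + 1)) (fun i : ℕ => (i : ℝ)) i).eval s| ≤ C * |t - s| :=
    fun i => polyLip _ (2 * e) (by positivity)
  choose C hC0 hC using h1
  refine ⟨∑ i ∈ range (e + 1), C i + 1, ?_, ?_⟩
  · have := Finset.sum_nonneg (s := range (e + 1)) (f := C) fun i _ => hC0 i
    linarith
  · intro P hP hb s t hs hs' ht ht'
    rw [lagr e P hP t, lagr e P hP s, ← Finset.sum_sub_distrib]
    calc |∑ i ∈ range (e + 1), (P.eval (i : ℝ) *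
          (Lagrange.basis (range (e + 1)) (fun i : ℕ => (i : ℝ)) i).eval t - P.eval (i : ℝ) *
          (Lagrange.basis (range (e + 1)) (fun i : ℕ => (i : ℝ)) i).eval s)|
        ≤ ∑ i ∈ range (e + 1), |P.eval (i : ℝ) *
          (Lagrange.basis (range (e + 1)) (fun i : ℕ => (i : ℝ)) i).eval t - P.eval (i : ℝ) *
          (Lagrange.basis (range (e + 1)) (fun i : ℕ => (i : ℝ)) i).eval s| :=
          Finset.abs_sum_le_sum_abs _ _
      _ ≤ ∑ i ∈ range (e + 1), C i * |t - s| := by
          refine Finset.sum_le_sum fun i hi => ?_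
          rw [← mul_sub, abs_mul]
          have h2 := hb i (by have := Finset.mem_range.1 hi; omega)
          have h3 := hC i s t hs hs' ht ht'
          calc |P.eval (i : ℝ)| * |(Lagrange.basis (range (e + 1)) (fun i : ℕ => (i : ℝ)) i).eval t -
                (Lagrange.basis (range (e + 1)) (fun i : ℕ => (i : ℝ)) i).eval s| ≤
                1 * (C i * |t - s|) :=
                mul_le_mul h2 h3 (abs_nonneg _) zero_le_one
            _ = C i * |t - s| := one_mul _
      _ = (∑ i ∈ range (e + 1), C i) * |t - s| := by rw [Finset.sum_mul]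
      _ ≤ (∑ i ∈ range (e + 1), C i + 1) * |t - s| := by
          refine mul_le_mul_of_nonneg_right ?_ (abs_nonneg _)
          linarith

end Pool.Agent.H65.TL
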