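import Pool.Agent.H65.TL.A

/-!
# Counting the patterns `(⌊p(j)⌋ mod Q)_j`, `p` a real polynomial of degree `≤ k`

The sets `{(j,z) : z + 1 ≤ p(j)}` form a family of VC dimension `≤ k + 1`; Sauer-Shelah.
-/

set_option autoImplicit false

open Finset

namespace Pool.Agent.H65.TL

/-- the polynomial with binomial coefficients `c` -/
noncomputable def val {k : ℕ} (c : Fin (k + 1) → ℝ) (j : ℕ) : ℝ := ∑ m, c m * (j.choose m : ℝ)

theorem sum_choose_le (x n : ℕ) : ∑ i ∈ range (n + 1), x.choose i ≤ (x + 1) ^ n := by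
  rw [add_pow]
  refine Finset.sum_le_sum fun i hi => ?_
  rw [one_pow, mul_one]
  have h1 : 1 ≤ n.choose i := Nat.choose_pos (Nat.lt_succ_iff.1 (Finset.mem_range.1 hi))
  calc x.choose i ≤ x ^ i := Nat.choose_le_pow x i
    _ = x ^ i * 1 := (mul_one _).symm
    _ ≤ x ^ i * n.choose i := Nat.mul_le_mul_left _ h1

/-- the family of the sets below the graphs -/
noncomputable def fam (k N V : ℕ) : Finset (Finset (Fin N × Fin V)) := by
  classical
  exact univ.filter fun S => ∃ c : Fin (k + 1) → ℝ, ∀ p, p ∈ S ↔ ((p.2 : ℕ) + 1 : ℝ) ≤ val c p.1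

theorem mem_fam {k N V : ℕ} (S : Finset (Fin N × Fin V)) : S ∈ fam k N V ↔
    ∃ c : Fin (k + 1) → ℝ, ∀ p, p ∈ S ↔ ((p.2 : ℕ) + 1 : ℝ) ≤ val c p.1 := by
  classical
  rw [fam, Finset.mem_filter]
  exact ⟨fun h => h.2, fun h => ⟨Finset.mem_univ _, h⟩⟩

theorem fam_shatters {k N V : ℕ} (T : Finset (Fin N × Fin V)) (hT : (fam k N V).Shatters T) :
    T.card ≤ k + 1 := by
  classical
  by_contra hcon
  push Not at hcon
  let L : (T → ℝ) →ₗ[ℝ] (Fin (k + 1) → ℝ) :=
    { toFun := fun l m => ∑ p : T, l p * (((p : Fin N × Fin V).1 : ℕ).choose m : ℝ)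
      map_add' := by
        intro l l'
        funext m
        simp only [Pi.add_apply, add_mul, Finset.sum_add_distrib]
      map_smul' := by
        intro a l
        funext m
        simp only [Pi.smul_apply, smul_eq_mul, RingHom.id_apply, Finset.mul_sum, mul_assoc] }
  have hL : LinearMap.ker L ≠ ⊥ := by
    apply LinearMap.ker_ne_bot_of_finrank_lt
    rw [Module.finrank_fintype_fun_eq_card, Module.finrank_fintype_fun_eq_card, Fintype.card_fin,
      Fintype.card_coe]
    exact hcon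
  obtain ⟨l0, hl0, hl0'⟩ := (Submodule.ne_bot_iff _).1 hL
  -- choose the sign
  have key : ∃ l : T → ℝ, l ≠ 0 ∧ L l = 0 ∧
      0 ≤ ∑ p : T, l p * ((((p : Fin N × Fin V).2 : ℕ) : ℝ) + 1) := by
    rcases le_total 0 (∑ p : T, l0 p * ((((p : Fin N × Fin V).2 : ℕ) : ℝ) + 1)) with h | h
    · exact ⟨l0, hl0', LinearMap.mem_ker.1 hl0, h⟩
    · refine ⟨-l0, neg_ne_zero.2 hl0', ?_, ?_⟩
      · rw [map_neg, LinearMap.mem_ker.1 hl0, neg_zero]
      · simp only [Pi.neg_apply, neg_mul, Finset.sum_neg_distrib]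
        linarith
  obtain ⟨l, hl, hL0, hz⟩ := key
  -- the subset of the points with positive coefficient
  obtain ⟨S, hS, hST⟩ := hT (t := T.filter fun p => ∃ h : p ∈ T, 0 < l ⟨p, h⟩)
    (Finset.filter_subset _ _)
  obtain ⟨c, hc⟩ := (mem_fam S).1 hS
  have hmem : ∀ p : T, (p : Fin N × Fin V) ∈ S ↔ 0 < l p := by
    intro p
    have h1 : (p : Fin N × Fin V) ∈ T ∩ S ↔ (p : Fin N × Fin V) ∈ S := by
      rw [Finset.mem_inter]
      exact ⟨fun h => h.2, fun h => ⟨p.2, h⟩⟩
    rw [← h1, hST, Finset.mem_filter]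
    constructor
    · rintro ⟨_, h, h'⟩
      exact h'
    · intro h
      exact ⟨p.2, p.2, h⟩
  have hsum : ∑ p : T, l p * val c ((p : Fin N × Fin V).1 : ℕ) = 0 := by
    have h1 : ∀ p : T, l p * val c ((p : Fin N × Fin V).1 : ℕ) =
        ∑ m, c m * (l p * (((p : Fin N × Fin V).1 : ℕ).choose m : ℝ)) := by
      intro p
      rw [val, Finset.mul_sum]
      refine Finset.sum_congr rfl fun m _ => ?_
      ring
    rw [Finset.sum_congr rfl fun p _ => h1 p, Finset.sum_comm]
    refine Finset.sum_eq_zero fun m _ => ?_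
    rw [← Finset.mul_sum]
    have h2 := congrFun hL0 m
    have h3 : ∑ p : T, l p * (((p : Fin N × Fin V).1 : ℕ).choose m : ℝ) = 0 := h2
    rw [h3, mul_zero]
  have hterm : ∀ p : T, 0 ≤ l p * (val c ((p : Fin N × Fin V).1 : ℕ) -
      ((((p : Fin N × Fin V).2 : ℕ) : ℝ) + 1)) := by
    intro p
    by_cases h : 0 < l p
    · have h1 := (hc p).1 ((hmem p).2 h)
      exact mul_nonneg h.le (by linarith)
    · have h1 : ¬ ((((p : Fin N × Fin V).2 : ℕ) : ℝ) + 1 ≤ val c (p : Fin N × Fin V).1) :=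
        fun h2 => h ((hmem p).1 ((hc p).2 h2))
      push Not at h1 h
      exact mul_nonneg_of_nonpos_of_nonpos h (by linarith)
  have htot : ∑ p : T, l p * (val c ((p : Fin N × Fin V).1 : ℕ) -
      ((((p : Fin N × Fin V).2 : ℕ) : ℝ) + 1)) ≤ 0 := by
    simp only [mul_sub, Finset.sum_sub_distrib]
    rw [hsum]
    linarith
  have hzero := (Finset.sum_eq_zero_iff_of_nonneg (fun p _ => hterm p)).1
    (le_antisymm htot (Finset.sum_nonneg fun p _ => hterm p))
  have hnn : ∀ p : T, 0 ≤ l p := by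
    intro p
    by_contra h
    push Not at h
    have h1 : ¬ ((((p : Fin N × Fin V).2 : ℕ) : ℝ) + 1 ≤ val c (p : Fin N × Fin V).1) :=
      fun h2 => absurd ((hmem p).1 ((hc p).2 h2)) (not_lt.2 h.le)
    push Not at h1
    have h2 := hzero p (Finset.mem_univ _)
    have h3 : 0 < l p * (val c ((p : Fin N × Fin V).1 : ℕ) -
      ((((p : Fin N × Fin V).2 : ℕ) : ℝ) + 1)) := mul_pos_of_neg_of_neg h (by linarith)
    linarith
  have h0 : ∑ p : T, l p = 0 := by
    have h2 := congrFun hL0 0
    have h3 : ∑ p : T, l p * (((p : Fin N × Fin V).1 : ℕ).choose ((0 : Fin (k + 1)) : ℕ) : ℝ) = 0 :=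
      h2
    simpa using h3
  apply hl
  funext p
  exact (Finset.sum_eq_zero_iff_of_nonneg (fun p _ => hnn p)).1 h0 p (Finset.mem_univ _)

theorem fam_card (k N V : ℕ) : (fam k N V).card ≤ (N * V + 1) ^ (k + 1) := by
  classical
  have h1 : (fam k N V).vcDim ≤ k + 1 := by
    unfold Finset.vcDim
    refine Finset.sup_le fun T hT => ?_
    exact fam_shatters T (Finset.mem_shatterer.1 hT)
  calc (fam k N V).card ≤ (fam k N V).shatterer.card := Finset.card_le_card_shatterer _
    _ ≤ ∑ i ∈ Iic (fam k N V).vcDim, (Fintype.card (Fin N × Fin V)).choose i :=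
        Finset.card_shatterer_le_sum_vcDim
    _ ≤ ∑ i ∈ range (k + 1 + 1), (Fintype.card (Fin N × Fin V)).choose i := by
        refine Finset.sum_le_sum_of_subset fun i hi => ?_
        have := Finset.mem_Iic.1 hi
        exact Finset.mem_range.2 (by omega)
    _ ≤ (Fintype.card (Fin N × Fin V) + 1) ^ (k + 1) := sum_choose_le _ _
    _ = (N * V + 1) ^ (k + 1) := by
        rw [Fintype.card_prod, Fintype.card_fin, Fintype.card_fin]

/-- the patterns -/
noncomputable def pats (k N Q : ℕ) : Set (Fin N → ZMod Q) :=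
  {g | ∃ c : Fin (k + 1) → ℝ, ∀ j : Fin N, g j = ((⌊val c j⌋ : ℤ) : ZMod Q)}

theorem val_bound {k : ℕ} (c : Fin (k + 1) → ℝ) (Q : ℝ) (hQ : 0 ≤ Q)
    (hc : ∀ m, 0 ≤ c m ∧ c m ≤ Q) (j : ℕ) :
    0 ≤ val c j ∧ val c j ≤ Q * ((j + 1) ^ k : ℕ) := by
  constructor
  · exact Finset.sum_nonneg fun m _ => mul_nonneg (hc m).1 (Nat.cast_nonneg _)
  · calc val c j ≤ ∑ m : Fin (k + 1), Q * (j.choose m : ℝ) :=
          Finset.sum_le_sum fun m _ => mul_le_mul_of_nonneg_right (hc m).2 (Nat.cast_nonneg _)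
      _ = Q * ((∑ m ∈ range (k + 1), j.choose m : ℕ) : ℝ) := by
          rw [← Finset.mul_sum, Nat.cast_sum, ← Fin.sum_univ_eq_sum_range
            (fun m => (j.choose m : ℝ)) (k + 1)]
      _ ≤ Q * ((j + 1) ^ k : ℕ) := by
          refine mul_le_mul_of_nonneg_left ?_ hQ
          exact_mod_cast sum_choose_le j k

theorem pats_card (k N Q : ℕ) (hQ : 0 < Q) :
    (pats k N Q).ncard ≤ (N * (Q * N ^ k) + 1) ^ (k + 1) := by
  classical
  haveI : NeZero Q := ⟨by omega⟩
  set V := Q * N ^ k with hV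
  let Φ : Finset (Fin N × Fin V) → (Fin N → ZMod Q) := fun S j =>
    (((univ.filter fun z : Fin V => (j, z) ∈ S).card : ℕ) : ZMod Q)
  have h1 : pats k N Q ⊆ (((fam k N V).image Φ : Finset (Fin N → ZMod Q)) :
      Set (Fin N → ZMod Q)) := by
    rintro g ⟨c, hc⟩
    -- reduce the coefficients
    let c' : Fin (k + 1) → ℝ := fun m => c m - Q * ⌊c m / Q⌋
    have hQ' : (0 : ℝ) < Q := by exact_mod_cast hQ
    have hc' : ∀ m, 0 ≤ c' m ∧ c' m ≤ Q := by
      intro m
      have e1 : (⌊c m / Q⌋ : ℝ) ≤ c m / Q := Int.floor_le _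
      have e2 : c m / Q < ⌊c m / Q⌋ + 1 := Int.lt_floor_add_one _
      rw [le_div_iff₀ hQ'] at e1
      rw [div_lt_iff₀ hQ'] at e2
      constructor
      · simp only [c']
        linarith
      · simp only [c']
        linarith
    have hval : ∀ j : ℕ, val c j = val c' j +
        ((Q * ∑ m : Fin (k + 1), ⌊c m / Q⌋ * (j.choose m : ℤ) : ℤ) : ℝ) := by
      intro j
      simp only [val, c']
      push_cast
      rw [Finset.mul_sum, ← Finset.sum_add_distrib]
      refine Finset.sum_congr rfl fun m _ => ?_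
      ring
    have hfl : ∀ j : ℕ, ((⌊val c j⌋ : ℤ) : ZMod Q) = ((⌊val c' j⌋ : ℤ) : ZMod Q) := by
      intro j
      rw [hval, Int.floor_add_intCast]
      push_cast
      rw [ZMod.natCast_self, zero_mul, add_zero]
    refine Finset.mem_coe.2 (Finset.mem_image.2
      ⟨univ.filter fun p : Fin N × Fin V => ((p.2 : ℕ) + 1 : ℝ) ≤ val c' p.1, ?_, ?_⟩)
    · exact (mem_fam _).2 ⟨c', fun p => by
        rw [Finset.mem_filter]
        exact ⟨fun h => h.2, fun h => ⟨Finset.mem_univ _, h⟩⟩⟩
    · funext j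
      rw [hc j, hfl]
      simp only [Φ]
      have hb := val_bound c' Q hQ'.le hc' (j : ℕ)
      have hb2 : val c' j ≤ V := by
        refine hb.2.trans ?_
        rw [hV]
        push_cast
        refine mul_le_mul_of_nonneg_left ?_ hQ'.le
        have : ((j : ℕ) + 1 : ℝ) ≤ N := by
          have := j.2
          exact_mod_cast this
        exact pow_le_pow_left₀ (by positivity) this k
      have hnn : 0 ≤ ⌊val c' j⌋ := Int.floor_nonneg.2 hb.1
      obtain ⟨w, hw⟩ := Int.eq_ofNat_of_zero_le hnn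
      have hwV : w ≤ V := by
        have e1 : ((w : ℤ) : ℝ) ≤ V := by
          rw [← hw]
          exact (Int.floor_le _).trans hb2
        exact_mod_cast e1
      have hcard : (univ.filter fun z : Fin V => (j, z) ∈
          (univ.filter fun p : Fin N × Fin V => ((p.2 : ℕ) + 1 : ℝ) ≤ val c' p.1)).card = w := by
        have e1 : (univ.filter fun z : Fin V => (j, z) ∈
            (univ.filter fun p : Fin N × Fin V => ((p.2 : ℕ) + 1 : ℝ) ≤ val c' p.1)) =
            univ.filter fun z : Fin V => (z : ℕ) < w := by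
          ext z
          simp only [Finset.mem_filter, Finset.mem_univ, true_and]
          constructor
          · intro h
            have e2 : (((z : ℕ) + 1 : ℤ)) ≤ ⌊val c' j⌋ := by
              rw [Int.le_floor]
              push_cast
              exact h
            rw [hw] at e2
            omega
          · intro h
            have e2 : (((z : ℕ) + 1 : ℤ)) ≤ ⌊val c' j⌋ := by
              rw [hw]
              omega
            rw [Int.le_floor] at e2
            push_cast at e2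
            exact e2
        rw [e1, Fin.card_filter_val_lt]
        exact min_eq_right hwV
      rw [hcard, hw]
      push_cast
      rfl
  calc (pats k N Q).ncard ≤ ((((fam k N V).image Φ : Finset (Fin N → ZMod Q)) :
      Set (Fin N → ZMod Q))).ncard := Set.ncard_le_ncard h1 (Finset.finite_toSet _)
    _ = ((fam k N V).image Φ).card := Set.ncard_coe_finset _
    _ ≤ (fam k N V).card := Finset.card_image_le
    _ ≤ (N * V + 1) ^ (k + 1) := fam_card k N V

end Pool.Agent.H65.TL
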