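import Pool.Agent.H65.TL.B

/-!
# Integer valued interpolation and the drift lemma
-/

set_option autoImplicit false

open Finset Polynomial
open scoped Nat

namespace Pool.Agent.H65.TL

/-- a polynomial of degree `≤ k` in the binomial basis -/
theorem exists_val (k : ℕ) (p : ℝ[X]) (hp : p.natDegree ≤ k) :
    ∃ c : Fin (k + 1) → ℝ, ∀ j : ℕ, p.eval (j : ℝ) = val c j := by
  refine ⟨fun m => ((fwdDiff (1 : ℝ))^[(m : ℕ)] p.eval) 0, fun j => ?_⟩
  have h1 := shift_eq_sum_fwdDiff_iter (1 : ℝ) p.eval j 0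
  rw [zero_add, nsmul_eq_mul, mul_one] at h1
  rw [h1, val, Fin.sum_univ_eq_sum_range (fun m => ((fwdDiff (1 : ℝ))^[m] p.eval) 0 * (j.choose m : ℝ)) (k + 1)]
  have h2 : ∀ m, k < m → ((fwdDiff (1 : ℝ))^[m] p.eval) 0 = 0 := by
    intro m hm
    rw [Polynomial.fwdDiff_iter_eq_zero_of_degree_lt (lt_of_le_of_lt hp hm)]
    rfl
  have h3 : ∀ m, j.choose m • ((fwdDiff (1 : ℝ))^[m] p.eval) 0 = ((fwdDiff (1 : ℝ))^[m] p.eval) 0 * (j.choose m : ℝ) := by
    intro m
    rw [nsmul_eq_mul, mul_comm]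
  simp only [h3]
  rcases le_total (j + 1) (k + 1) with h | h
  · refine Finset.sum_subset (Finset.range_subset_range.2 h) fun m _ hm => ?_
    rw [Finset.mem_range, not_lt] at hm
    rw [Nat.choose_eq_zero_of_lt (by omega), Nat.cast_zero, mul_zero]
  · symm
    refine Finset.sum_subset (Finset.range_subset_range.2 h) fun m _ hm => ?_
    rw [Finset.mem_range, not_lt] at hm
    rw [h2 m (by omega), zero_mul]

/-- integer valued interpolation -/
theorem exists_int (e : ℕ) (n : ℕ → ℤ) : ∃ (I : ℝ[X]) (D : ℤ), I.natDegree ≤ e ∧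
    (∀ i : ℕ, i ≤ e → I.eval (i : ℝ) = n i) ∧ (∀ t : ℕ, ∃ z : ℤ, I.eval (t : ℝ) = z) ∧
    I.coeff e = D / e ! := by
  classical
  set D : ℕ → ℤ := fun m => ((fwdDiff (1 : ℕ))^[m] n) 0 with hD
  set I : ℝ[X] := ∑ m ∈ range (e + 1), C ((D m : ℝ) / m !) * descPochhammer ℝ m with hI
  have heval : ∀ t : ℕ, I.eval (t : ℝ) = ((∑ m ∈ range (e + 1), D m * (t.choose m : ℤ) : ℤ) : ℝ) := by
    intro t
    rw [hI, Polynomial.eval_finsetSum, Int.cast_sum]
    refine Finset.sum_congr rfl fun m _ => ?_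
    rw [Polynomial.eval_mul, Polynomial.eval_C, descPochhammer_eval_eq_descFactorial,
      Nat.descFactorial_eq_factorial_mul_choose]
    push_cast
    have : (m ! : ℝ) ≠ 0 := Nat.cast_ne_zero.2 (Nat.factorial_ne_zero m)
    field_simp
  refine ⟨I, D e, ?_, ?_, fun t => ⟨_, heval t⟩, ?_⟩
  · rw [hI]
    refine Polynomial.natDegree_sum_le_of_forall_le _ _ fun m hm => ?_
    refine (Polynomial.natDegree_C_mul_le _ _).trans ?_
    rw [descPochhammer_natDegree]
    exact Nat.lt_succ_iff.1 (Finset.mem_range.1 hm)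
  · intro i hi
    rw [heval]
    congr 1
    have h1 := shift_eq_sum_fwdDiff_iter (1 : ℕ) n i 0
    rw [zero_add, nsmul_eq_mul, mul_one] at h1
    have h1' : n i = ∑ k ∈ range (i + 1), i.choose k • D k := h1
    rw [h1']
    have h3 : ∀ m, i.choose m • D m = D m * (i.choose m : ℤ) := by
      intro m
      rw [nsmul_eq_mul, mul_comm]
    simp only [h3]
    symm
    refine Finset.sum_subset (Finset.range_subset_range.2 (by omega)) fun m _ hm => ?_
    rw [Finset.mem_range, not_lt] at hm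
    rw [Nat.choose_eq_zero_of_lt (by omega), Nat.cast_zero, mul_zero]
  · rw [hI, Polynomial.finset_sum_coeff, Finset.sum_eq_single e]
    · rw [Polynomial.coeff_C_mul]
      have h1 := (monic_descPochhammer ℝ e).coeff_natDegree
      rw [descPochhammer_natDegree] at h1
      rw [h1, mul_one]
    · intro m hm hme
      rw [Polynomial.coeff_C_mul, Polynomial.coeff_eq_zero_of_natDegree_lt, mul_zero]
      rw [descPochhammer_natDegree]
      have := Finset.mem_range.1 hm
      omega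
    · intro h
      exact absurd (Finset.mem_range.2 (Nat.lt_succ_self e)) h

/-- the leading coefficient is bounded by the values at `0, …, e` -/
theorem coeff_le (e : ℕ) (P : ℝ[X]) (hP : P.natDegree ≤ e)
    (hb : ∀ i : ℕ, i ≤ e → |P.eval (i : ℝ)| < 1) : |P.coeff e| < e + 1 := by
  have hinj : Set.InjOn (fun i : ℕ => (i : ℝ)) (range (e + 1) : Finset ℕ) :=
    fun a _ b _ h => Nat.cast_injective h
  have hdeg : P.degree < ((range (e + 1)).card : WithBot ℕ) := by
    rw [Finset.card_range]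
    refine lt_of_le_of_lt Polynomial.degree_le_natDegree ?_
    exact_mod_cast Nat.lt_succ_of_le hP
  have h := Lagrange.coeff_eq_sum hinj hdeg
  rw [Finset.card_range, Nat.add_sub_cancel] at h
  rw [h]
  calc |∑ i ∈ range (e + 1), P.eval (i : ℝ) / ∏ j ∈ (range (e + 1)).erase i, ((i : ℝ) - j)|
      ≤ ∑ i ∈ range (e + 1), |P.eval (i : ℝ) / ∏ j ∈ (range (e + 1)).erase i, ((i : ℝ) - j)| :=
        Finset.abs_sum_le_sum_abs _ _
    _ < ∑ _i ∈ range (e + 1), (1 : ℝ) := by
        refine Finset.sum_lt_sum_of_nonempty ⟨0, Finset.mem_range.2 (Nat.succ_pos e)⟩ fun i hi => ?_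
        rw [abs_div]
        have h1 : (1 : ℝ) ≤ |∏ j ∈ (range (e + 1)).erase i, ((i : ℝ) - j)| := by
          rw [Finset.abs_prod]
          rw [← Finset.prod_const_one (s := (range (e + 1)).erase i)]
          refine Finset.prod_le_prod (fun _ _ => zero_le_one) fun j hj => ?_
          have h2 : j ≠ i := Finset.ne_of_mem_erase hj
          have h3 : (1 : ℤ) ≤ |(i : ℤ) - j| := by
            refine Int.one_le_abs ?_
            omega
          have h4 : ((1 : ℤ) : ℝ) ≤ ((|(i : ℤ) - j| : ℤ) : ℝ) := by exact_mod_cast h3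
          push_cast at h4
          exact h4
        have h2 := hb i (Nat.lt_succ_iff.1 (Finset.mem_range.1 hi))
        rw [div_lt_iff₀ (by linarith)]
        linarith
    _ = e + 1 := by
        rw [Finset.sum_const, Finset.card_range, nsmul_eq_mul, mul_one]
        push_cast
        ring

theorem drift (e : ℕ) (he : 1 ≤ e) (C₀ : ℝ) (hC : ∀ P : ℝ[X], P.natDegree ≤ e →
    (∀ i : ℕ, i ≤ e → |P.eval (i : ℝ)| ≤ 1) → ∀ s t : ℝ, 0 ≤ s → s ≤ 2 * e → 0 ≤ t → t ≤ 2 * e →
      |P.eval t - P.eval s| ≤ C₀ * |t - s|) (hC0 : 0 ≤ C₀)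
    (G : ℕ) (hG : 1 ≤ G) (R : ℝ[X]) (hR : R.natDegree ≤ e) (h0 : R.eval 0 = 0)
    (hsmall : ∀ i : ℕ, i ≤ e → |R.eval ((i : ℝ) * G)| < 1) (η : ℝ) (hη : 0 < η)
    (hη' : η ≤ |R.coeff e|) :
    ∃ L : ℕ, (L : ℝ) ≤ (e + 1) / η + 1 ∧
      (∀ j < e * G, |R.eval ((L : ℝ) * (j + 1 : ℕ)) - R.eval ((L : ℝ) * j)| ≤ 2 * C₀ / G) ∧
      ∃ j ≤ e * G, 1 ≤ |R.eval ((L : ℝ) * j)| := by
  classical
  have hG' : (1 : ℝ) ≤ G := by exact_mod_cast hG
  -- existence of a good `L`
  have hex : ∃ L : ℕ, ∃ i ≤ e, 1 ≤ |R.eval ((i : ℝ) * (G * L))| := by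
    refine ⟨⌈((e : ℝ) + 1) / η⌉₊, ?_⟩
    by_contra hcon
    push Not at hcon
    set L0 : ℕ := ⌈((e : ℝ) + 1) / η⌉₊ with hL0
    have h1 : ((e : ℝ) + 1) / η ≤ L0 := Nat.le_ceil _
    have h2 := coeff_le e (R.comp (C ((G : ℝ) * L0) * X)) (by
      refine (Polynomial.natDegree_comp_le).trans ?_
      calc R.natDegree * (C ((G : ℝ) * L0) * X).natDegree ≤ e * 1 :=
            Nat.mul_le_mul hR ((Polynomial.natDegree_C_mul_le _ _).trans Polynomial.natDegree_X_le)
        _ = e := mul_one e) (by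
      intro i hi
      have := hcon i hi
      rw [Polynomial.eval_comp, Polynomial.eval_mul, Polynomial.eval_C, Polynomial.eval_X,
        mul_comm]
      exact this)
    have h3 : (R.comp (C ((G : ℝ) * L0) * X)).coeff e = R.coeff e * ((G : ℝ) * L0) ^ e := by
      rw [Polynomial.comp_C_mul_X_coeff]
    rw [h3, abs_mul] at h2
    have hL1 : 1 ≤ (G : ℝ) * L0 := by
      have : (1 : ℕ) ≤ L0 := by
        rw [hL0]
        exact Nat.one_le_ceil_iff.2 (by positivity)
      have : (1 : ℝ) ≤ L0 := by exact_mod_cast this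
      nlinarith
    have h4 : (G : ℝ) * L0 ≤ |((G : ℝ) * L0) ^ e| := by
      rw [abs_of_nonneg (by positivity)]
      exact le_self_pow₀ hL1 (by omega)
    have h5 : (e : ℝ) + 1 ≤ η * L0 := by
      rw [div_le_iff₀ hη] at h1
      linarith
    have h6 : η * L0 ≤ |R.coeff e| * |((G : ℝ) * L0) ^ e| := by
      refine mul_le_mul hη' ?_ (Nat.cast_nonneg _) (abs_nonneg _)
      have : (L0 : ℝ) ≤ (G : ℝ) * L0 := by nlinarith [Nat.cast_nonneg (α := ℝ) L0]
      linarith
    linarith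
  have hfind := Nat.find_spec hex
  have hmin := fun m (hm : m < Nat.find hex) => Nat.find_min hex hm
  have hle : Nat.find hex ≤ ⌈((e : ℝ) + 1) / η⌉₊ := by
    by_contra hcon
    push Not at hcon
    have h1 := hmin _ hcon
    push Not at h1
    -- repeat the argument above
    set L0 : ℕ := ⌈((e : ℝ) + 1) / η⌉₊ with hL0
    have h1' : ((e : ℝ) + 1) / η ≤ L0 := Nat.le_ceil _
    have h2 := coeff_le e (R.comp (C ((G : ℝ) * L0) * X)) (by
      refine (Polynomial.natDegree_comp_le).trans ?_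
      calc R.natDegree * (C ((G : ℝ) * L0) * X).natDegree ≤ e * 1 :=
            Nat.mul_le_mul hR ((Polynomial.natDegree_C_mul_le _ _).trans Polynomial.natDegree_X_le)
        _ = e := mul_one e) (by
      intro i hi
      have := h1 i hi
      rw [Polynomial.eval_comp, Polynomial.eval_mul, Polynomial.eval_C, Polynomial.eval_X,
        mul_comm]
      exact this)
    have h3 : (R.comp (C ((G : ℝ) * L0) * X)).coeff e = R.coeff e * ((G : ℝ) * L0) ^ e := by
      rw [Polynomial.comp_C_mul_X_coeff]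
    rw [h3, abs_mul] at h2
    have hL1 : 1 ≤ (G : ℝ) * L0 := by
      have : (1 : ℕ) ≤ L0 := by
        rw [hL0]
        exact Nat.one_le_ceil_iff.2 (by positivity)
      have : (1 : ℝ) ≤ L0 := by exact_mod_cast this
      nlinarith
    have h4 : (G : ℝ) * L0 ≤ |((G : ℝ) * L0) ^ e| := by
      rw [abs_of_nonneg (by positivity)]
      exact le_self_pow₀ hL1 (by omega)
    have h5 : (e : ℝ) + 1 ≤ η * L0 := by
      rw [div_le_iff₀ hη] at h1'
      linarith
    have h6 : η * L0 ≤ |R.coeff e| * |((G : ℝ) * L0) ^ e| := by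
      refine mul_le_mul hη' ?_ (Nat.cast_nonneg _) (abs_nonneg _)
      have : (L0 : ℝ) ≤ (G : ℝ) * L0 := by nlinarith [Nat.cast_nonneg (α := ℝ) L0]
      linarith
    linarith
  set L := Nat.find hex with hL
  have hL2 : 2 ≤ L := by
    by_contra hcon
    have h1 : L = 0 ∨ L = 1 := by omega
    obtain ⟨i, hi, hi'⟩ := hfind
    rcases h1 with h1 | h1
    · rw [h1] at hi'
      simp only [Nat.cast_zero, mul_zero] at hi'
      rw [h0, abs_zero] at hi'
      linarith
    · rw [h1] at hi'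
      have := hsmall i hi
      rw [Nat.cast_one, mul_one] at hi'
      linarith
  have hprev := hmin (L - 1) (by omega)
  push Not at hprev
  have hLr : (2 : ℝ) ≤ L := by exact_mod_cast hL2
  have hLm : ((L - 1 : ℕ) : ℝ) = (L : ℝ) - 1 := by
    rw [Nat.cast_sub (by omega), Nat.cast_one]
  set H : ℝ := (G : ℝ) * ((L : ℝ) - 1) with hH
  have hH0 : 0 < H := by
    rw [hH]
    exact mul_pos (by linarith) (by linarith)
  refine ⟨L, ?_, ?_, ?_⟩
  · have h1 : (L : ℝ) ≤ (⌈((e : ℝ) + 1) / η⌉₊ : ℝ) := by exact_mod_cast hle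
    have h2 : (⌈((e : ℝ) + 1) / η⌉₊ : ℝ) < ((e : ℝ) + 1) / η + 1 :=
      Nat.ceil_lt_add_one (by positivity)
    linarith
  · intro j hj
    have h1 := hC (R.comp (C H * X)) (by
      refine (Polynomial.natDegree_comp_le).trans ?_
      calc R.natDegree * (C H * X).natDegree ≤ e * 1 :=
            Nat.mul_le_mul hR ((Polynomial.natDegree_C_mul_le _ _).trans Polynomial.natDegree_X_le)
        _ = e := mul_one e) (by
      intro i hi
      have := hprev i hi
      rw [Polynomial.eval_comp, Polynomial.eval_mul, Polynomial.eval_C, Polynomial.eval_X,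
        mul_comm, hH]
      rw [hLm] at this
      exact this.le) ((L : ℝ) * j / H) ((L : ℝ) * (j + 1 : ℕ) / H)
    have hj1 : ((j + 1 : ℕ) : ℝ) ≤ e * G := by exact_mod_cast hj
    have hj0 : (j : ℝ) ≤ ((j + 1 : ℕ) : ℝ) := by
      push_cast
      linarith
    have hbound : (L : ℝ) * (j + 1 : ℕ) / H ≤ 2 * e := by
      rw [div_le_iff₀ hH0, hH]
      have e1 : (L : ℝ) * (j + 1 : ℕ) ≤ L * (e * G) :=
        mul_le_mul_of_nonneg_left hj1 (by positivity)
      have e2 : (0 : ℝ) ≤ (e : ℝ) * G := by positivity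
      nlinarith
    have h2 := h1 (by positivity) (by
      refine le_trans ?_ hbound
      exact div_le_div_of_nonneg_right (mul_le_mul_of_nonneg_left hj0 (by positivity)) hH0.le)
      (by positivity) hbound
    simp only [Polynomial.eval_comp, Polynomial.eval_mul, Polynomial.eval_C,
      Polynomial.eval_X] at h2
    rw [mul_div_cancel₀ _ hH0.ne', mul_div_cancel₀ _ hH0.ne'] at h2
    refine h2.trans ?_
    have h3 : |(L : ℝ) * (j + 1 : ℕ) / H - (L : ℝ) * j / H| = L / H := by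
      rw [← sub_div, ← mul_sub]
      push_cast
      rw [add_sub_cancel_left, mul_one, abs_of_nonneg (by positivity)]
    rw [h3]
    have h4 : (L : ℝ) / H ≤ 2 / G := by
      rw [div_le_div_iff₀ hH0 (by linarith), hH]
      nlinarith
    calc C₀ * (L / H) ≤ C₀ * (2 / G) := mul_le_mul_of_nonneg_left h4 hC0
      _ = 2 * C₀ / G := by ring
  · obtain ⟨i, hi, hi'⟩ := hfind
    refine ⟨i * G, Nat.mul_le_mul_right _ hi, ?_⟩
    have h1 : (L : ℝ) * ((i * G : ℕ) : ℝ) = (i : ℝ) * (G * L) := by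
      push_cast
      ring
    rw [h1]
    exact hi'

/-- smallness at `0, …, e` gives smallness at `0, G, …, eG` -/
theorem exists_small (k G : ℕ) : ∃ δ : ℝ, 0 < δ ∧ ∀ e ≤ k, ∀ R : ℝ[X], R.natDegree ≤ e →
    (∀ i : ℕ, i ≤ e → |R.eval (i : ℝ)| ≤ δ) → ∀ i : ℕ, i ≤ e → |R.eval ((i : ℝ) * G)| < 1 := by
  classical
  set B : ℝ := ∑ e ∈ range (k + 1), ∑ i ∈ range (k + 1), ∑ m ∈ range (e + 1),
    |(Lagrange.basis (range (e + 1)) (fun i : ℕ => (i : ℝ)) m).eval ((i : ℝ) * G)| with hB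
  have hB0 : 0 ≤ B := by
    rw [hB]
    exact Finset.sum_nonneg fun e _ => Finset.sum_nonneg fun i _ => Finset.sum_nonneg fun m _ =>
      abs_nonneg _
  refine ⟨1 / (B + 1), by positivity, fun e he R hR hb i hi => ?_⟩
  rw [lagr e R hR]
  have h1 : ∑ m ∈ range (e + 1),
      |(Lagrange.basis (range (e + 1)) (fun i : ℕ => (i : ℝ)) m).eval ((i : ℝ) * G)| ≤ B := by
    rw [hB]
    refine le_trans ?_ (Finset.single_le_sum (f := fun e => ∑ i ∈ range (k + 1),
      ∑ m ∈ range (e + 1), |(Lagrange.basis (range (e + 1)) (fun i : ℕ => (i : ℝ)) m).eval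
        ((i : ℝ) * G)|) (fun e _ => Finset.sum_nonneg fun i _ => Finset.sum_nonneg fun m _ =>
          abs_nonneg _) (Finset.mem_range.2 (Nat.lt_succ_of_le he)))
    exact Finset.single_le_sum (f := fun i : ℕ =>
      ∑ m ∈ range (e + 1), |(Lagrange.basis (range (e + 1)) (fun i : ℕ => (i : ℝ)) m).eval
        ((i : ℝ) * G)|) (fun i _ => Finset.sum_nonneg fun m _ => abs_nonneg _)
        (Finset.mem_range.2 (Nat.lt_succ_of_le (hi.trans he)))
  calc |∑ m ∈ range (e + 1), R.eval (m : ℝ) *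
        (Lagrange.basis (range (e + 1)) (fun i : ℕ => (i : ℝ)) m).eval ((i : ℝ) * G)|
      ≤ ∑ m ∈ range (e + 1), |R.eval (m : ℝ) *
        (Lagrange.basis (range (e + 1)) (fun i : ℕ => (i : ℝ)) m).eval ((i : ℝ) * G)| :=
        Finset.abs_sum_le_sum_abs _ _
    _ ≤ ∑ m ∈ range (e + 1), 1 / (B + 1) *
        |(Lagrange.basis (range (e + 1)) (fun i : ℕ => (i : ℝ)) m).eval ((i : ℝ) * G)| := by
        refine Finset.sum_le_sum fun m hm => ?_
        rw [abs_mul]
        exact mul_le_mul_of_nonneg_right (hb m (Nat.lt_succ_iff.1 (Finset.mem_range.1 hm)))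
          (abs_nonneg _)
    _ = 1 / (B + 1) * ∑ m ∈ range (e + 1),
        |(Lagrange.basis (range (e + 1)) (fun i : ℕ => (i : ℝ)) m).eval ((i : ℝ) * G)| := by
        rw [Finset.mul_sum]
    _ ≤ 1 / (B + 1) * B := mul_le_mul_of_nonneg_left h1 (by positivity)
    _ < 1 := by
        rw [one_div, inv_mul_lt_iff₀ (by linarith)]
        linarith

end Pool.Agent.H65.TL
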