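import Pool.Agent.H65.TL.C

/-!
# The phases along an arithmetic progression with difference in `A` visit all arcs
-/

set_option autoImplicit false

open Finset Polynomial
open scoped Nat

namespace Pool.Agent.H65.TL

/-- the local statement -/
theorem visit_all (k Q G W M : ℕ) (C₀ : ℝ) (hC0 : 0 ≤ C₀)
    (hC : ∀ e ≤ k, ∀ P : ℝ[X], P.natDegree ≤ e →
      (∀ i : ℕ, i ≤ e → |P.eval (i : ℝ)| ≤ 1) → ∀ s t : ℝ, 0 ≤ s → s ≤ 2 * e → 0 ≤ t →
        t ≤ 2 * e → |P.eval t - P.eval s| ≤ C₀ * |t - s|)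
    (hG : 1 ≤ G) (hQ : 0 < Q) (hGQ : 2 * C₀ * Q ≤ G) (δ : ℝ) (hδ : 0 < δ)
    (hsmall : ∀ e ≤ k, ∀ R : ℝ[X], R.natDegree ≤ e → (∀ i : ℕ, i ≤ e → |R.eval (i : ℝ)| ≤ δ) →
      ∀ i : ℕ, i ≤ e → |R.eval ((i : ℝ) * G)| < 1)
    (r : ℕ) (hr : 0 < r) (hrδ : 1 / δ ≤ r)
    (hW : ∀ f : ℕ → Fin r, ∃ j0 q : ℕ, 0 < q ∧ q ≤ W ∧ j0 ≤ W ∧
      ∀ i : ℕ, i ≤ k → f (j0 + i * q) = f j0)
    (hM : 0 < M) (hMdvd : ∀ e ≤ k, ∀ q, 0 < q → q ≤ W → e ! * q ^ e ∣ M)
    (ε : ℝ) (hε : 0 < ε) (e : ℕ) (he : 1 ≤ e) (hek : e ≤ k) (α : ℝ) (a d : ℕ)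
    (hα : ∀ z : ℤ, ε ≤ |α * (d : ℝ) ^ e - z|) :
    ∃ j0 L q : ℕ, j0 ≤ W ∧ q ≤ W ∧ (L : ℝ) ≤ (k + 1) * (k ! * M / ε) + 1 ∧
      ∀ c : ZMod Q, ∃ j ≤ e * G,
        ((⌊(Q : ℝ) * (α / M * ((a + (j0 + L * j * q) * d : ℕ) : ℝ) ^ e)⌋ : ℤ) : ZMod Q) = c := by
  classical
  have hM' : (0 : ℝ) < M := by exact_mod_cast hM
  have hr' : (0 : ℝ) < r := by exact_mod_cast hr
  set β : ℝ := α / M with hβ
  set y : ℕ → ℝ := fun j => β * ((a + j * d : ℕ) : ℝ) ^ e with hy
  have hfr : ∀ x : ℝ, (⌊(r : ℝ) * Int.fract x⌋).toNat < r := by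
    intro x
    have h1 : (r : ℝ) * Int.fract x < r := by
      have := Int.fract_lt_one x
      nlinarith
    have h2 : 0 ≤ (r : ℝ) * Int.fract x := mul_nonneg hr'.le (Int.fract_nonneg x)
    have h3 : 0 ≤ ⌊(r : ℝ) * Int.fract x⌋ := Int.floor_nonneg.2 h2
    have h4 : ⌊(r : ℝ) * Int.fract x⌋ < r := by
      rw [Int.floor_lt]
      exact_mod_cast h1
    omega
  obtain ⟨j0, q, hq, hqW, hj0, hmono⟩ := hW (fun j => ⟨(⌊(r : ℝ) * Int.fract (y j)⌋).toNat, hfr _⟩)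
  have hclose : ∀ i : ℕ, i ≤ k → |Int.fract (y (j0 + i * q)) - Int.fract (y j0)| ≤ δ := by
    intro i hi
    have h1 := congrArg Fin.val (hmono i hi)
    simp only at h1
    have h2 : ⌊(r : ℝ) * Int.fract (y (j0 + i * q))⌋ = ⌊(r : ℝ) * Int.fract (y j0)⌋ := by
      have e1 : 0 ≤ ⌊(r : ℝ) * Int.fract (y (j0 + i * q))⌋ :=
        Int.floor_nonneg.2 (mul_nonneg hr'.le (Int.fract_nonneg _))
      have e2 : 0 ≤ ⌊(r : ℝ) * Int.fract (y j0)⌋ :=
        Int.floor_nonneg.2 (mul_nonneg hr'.le (Int.fract_nonneg _))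
      omega
    have h3 := Int.abs_sub_lt_one_of_floor_eq_floor h2
    rw [← mul_sub, abs_mul, abs_of_pos hr'] at h3
    rw [div_le_iff₀ hδ] at hrδ
    by_contra hcon
    push Not at hcon
    nlinarith
  -- the polynomial of the phases
  set Zp : ℝ[X] := C β * (C ((a + j0 * d : ℕ) : ℝ) + C ((q * d : ℕ) : ℝ) * X) ^ e with hZp
  have hZeval : ∀ i : ℕ, Zp.eval (i : ℝ) = y (j0 + i * q) := by
    intro i
    rw [hZp, hy]
    simp only [eval_mul, eval_C, eval_pow, eval_add, eval_X]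
    congr 2
    push_cast
    ring
  have hlin : (C ((a + j0 * d : ℕ) : ℝ) + C ((q * d : ℕ) : ℝ) * X).natDegree ≤ 1 := by
    refine (natDegree_add_le _ _).trans (max_le ?_ ?_)
    · rw [natDegree_C]
      exact Nat.zero_le _
    · exact (natDegree_C_mul_le _ _).trans natDegree_X_le
  have hZdeg : Zp.natDegree ≤ e := by
    rw [hZp]
    refine (natDegree_C_mul_le _ _).trans ((natDegree_pow_le).trans ?_)
    calc e * (C ((a + j0 * d : ℕ) : ℝ) + C ((q * d : ℕ) : ℝ) * X).natDegree ≤ e * 1 :=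
          Nat.mul_le_mul_left _ hlin
      _ = e := mul_one e
  have hZcoeff : Zp.coeff e = β * ((q * d : ℕ) : ℝ) ^ e := by
    rw [hZp, coeff_C_mul]
    congr 1
    have h1 := coeff_pow_of_natDegree_le (m := e) (n := 1) hlin
    rw [mul_one] at h1
    rw [h1]
    congr 1
    rw [coeff_add, coeff_C_mul, coeff_X_one, mul_one, coeff_C_succ, zero_add]
  obtain ⟨I, D, hIdeg, hIval, hIint, hIcoeff⟩ := exists_int e (fun i => ⌊y (j0 + i * q)⌋)
  set w₀ : ℝ := Int.fract (y j0) with hw₀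
  set R : ℝ[X] := Zp - I - C w₀ with hR
  have hRdeg : R.natDegree ≤ e := by
    rw [hR]
    refine (natDegree_sub_le _ _).trans (max_le ((natDegree_sub_le _ _).trans
      (max_le hZdeg hIdeg)) ?_)
    rw [natDegree_C]
    exact Nat.zero_le _
  have hReval : ∀ i : ℕ, i ≤ e → R.eval (i : ℝ) = Int.fract (y (j0 + i * q)) - w₀ := by
    intro i hi
    rw [hR, eval_sub, eval_sub, eval_C, hZeval, hIval i hi, ← Int.self_sub_floor]
  have hR0 : R.eval 0 = 0 := by
    have := hReval 0 (Nat.zero_le _)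
    rw [Nat.cast_zero] at this
    rw [this, Nat.zero_mul, Nat.add_zero, sub_self]
  have hRsmall : ∀ i : ℕ, i ≤ e → |R.eval (i : ℝ)| ≤ δ := by
    intro i hi
    rw [hReval i hi]
    exact hclose i (hi.trans hek)
  have hRcoeff : R.coeff e = β * ((q * d : ℕ) : ℝ) ^ e - D / e ! := by
    rw [hR, coeff_sub, coeff_sub, hZcoeff, hIcoeff]
    have : (C w₀).coeff e = 0 := by
      rw [coeff_C, if_neg (by omega)]
    rw [this, sub_zero]
  -- lower bound for the leading coefficient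
  set η : ℝ := ε / (k ! * M) with hη
  have hk0 : (0 : ℝ) < k ! := by exact_mod_cast Nat.factorial_pos k
  have he0 : (0 : ℝ) < e ! := by exact_mod_cast Nat.factorial_pos e
  have hη0 : 0 < η := by
    rw [hη]
    positivity
  have hη' : η ≤ |R.coeff e| := by
    obtain ⟨μ, hμ⟩ := hMdvd e hek q hq hqW
    have hμ0 : 0 < μ := by
      rcases Nat.eq_zero_or_pos μ with h | h
      · rw [h, mul_zero] at hμ
        omega
      · exact h
    have hμM : μ ≤ M := by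
      rw [hμ]
      exact Nat.le_mul_of_pos_left _ (Nat.mul_pos (Nat.factorial_pos e) (pow_pos hq e))
    have hMr : (M : ℝ) = e ! * (q : ℝ) ^ e * μ := by
      rw [hμ]
      push_cast
      ring
    have h1 := hα (μ * D)
    have h2 : α * (d : ℝ) ^ e - ((μ * D : ℤ) : ℝ) = μ * e ! * R.coeff e := by
      rw [hRcoeff, hβ]
      have e1 : α = α / M * (e ! * (q : ℝ) ^ e * μ) := by
        rw [← hMr]
        field_simp
      have e2 : α * (d : ℝ) ^ e = α / M * (e ! * (q : ℝ) ^ e * μ) * (d : ℝ) ^ e := by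
        rw [← e1]
      rw [e2]
      push_cast
      rw [mul_pow]
      field_simp
    rw [h2, abs_mul] at h1
    have h3 : |(μ : ℝ) * e !| = μ * e ! := abs_of_nonneg (by positivity)
    rw [h3] at h1
    rw [hη, div_le_iff₀ (by positivity)]
    have h4 : (μ : ℝ) * e ! ≤ k ! * M := by
      rw [mul_comm]
      refine mul_le_mul ?_ ?_ (Nat.cast_nonneg _) hk0.le
      · exact_mod_cast Nat.factorial_le hek
      · exact_mod_cast hμM
    calc ε ≤ μ * e ! * |R.coeff e| := h1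
      _ ≤ (k ! * M) * |R.coeff e| := mul_le_mul_of_nonneg_right h4 (abs_nonneg _)
      _ = |R.coeff e| * (k ! * M) := mul_comm _ _
  obtain ⟨L, hL, hsteps, jm, hjm, hjm'⟩ := drift e he C₀ (hC e hek) hC0 G hG R hRdeg hR0
    (hsmall e hek R hRdeg hRsmall) η hη0 hη'
  refine ⟨j0, L, q, hj0, hqW, ?_, ?_⟩
  · refine hL.trans ?_
    have h1 : ((e : ℝ) + 1) / η ≤ (k + 1) * (k ! * M / ε) := by
      rw [hη, div_div_eq_mul_div]
      have h2 : (e : ℝ) ≤ k := by exact_mod_cast hek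
      rw [mul_div_assoc]
      refine mul_le_mul_of_nonneg_right ?_ (by positivity)
      linarith
    linarith
  · -- the cells
    have hQ' : (0 : ℝ) < Q := by exact_mod_cast hQ
    have hGr : (0 : ℝ) < G := by
      have : (1 : ℝ) ≤ G := by exact_mod_cast hG
      linarith
    set v : ℕ → ℤ := fun j => ⌊(Q : ℝ) * (R.eval ((L : ℝ) * j) + w₀)⌋ with hv
    have hvstep : ∀ j < jm, |v (j + 1) - v j| ≤ 1 := by
      intro j hj
      have h1 := hsteps j (lt_of_lt_of_le hj hjm)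
      have h2 : |(Q : ℝ) * (R.eval ((L : ℝ) * (j + 1 : ℕ)) + w₀) -
          (Q : ℝ) * (R.eval ((L : ℝ) * j) + w₀)| ≤ 1 := by
        have e1 : (Q : ℝ) * (R.eval ((L : ℝ) * (j + 1 : ℕ)) + w₀) -
          (Q : ℝ) * (R.eval ((L : ℝ) * j) + w₀) = Q * (R.eval ((L : ℝ) * (j + 1 : ℕ)) -
            R.eval ((L : ℝ) * j)) := by ring
        rw [e1, abs_mul, abs_of_pos hQ']
        calc (Q : ℝ) * |R.eval ((L : ℝ) * (j + 1 : ℕ)) - R.eval ((L : ℝ) * j)|
            ≤ Q * (2 * C₀ / G) := mul_le_mul_of_nonneg_left h1 hQ'.le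
          _ = 2 * C₀ * Q / G := by ring
          _ ≤ 1 := by
            rw [div_le_one hGr]
            exact hGQ
      have h3 := abs_le.1 h2
      simp only [hv]
      rw [abs_le]
      constructor
      · have e1 : ⌊(Q : ℝ) * (R.eval ((L : ℝ) * j) + w₀)⌋ - 1 ≤
            ⌊(Q : ℝ) * (R.eval ((L : ℝ) * (j + 1 : ℕ)) + w₀)⌋ := by
          rw [Int.le_floor]
          push_cast
          have := Int.floor_le ((Q : ℝ) * (R.eval ((L : ℝ) * j) + w₀))
          push_cast at h3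
          linarith [h3.1]
        linarith
      · have e1 : ⌊(Q : ℝ) * (R.eval ((L : ℝ) * (j + 1 : ℕ)) + w₀)⌋ - 1 ≤
            ⌊(Q : ℝ) * (R.eval ((L : ℝ) * j) + w₀)⌋ := by
          rw [Int.le_floor]
          push_cast
          have := Int.floor_le ((Q : ℝ) * (R.eval ((L : ℝ) * (j + 1 : ℕ)) + w₀))
          push_cast at this h3
          linarith [h3.2]
        linarith
    have hvtot : (Q : ℤ) ≤ |v jm - v 0| := by
      have h0 : R.eval ((L : ℝ) * ((0 : ℕ) : ℝ)) = 0 := by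
        rw [Nat.cast_zero, mul_zero, hR0]
      simp only [hv]
      rw [h0]
      rcases le_abs.1 hjm' with h | h
      · have e1 : ⌊(Q : ℝ) * (0 + w₀)⌋ + Q ≤ ⌊(Q : ℝ) * (R.eval ((L : ℝ) * jm) + w₀)⌋ := by
          rw [Int.le_floor]
          push_cast
          have := Int.floor_le ((Q : ℝ) * (0 + w₀))
          nlinarith
        refine le_abs.2 (Or.inl ?_)
        linarith
      · have e1 : ⌊(Q : ℝ) * (R.eval ((L : ℝ) * jm) + w₀)⌋ + Q ≤ ⌊(Q : ℝ) * (0 + w₀)⌋ := by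
          rw [Int.le_floor]
          push_cast
          have := Int.floor_le ((Q : ℝ) * (R.eval ((L : ℝ) * jm) + w₀))
          nlinarith
        refine le_abs.2 (Or.inr ?_)
        linarith
    intro c
    obtain ⟨j, hj, hjc⟩ := visits Q hQ v jm hvstep hvtot c
    refine ⟨j, hj.trans hjm, ?_⟩
    rw [← hjc]
    obtain ⟨z, hz⟩ := hIint (L * j)
    have h1 : (Q : ℝ) * (β * ((a + (j0 + L * j * q) * d : ℕ) : ℝ) ^ e) =
        (Q : ℝ) * (R.eval ((L : ℝ) * j) + w₀) + ((Q * z : ℤ) : ℝ) := by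
      have e1 := hZeval (L * j)
      have e2 : R.eval ((L : ℝ) * j) = Zp.eval ((L * j : ℕ) : ℝ) - z - w₀ := by
        rw [hR, eval_sub, eval_sub, eval_C]
        have : ((L : ℝ) * j) = ((L * j : ℕ) : ℝ) := by push_cast; ring
        rw [this, hz]
      rw [e2, e1]
      simp only [hy]
      push_cast
      ring
    rw [h1, Int.floor_add_intCast]
    simp only [hv]
    push_cast
    rw [ZMod.natCast_self, zero_mul, add_zero]

end Pool.Agent.H65.TL
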