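import Pool.Agent.H65.TL.D

/-!
# `2`-large sets are sets of polynomial Bohr recurrence
-/

set_option autoImplicit false

open Finset Polynomial
open scoped Nat

namespace Pool.Agent.H65.TL

theorem exists_Q (k n c₀ : ℕ) : ∃ Q : ℕ, 0 < Q ∧
    (((k * (2 * c₀ * Q) + 1) * (Q * (k * (2 * c₀ * Q) + 1) ^ k) + 1) ^ (k + 1)) ^ n <
      2 ^ (Q - 1) := by
  set A : ℕ := 2 * k * c₀ + 2 with hA
  set E : ℕ := (k + 2) * (k + 1) * n with hE
  have h1 := tendsto_pow_const_div_const_pow_of_one_lt E (r := (2 : ℝ)) (by norm_num)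
  have h2 : (0 : ℝ) < 1 / (2 * (A : ℝ) ^ E) := by positivity
  obtain ⟨Q, hQ, hQ'⟩ := ((h1.eventually (gt_mem_nhds h2)).and
    (Filter.eventually_ge_atTop 1)).exists
  refine ⟨Q, hQ', ?_⟩
  have h3 : (A * Q) ^ E < 2 ^ (Q - 1) := by
    rw [div_lt_div_iff₀ (by positivity) (by positivity), one_mul] at hQ
    have h4 : (2 : ℝ) ^ Q = 2 * 2 ^ (Q - 1) := by
      rw [← pow_succ']
      congr 1
      omega
    rw [h4] at hQ
    have h5 : ((A : ℝ) * Q) ^ E < 2 ^ (Q - 1) := by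
      rw [mul_pow]
      linarith
    exact_mod_cast h5
  refine lt_of_le_of_lt ?_ h3
  have h6 : (k * (2 * c₀ * Q) + 1) * (Q * (k * (2 * c₀ * Q) + 1) ^ k) + 1 ≤ (A * Q) ^ (k + 2) := by
    have h7 : k * (2 * c₀ * Q) + 1 ≤ (2 * k * c₀ + 1) * Q := by nlinarith
    have h8 : (k * (2 * c₀ * Q) + 1) * (Q * (k * (2 * c₀ * Q) + 1) ^ k) + 1 ≤
        Q * ((2 * k * c₀ + 1) * Q) ^ (k + 1) + 1 := by
      have e1 : (k * (2 * c₀ * Q) + 1) * (Q * (k * (2 * c₀ * Q) + 1) ^ k) =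
          Q * (k * (2 * c₀ * Q) + 1) ^ (k + 1) := by ring
      rw [e1]
      exact Nat.add_le_add_right (Nat.mul_le_mul_left _ (Nat.pow_le_pow_left h7 _)) _
    refine h8.trans ?_
    have h9 : ((2 * k * c₀ + 1) * Q) ^ (k + 1) ≤ (A * Q) ^ (k + 1) :=
      Nat.pow_le_pow_left (Nat.mul_le_mul_right _ (by omega)) _
    have h10 : 1 ≤ (A * Q) ^ (k + 1) := Nat.one_le_pow _ _ (Nat.mul_pos (by omega) hQ')
    calc Q * ((2 * k * c₀ + 1) * Q) ^ (k + 1) + 1 ≤ Q * (A * Q) ^ (k + 1) + (A * Q) ^ (k + 1) :=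
          Nat.add_le_add (Nat.mul_le_mul_left _ h9) h10
      _ = (Q + 1) * (A * Q) ^ (k + 1) := by ring
      _ ≤ (A * Q) * (A * Q) ^ (k + 1) := by
          refine Nat.mul_le_mul_right _ ?_
          have : 2 ≤ A := by omega
          nlinarith
      _ = (A * Q) ^ (k + 2) := by ring
  calc (((k * (2 * c₀ * Q) + 1) * (Q * (k * (2 * c₀ * Q) + 1) ^ k) + 1) ^ (k + 1)) ^ n
      ≤ (((A * Q) ^ (k + 2)) ^ (k + 1)) ^ n :=
        Nat.pow_le_pow_left (Nat.pow_le_pow_left h6 _) _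
    _ = (A * Q) ^ E := by
        rw [← pow_mul, ← pow_mul, hE, mul_assoc]

theorem mono_bohr {ι : Type} [Fintype ι] (A : Set ℕ)
    (hA : ∀ f : ℕ → Fin 2, ∀ K : ℕ, ∃ a d : ℕ, 0 < a ∧ d ∈ A ∧ ∀ i < K, f (a + i * d) = f a)
    (α : ι → ℝ) (e : ι → ℕ) (he : ∀ l, 1 ≤ e l) (ε : ℝ) (hε : 0 < ε) :
    ∃ d ∈ A, ∀ l, ∃ z : ℤ, |α l * (d : ℝ) ^ (e l) - z| < ε := by
  classical
  by_contra hcon
  push Not at hcon
  -- parameters
  set k : ℕ := univ.sup e with hk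
  have hek : ∀ l, e l ≤ k := fun l => Finset.le_sup (Finset.mem_univ l)
  choose Ce hCe1 hCe using lipC
  set C₀ : ℝ := ∑ e ∈ range (k + 1), Ce e with hC₀
  have hCe0 : ∀ e, 0 ≤ Ce e := fun e => zero_le_one.trans (hCe1 e)
  have hC01 : 1 ≤ C₀ := (hCe1 0).trans (Finset.single_le_sum (fun e _ => hCe0 e)
    (Finset.mem_range.2 (Nat.succ_pos k)))
  have hC : ∀ e ≤ k, ∀ P : ℝ[X], P.natDegree ≤ e →
      (∀ i : ℕ, i ≤ e → |P.eval (i : ℝ)| ≤ 1) → ∀ s t : ℝ, 0 ≤ s → s ≤ 2 * e → 0 ≤ t →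
        t ≤ 2 * e → |P.eval t - P.eval s| ≤ C₀ * |t - s| := by
    intro e he P hP hb s t hs hs' ht ht'
    refine (hCe e P hP hb s t hs hs' ht ht').trans (mul_le_mul_of_nonneg_right ?_ (abs_nonneg _))
    exact Finset.single_le_sum (fun e _ => hCe0 e) (Finset.mem_range.2 (Nat.lt_succ_of_le he))
  set c₀ : ℕ := ⌈C₀⌉₊ with hc₀
  have hc₀1 : 1 ≤ c₀ := Nat.one_le_ceil_iff.2 (by linarith)
  obtain ⟨Q, hQ, hQbound⟩ := exists_Q k (Fintype.card ι) c₀
  haveI : NeZero Q := ⟨by omega⟩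
  set G : ℕ := 2 * c₀ * Q with hG
  have hG1 : 1 ≤ G := by
    rw [hG]
    exact Nat.mul_pos (by omega) hQ
  have hGQ : 2 * C₀ * Q ≤ G := by
    rw [hG]
    push_cast
    have : C₀ ≤ c₀ := Nat.le_ceil _
    have hQ0 : (0 : ℝ) ≤ Q := Nat.cast_nonneg _
    nlinarith
  obtain ⟨δ, hδ, hsmall⟩ := exists_small k G
  set r : ℕ := ⌈1 / δ⌉₊ with hr
  have hr0 : 0 < r := Nat.ceil_pos.2 (by positivity)
  obtain ⟨W, hW⟩ := vdw r k
  set M : ℕ := k ! * (W !) ^ k with hM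
  have hM0 : 0 < M := Nat.mul_pos (Nat.factorial_pos k) (pow_pos (Nat.factorial_pos W) k)
  have hMdvd : ∀ e ≤ k, ∀ q, 0 < q → q ≤ W → e ! * q ^ e ∣ M := by
    intro e he q hq hqW
    refine Nat.mul_dvd_mul (Nat.factorial_dvd_factorial he) ?_
    exact (pow_dvd_pow_of_dvd (Nat.dvd_factorial hq hqW) e).trans (pow_dvd_pow _ he)
  set Lb : ℕ := ⌈((k : ℝ) + 1) * (k ! * M / ε) + 1⌉₊ with hLb
  set N : ℕ := k * G + 1 with hN
  set K : ℕ := W + Lb * (k * G) * W + 1 with hK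
  -- the family of sets of cells
  let cell : ℕ → (ι → ZMod Q) := fun x l =>
    ((⌊(Q : ℝ) * (α l / M * (x : ℝ) ^ (e l))⌋ : ℤ) : ZMod Q)
  let Pf : Finset (Fin N → ZMod Q) := (Set.toFinite (pats k N Q)).toFinset
  have hPf : Pf.card ≤ (N * (Q * N ^ k) + 1) ^ (k + 1) := by
    have h1 := pats_card k N Q hQ
    rwa [Set.ncard_eq_toFinset_card _ (Set.toFinite (pats k N Q))] at h1
  let mk : (ι → Fin N → ZMod Q) → Finset (ι → ZMod Q) := fun g =>
    univ.image fun j : Fin N => fun l => g l j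
  let Ed : Finset (Finset (ι → ZMod Q)) :=
    ((Fintype.piFinset fun _ : ι => Pf).image mk).filter fun E => Q ≤ E.card
  have hEd : Ed.card < 2 ^ (Q - 1) := by
    calc Ed.card ≤ ((Fintype.piFinset fun _ : ι => Pf).image mk).card :=
          Finset.card_filter_le _ _
      _ ≤ (Fintype.piFinset fun _ : ι => Pf).card := Finset.card_image_le
      _ = Pf.card ^ (Fintype.card ι) := by
          rw [Fintype.card_piFinset, Finset.prod_const, Finset.card_univ]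
      _ ≤ ((N * (Q * N ^ k) + 1) ^ (k + 1)) ^ (Fintype.card ι) := Nat.pow_le_pow_left hPf _
      _ < 2 ^ (Q - 1) := hQbound
  obtain ⟨c, hc⟩ := propB Ed Q (fun E hE => (Finset.mem_filter.1 hE).2) hQ hEd
  -- the colouring
  obtain ⟨a, d, _, hd, hmono⟩ := hA (fun x => if c (cell x) then 1 else 0) K
  obtain ⟨l, hl⟩ := hcon d hd
  obtain ⟨j0, L, q, hj0, hq, hL, hvis⟩ := visit_all k Q G W M C₀ (by linarith) hC hG1 hQ hGQ δ hδ
    hsmall r hr0 (Nat.le_ceil _) hW hM0 hMdvd ε hε (e l) (he l) (hek l) (α l) a d hl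
  have hLLb : L ≤ Lb := by
    have : (L : ℝ) ≤ Lb := hL.trans (Nat.le_ceil _)
    exact_mod_cast this
  let g : ι → Fin N → ZMod Q := fun l' j => cell (a + (j0 + L * (j : ℕ) * q) * d) l'
  have hg : ∀ l', g l' ∈ pats k N Q := by
    intro l'
    have hlin : (C ((a + j0 * d : ℕ) : ℝ) + C ((L * q * d : ℕ) : ℝ) * X).natDegree ≤ 1 := by
      refine (natDegree_add_le _ _).trans (max_le ?_ ?_)
      · rw [natDegree_C]
        exact Nat.zero_le _
      · exact (natDegree_C_mul_le _ _).trans natDegree_X_le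
    obtain ⟨b, hb⟩ := exists_val k (C ((Q : ℝ) * (α l' / M)) *
      (C ((a + j0 * d : ℕ) : ℝ) + C ((L * q * d : ℕ) : ℝ) * X) ^ (e l')) (by
        refine (natDegree_C_mul_le _ _).trans ((natDegree_pow_le).trans ?_)
        calc e l' * (C ((a + j0 * d : ℕ) : ℝ) + C ((L * q * d : ℕ) : ℝ) * X).natDegree
            ≤ e l' * 1 := Nat.mul_le_mul_left _ hlin
          _ ≤ k := by rw [mul_one]; exact hek l')
    refine ⟨b, fun j => ?_⟩
    rw [← hb]
    simp only [g, cell, eval_mul, eval_C, eval_pow, eval_add, eval_X]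
    congr 2
    push_cast
    ring
  have hE1 : mk g ∈ Ed := by
    refine Finset.mem_filter.2 ⟨Finset.mem_image.2 ⟨g, ?_, rfl⟩, ?_⟩
    · rw [Fintype.mem_piFinset]
      intro l'
      exact (Set.Finite.mem_toFinset _).2 (hg l')
    · have h1 : (univ : Finset (ZMod Q)) ⊆ (mk g).image fun y => y l := by
        intro b _
        obtain ⟨j, hj, hjb⟩ := hvis b
        have hjN : j < N := by
          rw [hN]
          have := Nat.mul_le_mul_right G (hek l)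
          omega
        refine Finset.mem_image.2 ⟨fun l' => g l' ⟨j, hjN⟩,
          Finset.mem_image.2 ⟨⟨j, hjN⟩, Finset.mem_univ _, rfl⟩, ?_⟩
        exact hjb
      have h2 := (Finset.card_le_card h1).trans Finset.card_image_le
      rwa [Finset.card_univ, ZMod.card] at h2
  have hidx : ∀ j : Fin N, j0 + L * (j : ℕ) * q < K := by
    intro j
    have h1 : (j : ℕ) ≤ k * G := Nat.lt_succ_iff.1 j.2
    have h2 : L * (j : ℕ) * q ≤ Lb * (k * G) * W :=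
      Nat.mul_le_mul (Nat.mul_le_mul hLLb h1) hq
    omega
  obtain ⟨y1, hy1, hy1'⟩ := hc _ hE1 true
  obtain ⟨y2, hy2, hy2'⟩ := hc _ hE1 false
  obtain ⟨j1, _, hj1⟩ := Finset.mem_image.1 hy1
  obtain ⟨j2, _, hj2⟩ := Finset.mem_image.1 hy2
  have h1 := hmono _ (hidx j1)
  have h2 := hmono _ (hidx j2)
  have e1 : cell (a + (j0 + L * (j1 : ℕ) * q) * d) = y1 := hj1
  have e2 : cell (a + (j0 + L * (j2 : ℕ) * q) * d) = y2 := hj2
  simp only [e1, hy1', if_true] at h1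
  simp only [e2, hy2'] at h2
  rw [← h1] at h2
  revert h2
  simp

theorem poly_bohr (A : Set ℕ)
    (hA : ∀ f : ℕ → Fin 2, ∀ K : ℕ, ∃ a d : ℕ, 0 < a ∧ d ∈ A ∧ ∀ i < K, f (a + i * d) = f a)
    (n : ℕ) (p : Fin n → ℝ[X]) (hp : ∀ i, (p i).eval 0 = 0) (ε : ℝ) (hε : 0 < ε) :
    ∃ d ∈ A, ∀ i, |(p i).eval (d : ℝ) - round ((p i).eval (d : ℝ))| < ε := by
  classical
  set B : ℕ := univ.sup fun i => (p i).natDegree with hB
  have hBi : ∀ i, (p i).natDegree ≤ B := fun i => Finset.le_sup (f := fun i => (p i).natDegree)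
    (Finset.mem_univ i)
  have hB1 : (0 : ℝ) < (B : ℝ) + 1 := by positivity
  obtain ⟨d, hd, hd'⟩ := mono_bohr (ι := Fin n × Fin B) A hA (fun x => (p x.1).coeff (x.2 + 1))
    (fun x => x.2 + 1) (fun x => Nat.succ_pos _) (ε / (B + 1)) (by positivity)
  refine ⟨d, hd, fun i => ?_⟩
  choose z hz using hd'
  refine lt_of_le_of_lt (round_le _ (∑ m : Fin B, z (i, m))) ?_
  have h1 : (p i).eval (d : ℝ) = ∑ m : Fin B, (p i).coeff (m + 1) * (d : ℝ) ^ ((m : ℕ) + 1) := by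
    rw [Polynomial.eval_eq_sum_range' (lt_of_le_of_lt (hBi i) (Nat.lt_succ_self B)),
      Finset.sum_range_succ', pow_zero, mul_one]
    have h2 : (p i).coeff 0 = 0 := by
      rw [Polynomial.coeff_zero_eq_eval_zero, hp]
    rw [h2, add_zero, ← Fin.sum_univ_eq_sum_range
      (fun m => (p i).coeff (m + 1) * (d : ℝ) ^ (m + 1)) B]
  rw [h1]
  push_cast
  rw [← Finset.sum_sub_distrib]
  calc |∑ m : Fin B, ((p i).coeff (m + 1) * (d : ℝ) ^ ((m : ℕ) + 1) - z (i, m))|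
      ≤ ∑ m : Fin B, |(p i).coeff (m + 1) * (d : ℝ) ^ ((m : ℕ) + 1) - z (i, m)| :=
        Finset.abs_sum_le_sum_abs _ _
    _ ≤ ∑ _m : Fin B, ε / (B + 1) := Finset.sum_le_sum fun m _ => (hz (i, m)).le
    _ = B * (ε / (B + 1)) := by
        rw [Finset.sum_const, Finset.card_univ, Fintype.card_fin, nsmul_eq_mul]
    _ < ε := by
        rw [mul_div_assoc', div_lt_iff₀ hB1]
        nlinarith

end Pool.Agent.H65.TL
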