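import Pool.Agent.H65.TL.C

/-!
# General counting lemma (Sauer-Shelah for finite dimensional spaces of functions)
and polynomially bounded functions
-/

set_option autoImplicit false

open Finset Polynomial
open scoped Nat

namespace Pool.Agent.H65.TL

section vc
variable {X : Type} [Fintype X] [DecidableEq X] {I : Type} [Fintype I]

/-- the sets `{x : t x ≤ ∑ c_m w_m(x)}` -/
noncomputable def vfam (w : I → X → ℝ) (t : X → ℝ) : Finset (Finset X) := by
  classical
  exact univ.filter fun S => ∃ c : I → ℝ, ∀ p, p ∈ S ↔ t p ≤ ∑ m, c m * w m p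

theorem mem_vfam (w : I → X → ℝ) (t : X → ℝ) (S : Finset X) : S ∈ vfam w t ↔
    ∃ c : I → ℝ, ∀ p, p ∈ S ↔ t p ≤ ∑ m, c m * w m p := by
  classical
  rw [vfam, Finset.mem_filter]
  exact ⟨fun h => h.2, fun h => ⟨Finset.mem_univ _, h⟩⟩

theorem vfam_shatters (w : I → X → ℝ) (t : X → ℝ) (m0 : I) (hm0 : ∀ p, w m0 p = 1)
    (T : Finset X) (hT : (vfam w t).Shatters T) : T.card ≤ Fintype.card I := by
  classical
  by_contra hcon
  push Not at hcon
  let L : (T → ℝ) →ₗ[ℝ] (I → ℝ) :=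
    { toFun := fun l m => ∑ p : T, l p * w m p
      map_add' := by
        intro l l'
        funext m
        simp only [Pi.add_apply, add_mul, Finset.sum_add_distrib]
      map_smul' := by
        intro a l
        funext m
        simp only [Pi.smul_apply, smul_eq_mul, RingHom.id_apply, Finset.mul_sum, mul_assoc] }
  have hL : LinearMap.ker L ≠ ⊥ := by
    apply LinearMap.ker_ne_bot_of_finrank_lt
    rw [Module.finrank_fintype_fun_eq_card, Module.finrank_fintype_fun_eq_card,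
      Fintype.card_coe]
    exact hcon
  obtain ⟨l0, hl0, hl0'⟩ := (Submodule.ne_bot_iff _).1 hL
  have key : ∃ l : T → ℝ, l ≠ 0 ∧ L l = 0 ∧ 0 ≤ ∑ p : T, l p * t p := by
    rcases le_total 0 (∑ p : T, l0 p * t p) with h | h
    · exact ⟨l0, hl0', LinearMap.mem_ker.1 hl0, h⟩
    · refine ⟨-l0, neg_ne_zero.2 hl0', ?_, ?_⟩
      · rw [map_neg, LinearMap.mem_ker.1 hl0, neg_zero]
      · simp only [Pi.neg_apply, neg_mul, Finset.sum_neg_distrib]
        linarith
  obtain ⟨l, hl, hL0, hz⟩ := key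
  obtain ⟨S, hS, hST⟩ := hT (t := T.filter fun p => ∃ h : p ∈ T, 0 < l ⟨p, h⟩)
    (Finset.filter_subset _ _)
  obtain ⟨c, hc⟩ := (mem_vfam w t S).1 hS
  have hmem : ∀ p : T, (p : X) ∈ S ↔ 0 < l p := by
    intro p
    have h1 : (p : X) ∈ T ∩ S ↔ (p : X) ∈ S := by
      rw [Finset.mem_inter]
      exact ⟨fun h => h.2, fun h => ⟨p.2, h⟩⟩
    rw [← h1, hST, Finset.mem_filter]
    constructor
    · rintro ⟨_, h, h'⟩
      exact h'
    · intro h
      exact ⟨p.2, p.2, h⟩
  have hsum : ∑ p : T, l p * (∑ m, c m * w m p) = 0 := by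
    have h1 : ∀ p : T, l p * (∑ m, c m * w m p) = ∑ m, c m * (l p * w m p) := by
      intro p
      rw [Finset.mul_sum]
      refine Finset.sum_congr rfl fun m _ => ?_
      ring
    rw [Finset.sum_congr rfl fun p _ => h1 p, Finset.sum_comm]
    refine Finset.sum_eq_zero fun m _ => ?_
    rw [← Finset.mul_sum]
    have h3 : ∑ p : T, l p * w m p = 0 := congrFun hL0 m
    rw [h3, mul_zero]
  have hterm : ∀ p : T, 0 ≤ l p * ((∑ m, c m * w m p) - t p) := by
    intro p
    by_cases h : 0 < l p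
    · have h1 := (hc p).1 ((hmem p).2 h)
      exact mul_nonneg h.le (by linarith)
    · have h1 : ¬ (t p ≤ ∑ m, c m * w m p) := fun h2 => h ((hmem p).1 ((hc p).2 h2))
      push Not at h1 h
      exact mul_nonneg_of_nonpos_of_nonpos h (by linarith)
  have htot : ∑ p : T, l p * ((∑ m, c m * w m p) - t p) ≤ 0 := by
    simp only [mul_sub, Finset.sum_sub_distrib]
    rw [hsum]
    linarith
  have hzero := (Finset.sum_eq_zero_iff_of_nonneg (fun p _ => hterm p)).1
    (le_antisymm htot (Finset.sum_nonneg fun p _ => hterm p))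
  have hnn : ∀ p : T, 0 ≤ l p := by
    intro p
    by_contra h
    push Not at h
    have h1 : ¬ (t p ≤ ∑ m, c m * w m p) :=
      fun h2 => absurd ((hmem p).1 ((hc p).2 h2)) (not_lt.2 h.le)
    push Not at h1
    have h2 := hzero p (Finset.mem_univ _)
    have h3 : 0 < l p * ((∑ m, c m * w m p) - t p) := mul_pos_of_neg_of_neg h (by linarith)
    linarith
  have h0 : ∑ p : T, l p = 0 := by
    have h3 : ∑ p : T, l p * w m0 p = 0 := congrFun hL0 m0
    simpa [hm0] using h3
  apply hl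
  funext p
  exact (Finset.sum_eq_zero_iff_of_nonneg (fun p _ => hnn p)).1 h0 p (Finset.mem_univ _)

theorem vfam_card (w : I → X → ℝ) (t : X → ℝ) (m0 : I) (hm0 : ∀ p, w m0 p = 1) :
    (vfam w t).card ≤ (Fintype.card X + 1) ^ (Fintype.card I) := by
  classical
  have h1 : (vfam w t).vcDim ≤ Fintype.card I := by
    unfold Finset.vcDim
    refine Finset.sup_le fun T hT => ?_
    exact vfam_shatters w t m0 hm0 T (Finset.mem_shatterer.1 hT)
  calc (vfam w t).card ≤ (vfam w t).shatterer.card := Finset.card_le_card_shatterer _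
    _ ≤ ∑ i ∈ Iic (vfam w t).vcDim, (Fintype.card X).choose i :=
        Finset.card_shatterer_le_sum_vcDim
    _ ≤ ∑ i ∈ range (Fintype.card I + 1), (Fintype.card X).choose i := by
        refine Finset.sum_le_sum_of_subset fun i hi => ?_
        have := Finset.mem_Iic.1 hi
        exact Finset.mem_range.2 (by omega)
    _ ≤ (Fintype.card X + 1) ^ (Fintype.card I) := sum_choose_le _ _

end vc

/-- the number of functions `j ↦ ⌊∑ c_m w_m(j) + s⌋` bounded by `V` -/
theorem floor_count {N : ℕ} {I : Type} [Fintype I] (w : I → Fin N → ℝ) (m0 : I)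
    (hm0 : ∀ p, w m0 p = 1) (V : ℕ) (s : ℝ) :
    {f : Fin N → ℤ | ∃ c : I → ℝ, ∀ j, -(V : ℤ) ≤ f j ∧ f j ≤ V ∧
      f j = ⌊(∑ m, c m * w m j) + s⌋}.Finite ∧
    {f : Fin N → ℤ | ∃ c : I → ℝ, ∀ j, -(V : ℤ) ≤ f j ∧ f j ≤ V ∧
      f j = ⌊(∑ m, c m * w m j) + s⌋}.ncard ≤ (N * (2 * V) + 1) ^ (Fintype.card I) := by
  classical
  set F := {f : Fin N → ℤ | ∃ c : I → ℝ, ∀ j, -(V : ℤ) ≤ f j ∧ f j ≤ V ∧
      f j = ⌊(∑ m, c m * w m j) + s⌋} with hF
  let X := Fin N × Fin (2 * V)
  let w' : I → X → ℝ := fun m p => w m p.1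
  let t : X → ℝ := fun p => ((p.2 : ℕ) : ℝ) + 1 - V - s
  let Φ : Finset X → (Fin N → ℤ) := fun S j =>
    (((univ.filter fun z : Fin (2 * V) => (j, z) ∈ S).card : ℕ) : ℤ) - V
  have h1 : F ⊆ (((vfam w' t).image Φ : Finset (Fin N → ℤ)) : Set (Fin N → ℤ)) := by
    rintro f ⟨c, hc⟩
    refine Finset.mem_coe.2 (Finset.mem_image.2
      ⟨univ.filter fun p : X => t p ≤ ∑ m, c m * w' m p, ?_, ?_⟩)
    · exact (mem_vfam _ _ _).2 ⟨c, fun p => by
        rw [Finset.mem_filter]
        exact ⟨fun h => h.2, fun h => ⟨Finset.mem_univ _, h⟩⟩⟩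
    · funext j
      obtain ⟨hj1, hj2, hj3⟩ := hc j
      obtain ⟨u, hu⟩ := Int.eq_ofNat_of_zero_le (show 0 ≤ f j + V by omega)
      have hcard : (univ.filter fun z : Fin (2 * V) => (j, z) ∈
          (univ.filter fun p : X => t p ≤ ∑ m, c m * w' m p)).card = u := by
        have e1 : (univ.filter fun z : Fin (2 * V) => (j, z) ∈
            (univ.filter fun p : X => t p ≤ ∑ m, c m * w' m p)) =
            univ.filter fun z : Fin (2 * V) => (z : ℕ) < u := by
          ext z
          simp only [Finset.mem_filter, Finset.mem_univ, true_and]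
          have e3 : (((z : ℕ) : ℤ) + 1 - V ≤ f j) ↔ t (j, z) ≤ ∑ m, c m * w' m (j, z) := by
            rw [hj3, Int.le_floor]
            simp only [t, w']
            push_cast
            constructor
            · intro h
              linarith
            · intro h
              linarith
          rw [← e3]
          omega
        rw [e1, Fin.card_filter_val_lt]
        exact min_eq_right (by omega)
      simp only [Φ]
      rw [hcard]
      omega
  refine ⟨(Finset.finite_toSet _).subset h1, ?_⟩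
  calc F.ncard ≤ ((((vfam w' t).image Φ : Finset (Fin N → ℤ)) : Set (Fin N → ℤ))).ncard :=
        Set.ncard_le_ncard h1 (Finset.finite_toSet _)
    _ = ((vfam w' t).image Φ).card := Set.ncard_coe_finset _
    _ ≤ (vfam w' t).card := Finset.card_image_le
    _ ≤ (Fintype.card X + 1) ^ (Fintype.card I) := vfam_card w' t m0 (fun p => hm0 p.1)
    _ = (N * (2 * V) + 1) ^ (Fintype.card I) := by
        rw [Fintype.card_prod, Fintype.card_fin, Fintype.card_fin]

/-! ### polynomially bounded functions -/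

/-- `f Q ≤ C Q^E` for all `Q ≥ 1` -/
def PB (f : ℕ → ℕ) : Prop := ∃ C E : ℕ, ∀ Q : ℕ, 0 < Q → f Q ≤ C * Q ^ E

theorem PB.const (c : ℕ) : PB fun _ => c := ⟨c, 0, fun Q _ => by rw [pow_zero, mul_one]⟩

theorem PB.id : PB fun Q => Q := ⟨1, 1, fun Q _ => by rw [pow_one, one_mul]⟩

theorem PB.mono {f g : ℕ → ℕ} (hg : PB g) (h : ∀ Q, 0 < Q → f Q ≤ g Q) : PB f := by
  obtain ⟨C, E, hC⟩ := hg
  exact ⟨C, E, fun Q hQ => (h Q hQ).trans (hC Q hQ)⟩

theorem PB.add {f g : ℕ → ℕ} (hf : PB f) (hg : PB g) : PB fun Q => f Q + g Q := by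
  obtain ⟨C, E, hC⟩ := hf
  obtain ⟨C', E', hC'⟩ := hg
  refine ⟨C + C', max E E', fun Q hQ => ?_⟩
  rw [add_mul]
  refine Nat.add_le_add ((hC Q hQ).trans ?_) ((hC' Q hQ).trans ?_)
  · exact Nat.mul_le_mul_left _ (Nat.pow_le_pow_right hQ (le_max_left _ _))
  · exact Nat.mul_le_mul_left _ (Nat.pow_le_pow_right hQ (le_max_right _ _))

theorem PB.mul {f g : ℕ → ℕ} (hf : PB f) (hg : PB g) : PB fun Q => f Q * g Q := by
  obtain ⟨C, E, hC⟩ := hf
  obtain ⟨C', E', hC'⟩ := hg
  refine ⟨C * C', E + E', fun Q hQ => ?_⟩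
  calc f Q * g Q ≤ (C * Q ^ E) * (C' * Q ^ E') := Nat.mul_le_mul (hC Q hQ) (hC' Q hQ)
    _ = C * C' * Q ^ (E + E') := by ring

theorem PB.pow {f : ℕ → ℕ} (hf : PB f) (n : ℕ) : PB fun Q => f Q ^ n := by
  induction n with
  | zero => exact (PB.const 1).mono fun Q _ => by rw [pow_zero]
  | succ n ih => exact (ih.mul hf).mono fun Q _ => by rw [pow_succ]

theorem PB.prod {ι : Type} (s : Finset ι) (f : ι → ℕ → ℕ) (hf : ∀ i ∈ s, PB (f i)) :
    PB fun Q => ∏ i ∈ s, f i Q := by
  classical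
  induction s using Finset.induction_on with
  | empty => exact (PB.const 1).mono fun Q _ => by rw [Finset.prod_empty]
  | insert a s ha ih =>
    refine ((hf a (Finset.mem_insert_self a s)).mul
      (ih fun i hi => hf i (Finset.mem_insert_of_mem hi))).mono fun Q _ => ?_
    rw [Finset.prod_insert ha]

/-- a polynomially bounded function is eventually below `2^(Q-1)` -/
theorem PB.exists_lt {f : ℕ → ℕ} (hf : PB f) : ∃ Q : ℕ, 0 < Q ∧ f Q < 2 ^ (Q - 1) := by
  obtain ⟨C, E, hC⟩ := hf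
  have h1 := tendsto_pow_const_div_const_pow_of_one_lt E (r := (2 : ℝ)) (by norm_num)
  have h2 : (0 : ℝ) < 1 / (2 * ((C : ℝ) + 1)) := by positivity
  obtain ⟨Q, hQ, hQ'⟩ := ((h1.eventually (gt_mem_nhds h2)).and
    (Filter.eventually_ge_atTop 1)).exists
  refine ⟨Q, hQ', lt_of_le_of_lt (hC Q hQ') ?_⟩
  rw [div_lt_div_iff₀ (by positivity) (by positivity), one_mul] at hQ
  have h4 : (2 : ℝ) ^ Q = 2 * 2 ^ (Q - 1) := by
    rw [← pow_succ']
    congr 1
    omega
  rw [h4] at hQ
  have h5 : (C : ℝ) * (Q : ℝ) ^ E < 2 ^ (Q - 1) := by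
    have h6 : (0 : ℝ) < (Q : ℝ) ^ E := by
      have : (0 : ℝ) < Q := by exact_mod_cast hQ'
      positivity
    nlinarith
  exact_mod_cast h5

end Pool.Agent.H65.TL
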