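import Pool.Agent.H65.TL.F

/-!
# The number of patterns of bracket polynomials along arithmetic progressions
-/

set_option autoImplicit false

open Finset Polynomial
open scoped Nat

namespace Pool.Agent.H65.TL

/-- the special generalized polynomial `a₁ x^k₁ [a₂ x^k₂ [ … [aₜ x^kₜ] … ]]` -/
noncomputable def br : List (ℝ × ℕ) → ℕ → ℝ
  | [], _ => 1
  | p :: l, x => p.1 * (x : ℝ) ^ p.2 * (round (br l x) : ℝ)

/-- the degree -/
def dg (l : List (ℝ × ℕ)) : ℕ := (l.map Prod.snd).sum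

theorem dg_cons (p : ℝ × ℕ) (l : List (ℝ × ℕ)) : dg (p :: l) = p.2 + dg l := by
  rw [dg, List.map_cons, List.sum_cons]
  rfl

theorem exists_valN (k : ℕ) (p : ℝ[X]) (hp : p.natDegree ≤ k) :
    ∃ c : ℕ → ℝ, (∀ m, k < m → c m = 0) ∧ ∀ e, k ≤ e → ∀ j : ℕ,
      p.eval (j : ℝ) = ∑ m ∈ range (e + 1), c m * (j.choose m : ℝ) := by
  obtain ⟨c, hc⟩ := exists_val k p hp
  refine ⟨fun m => if h : m < k + 1 then c ⟨m, h⟩ else 0, fun m hm => ?_, fun e he j => ?_⟩
  · exact dif_neg (by omega)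
  · have h2 : ∑ m ∈ range (e + 1), (if h : m < k + 1 then c ⟨m, h⟩ else 0) * (j.choose m : ℝ) =
        ∑ m ∈ range (k + 1), (if h : m < k + 1 then c ⟨m, h⟩ else 0) * (j.choose m : ℝ) := by
      symm
      refine Finset.sum_subset (Finset.range_subset_range.2 (by omega)) fun m _ hm => ?_
      rw [Finset.mem_range] at hm
      rw [dif_neg hm, zero_mul]
    rw [hc, h2, val, ← Fin.sum_univ_eq_sum_range
      (fun m => (if h : m < k + 1 then c ⟨m, h⟩ else 0) * (j.choose m : ℝ)) (k + 1)]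
    refine Finset.sum_congr rfl fun m _ => ?_
    rw [dif_pos m.2]

theorem poly_of_val (s : ℕ) (b : ℕ → ℝ) : ∃ P : ℝ[X], P.natDegree ≤ s ∧
    ∀ j : ℕ, P.eval (j : ℝ) = ∑ m ∈ range (s + 1), b m * (j.choose m : ℝ) := by
  refine ⟨∑ m ∈ range (s + 1), C (b m / m !) * descPochhammer ℝ m, ?_, fun t => ?_⟩
  · refine Polynomial.natDegree_sum_le_of_forall_le _ _ fun m hm => ?_
    refine (Polynomial.natDegree_C_mul_le _ _).trans ?_
    rw [descPochhammer_natDegree]
    exact Nat.lt_succ_iff.1 (Finset.mem_range.1 hm)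
  · rw [Polynomial.eval_finsetSum]
    refine Finset.sum_congr rfl fun m _ => ?_
    rw [Polynomial.eval_mul, Polynomial.eval_C, descPochhammer_eval_eq_descFactorial,
      Nat.descFactorial_eq_factorial_mul_choose]
    push_cast
    have : (m ! : ℝ) ≠ 0 := Nat.cast_ne_zero.2 (Nat.factorial_ne_zero m)
    field_simp

/-- combinations -/
noncomputable def comb {L e N : ℕ} (ps : Fin L → Fin N → ℤ) (A : Fin L × Fin (e + 1) → ℝ)
    (j : Fin N) : ℝ := ∑ x, A x * (((j : ℕ).choose (x.2 : ℕ) : ℝ) * (ps x.1 j : ℝ))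

/-- the possible tuples of rounding patterns -/
def TP (e N : ℕ) : (L : ℕ) → Set (Fin (L + 1) → Fin N → ℤ)
  | 0 => {fun _ _ => 1}
  | L + 1 => {q | ∃ ps ∈ TP e N L, ∃ A : Fin (L + 1) × Fin (e + 1) → ℝ,
      (∀ x, 0 ≤ A x ∧ A x < 1) ∧ q = Fin.cons (fun j => round (comb ps A j)) ps}

/-- bound for the values -/
def VB (e N : ℕ) : ℕ → ℕ
  | 0 => 1
  | L + 1 => (L + 1) * (e + 1) * (N ^ e * VB e N L) + 1

/-- bound for the number of tuples -/
def TC (e N : ℕ) : ℕ → ℕ
  | 0 => 1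
  | L + 1 => TC e N L * (N * (2 * VB e N (L + 1)) + 1) ^ ((L + 1) * (e + 1))

theorem comb_bound {L e N : ℕ} (ps : Fin L → Fin N → ℤ) (A : Fin L × Fin (e + 1) → ℝ)
    (hA : ∀ x, 0 ≤ A x ∧ A x < 1) (V : ℕ) (hV : ∀ l j, |ps l j| ≤ (V : ℤ)) (j : Fin N) :
    |comb ps A j| ≤ ((L * (e + 1) * (N ^ e * V) : ℕ) : ℝ) := by
  calc |comb ps A j| ≤ ∑ x, |A x * (((j : ℕ).choose (x.2 : ℕ) : ℝ) * (ps x.1 j : ℝ))| :=
        Finset.abs_sum_le_sum_abs _ _
    _ ≤ ∑ _x : Fin L × Fin (e + 1), ((N ^ e * V : ℕ) : ℝ) := by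
        refine Finset.sum_le_sum fun x _ => ?_
        rw [abs_mul, abs_mul]
        have h1 : |A x| ≤ 1 := by
          rw [abs_of_nonneg (hA x).1]
          exact (hA x).2.le
        have h2 : |((j : ℕ).choose (x.2 : ℕ) : ℝ)| ≤ ((N ^ e : ℕ) : ℝ) := by
          rw [abs_of_nonneg (Nat.cast_nonneg _)]
          have hN : 0 < N := lt_of_le_of_lt (Nat.zero_le _) j.2
          have e1 : (j : ℕ).choose (x.2 : ℕ) ≤ N ^ e := by
            calc (j : ℕ).choose (x.2 : ℕ) ≤ (j : ℕ) ^ (x.2 : ℕ) := Nat.choose_le_pow _ _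
              _ ≤ N ^ (x.2 : ℕ) := Nat.pow_le_pow_left j.2.le _
              _ ≤ N ^ e := Nat.pow_le_pow_right hN (Nat.lt_succ_iff.1 x.2.2)
          exact_mod_cast e1
        have h3 : |(ps x.1 j : ℝ)| ≤ (V : ℝ) := by
          have := hV x.1 j
          exact_mod_cast this
        calc |A x| * (|((j : ℕ).choose (x.2 : ℕ) : ℝ)| * |(ps x.1 j : ℝ)|)
            ≤ 1 * (((N ^ e : ℕ) : ℝ) * (V : ℝ)) :=
              mul_le_mul h1 (mul_le_mul h2 h3 (abs_nonneg _) (Nat.cast_nonneg _))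
                (mul_nonneg (abs_nonneg _) (abs_nonneg _)) zero_le_one
          _ = ((N ^ e * V : ℕ) : ℝ) := by
              push_cast
              ring
    _ = ((L * (e + 1) * (N ^ e * V) : ℕ) : ℝ) := by
        rw [Finset.sum_const, Finset.card_univ, Fintype.card_prod, Fintype.card_fin,
          Fintype.card_fin, nsmul_eq_mul]
        push_cast
        ring

theorem TP_one {e N : ℕ} (L : ℕ) (ps : Fin (L + 1) → Fin N → ℤ) (h : ps ∈ TP e N L) :
    ∃ l0, ∀ j, ps l0 j = 1 := by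
  induction L with
  | zero =>
    have h' : ps = fun _ _ => 1 := h
    exact ⟨0, fun j => by rw [h']⟩
  | succ L ih =>
    obtain ⟨ps', hps', A, _, rfl⟩ := h
    obtain ⟨l0, hl0⟩ := ih ps' hps'
    exact ⟨l0.succ, fun j => by rw [Fin.cons_succ, hl0]⟩

theorem TP_bound {e N : ℕ} (L : ℕ) (ps : Fin (L + 1) → Fin N → ℤ) (h : ps ∈ TP e N L) :
    ∀ (l : Fin (L + 1)) (j : Fin N), |ps l j| ≤ (VB e N L : ℤ) := by
  induction L with
  | zero =>
    intro l j
    have h' : ps = fun _ _ => 1 := h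
    rw [h']
    simp [VB]
  | succ L ih =>
    intro l j
    obtain ⟨ps', hps', A, hA, rfl⟩ := h
    refine Fin.cases ?_ (fun l' => ?_) l
    · rw [Fin.cons_zero]
      have h1 := comb_bound ps' A hA (VB e N L) (ih ps' hps') j
      have h2 := abs_sub_round (comb ps' A j)
      have h3 : |(round (comb ps' A j) : ℝ)| ≤
          (((L + 1) * (e + 1) * (N ^ e * VB e N L) : ℕ) : ℝ) + 1 := by
        have e1 := abs_le.1 h1
        have e2 := abs_le.1 h2
        rw [abs_le]
        constructor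
        · linarith [e1.1, e2.2]
        · linarith [e1.2, e2.1]
      have h4 : (VB e N (L + 1) : ℤ) = ((L + 1) * (e + 1) * (N ^ e * VB e N L) : ℕ) + 1 := by
        rw [VB]
        push_cast
        ring
      rw [h4]
      exact_mod_cast h3
    · rw [Fin.cons_succ]
      refine (ih ps' hps' l' j).trans ?_
      have hN : 0 < N := lt_of_le_of_lt (Nat.zero_le _) j.2
      have h1 : VB e N L ≤ VB e N (L + 1) := by
        rw [VB]
        have h2 : VB e N L ≤ (L + 1) * (e + 1) * (N ^ e * VB e N L) := by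
          rw [← mul_assoc]
          exact Nat.le_mul_of_pos_left _ (by positivity)
        omega
      exact_mod_cast h1

theorem ncard_pairs {α β γ : Type} (S : Set α) (hS : S.Finite) (F : α → Set β) (B : ℕ)
    (hF : ∀ a ∈ S, (F a).Finite ∧ (F a).ncard ≤ B) (g : α → β → γ) (R : Set γ)
    (hR : ∀ q ∈ R, ∃ a ∈ S, ∃ b ∈ F a, g a b = q) : R.Finite ∧ R.ncard ≤ S.ncard * B := by
  classical
  let F' : α → Finset β := fun a => if h : a ∈ S then (hF a h).1.toFinset else ∅
  let U : Finset γ := hS.toFinset.biUnion fun a => (F' a).image (g a)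
  have h1 : R ⊆ (U : Set γ) := by
    intro q hq
    obtain ⟨a, ha, b, hb, hab⟩ := hR q hq
    refine Finset.mem_coe.2 (Finset.mem_biUnion.2 ⟨a, (Set.Finite.mem_toFinset hS).2 ha,
      Finset.mem_image.2 ⟨b, ?_, hab⟩⟩)
    simp only [F']
    rw [dif_pos ha]
    exact (Set.Finite.mem_toFinset _).2 hb
  refine ⟨(Finset.finite_toSet U).subset h1, ?_⟩
  calc R.ncard ≤ (U : Set γ).ncard := Set.ncard_le_ncard h1 (Finset.finite_toSet _)
    _ = U.card := Set.ncard_coe_finset _
    _ ≤ ∑ a ∈ hS.toFinset, ((F' a).image (g a)).card := Finset.card_biUnion_le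
    _ ≤ ∑ _a ∈ hS.toFinset, B := by
        refine Finset.sum_le_sum fun a ha => Finset.card_image_le.trans ?_
        have ha' := (Set.Finite.mem_toFinset hS).1 ha
        simp only [F']
        rw [dif_pos ha']
        have := (hF a ha').2
        rwa [Set.ncard_eq_toFinset_card _ (hF a ha').1] at this
    _ = S.ncard * B := by
        rw [Finset.sum_const, smul_eq_mul, Set.ncard_eq_toFinset_card _ hS]

theorem TP_count (e N L : ℕ) : (TP e N L).Finite ∧ (TP e N L).ncard ≤ TC e N L := by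
  induction L with
  | zero =>
    have h : TP e N 0 = {fun _ _ => 1} := rfl
    rw [h]
    exact ⟨Set.finite_singleton _, by rw [Set.ncard_singleton]; exact le_refl _⟩
  | succ L ih =>
    let F : (Fin (L + 1) → Fin N → ℤ) → Set (Fin N → ℤ) := fun ps =>
      {f : Fin N → ℤ | ∃ c : Fin (L + 1) × Fin (e + 1) → ℝ, ∀ j,
        -(VB e N (L + 1) : ℤ) ≤ f j ∧ f j ≤ VB e N (L + 1) ∧
        f j = ⌊(∑ m, c m * (((j : ℕ).choose (m.2 : ℕ) : ℝ) * (ps m.1 j : ℝ))) + 1 / 2⌋}
    have h1 := ncard_pairs (TP e N L) ih.1 F ((N * (2 * VB e N (L + 1)) + 1) ^ ((L + 1) * (e + 1)))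
      (fun ps hps => by
        obtain ⟨l0, hl0⟩ := TP_one L ps hps
        have h2 := floor_count (N := N) (I := Fin (L + 1) × Fin (e + 1))
          (fun m j => ((j : ℕ).choose (m.2 : ℕ) : ℝ) * (ps m.1 j : ℝ)) (l0, 0)
          (fun j => by
            simp only [hl0]
            simp) (VB e N (L + 1)) (1 / 2)
        rw [Fintype.card_prod, Fintype.card_fin, Fintype.card_fin] at h2
        exact h2)
      (fun ps π => (Fin.cons π ps : Fin (L + 1 + 1) → Fin N → ℤ)) (TP e N (L + 1)) (by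
        rintro q hq
        have hq' := hq
        obtain ⟨ps, hps, A, hA, rfl⟩ := hq
        refine ⟨ps, hps, fun j => round (comb ps A j), ⟨A, fun j => ?_⟩, rfl⟩
        have h3 := abs_le.1 (TP_bound (L + 1) _ hq' 0 j)
        rw [Fin.cons_zero] at h3
        refine ⟨h3.1, h3.2, ?_⟩
        change round (comb ps A j) = _
        rw [round_eq]
        rfl)
    refine ⟨h1.1, h1.2.trans ?_⟩
    rw [TC]
    exact Nat.mul_le_mul_right _ ih.2

/-- splitting of a combination of polynomials into an integer part and a fractional part -/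
theorem split_comb {e N L s : ℕ} (hs : s ≤ e) (ps : Fin L → Fin N → ℤ) (p : Fin L → ℝ[X])
    (hp : ∀ l, (p l).natDegree ≤ s) : ∃ (A : Fin L × Fin (e + 1) → ℝ) (b : Fin L → ℕ → ℤ),
      (∀ x, 0 ≤ A x ∧ A x < 1) ∧ ∀ j : Fin N, ∑ l, (p l).eval ((j : ℕ) : ℝ) * (ps l j : ℝ) =
        ((∑ l, (∑ m ∈ range (s + 1), b l m * ((j : ℕ).choose m : ℤ)) * ps l j : ℤ) : ℝ) +
          comb ps A j := by
  choose c hc0 hc using fun l => exists_valN s (p l) (hp l)
  refine ⟨fun x => Int.fract (c x.1 x.2), fun l m => ⌊c l m⌋,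
    fun x => ⟨Int.fract_nonneg _, Int.fract_lt_one _⟩, fun j => ?_⟩
  rw [comb, Fintype.sum_prod_type]
  push_cast
  rw [← Finset.sum_add_distrib]
  refine Finset.sum_congr rfl fun l _ => ?_
  rw [hc l e hs j]
  have h1 : ∑ m ∈ range (s + 1), (⌊c l m⌋ : ℝ) * ((j : ℕ).choose m : ℝ) =
      ∑ m ∈ range (e + 1), (⌊c l m⌋ : ℝ) * ((j : ℕ).choose m : ℝ) := by
    refine Finset.sum_subset (Finset.range_subset_range.2 (by omega)) fun m _ hm => ?_
    rw [Finset.mem_range] at hm
    rw [hc0 l m (by omega), Int.floor_zero, Int.cast_zero, zero_mul]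
  rw [h1, Fin.sum_univ_eq_sum_range (fun m => Int.fract (c l m) *
    (((j : ℕ).choose m : ℝ) * (ps l j : ℝ))) (e + 1), Finset.sum_mul, Finset.sum_mul,
    ← Finset.sum_add_distrib]
  refine Finset.sum_congr rfl fun m _ => ?_
  have h2 := Int.floor_add_fract (c l m)
  conv_lhs => rw [← h2]
  ring

/-- the shape of a bracket polynomial along an arithmetic progression -/
theorem rep (e N : ℕ) (μ : List (ℝ × ℕ)) (hμ : dg μ ≤ e) (a D : ℕ) :
    ∃ ps ∈ TP e N μ.length, ∃ p : Fin (μ.length + 1) → ℝ[X], (∀ l, (p l).natDegree ≤ dg μ) ∧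
      ∀ j : Fin N, ((round (br μ (a + j * D)) : ℤ) : ℝ) =
        ∑ l, (p l).eval ((j : ℕ) : ℝ) * (ps l j : ℝ) := by
  induction μ with
  | nil =>
    refine ⟨fun _ _ => 1, rfl, fun _ => 1, fun _ => by simp, fun j => ?_⟩
    rw [br]
    simp
  | cons x ν ih =>
    have hdg := dg_cons x ν
    obtain ⟨ps, hps, p, hp, hrep⟩ := ih (by omega)
    let p' : Fin (ν.length + 1) → ℝ[X] := fun l => C x.1 * (C (a : ℝ) + C (D : ℝ) * X) ^ x.2 * p l
    have hp' : ∀ l, (p' l).natDegree ≤ dg (x :: ν) := by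
      intro l
      rw [hdg]
      refine natDegree_mul_le_of_le ((natDegree_C_mul_le _ _).trans ?_) (hp l)
      refine (natDegree_pow_le).trans ?_
      calc x.2 * (C (a : ℝ) + C (D : ℝ) * X).natDegree ≤ x.2 * 1 := by
            refine Nat.mul_le_mul_left _ ((natDegree_add_le _ _).trans (max_le ?_ ?_))
            · rw [natDegree_C]
              exact Nat.zero_le _
            · exact (natDegree_C_mul_le _ _).trans natDegree_X_le
        _ = x.2 := mul_one _
    obtain ⟨A, b, hA, hsplit⟩ := split_comb hμ ps p' hp'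
    choose P hPdeg hPeval using fun l => poly_of_val (dg (x :: ν)) (fun m => (b l m : ℝ))
    refine ⟨Fin.cons (fun j => round (comb ps A j)) ps, ⟨ps, hps, A, hA, rfl⟩,
      Fin.cons 1 P, ?_, fun j => ?_⟩
    · intro l
      refine Fin.cases ?_ (fun l' => ?_) l
      · rw [Fin.cons_zero, natDegree_one]
        exact Nat.zero_le _
      · rw [Fin.cons_succ]
        exact hPdeg l'
    · have h1 : br (x :: ν) (a + j * D) = ∑ l, (p' l).eval ((j : ℕ) : ℝ) * (ps l j : ℝ) := by
        rw [br, hrep j, Finset.mul_sum]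
        refine Finset.sum_congr rfl fun l _ => ?_
        simp only [p', eval_mul, eval_C, eval_pow, eval_add, eval_X]
        push_cast
        ring
      rw [h1, hsplit j, round_intCast_add]
      refine Eq.trans ?_ (Fin.sum_univ_succ (n := ν.length + 1) _).symm
      simp only [Fin.cons_zero, Fin.cons_succ, eval_one, hPeval]
      push_cast
      ring

/-- the patterns of a coordinate -/
def PatC (e N Q L : ℕ) : Set (Fin N → ZMod Q) :=
  {f | ∃ ps ∈ TP e N L, ∃ A : Fin (L + 1) × Fin (e + 1) → ℝ, (∀ x, 0 ≤ A x ∧ A x < 1) ∧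
    ∀ j, f j = ((⌊(Q : ℝ) * comb ps A j⌋ : ℤ) : ZMod Q)}

theorem PatC_count (e N Q L : ℕ) : (PatC e N Q L).Finite ∧ (PatC e N Q L).ncard ≤
    TC e N L * (N * (2 * (Q * VB e N (L + 1))) + 1) ^ ((L + 1) * (e + 1)) := by
  let F : (Fin (L + 1) → Fin N → ℤ) → Set (Fin N → ℤ) := fun ps =>
    {f : Fin N → ℤ | ∃ c : Fin (L + 1) × Fin (e + 1) → ℝ, ∀ j,
      -((Q * VB e N (L + 1) : ℕ) : ℤ) ≤ f j ∧ f j ≤ ((Q * VB e N (L + 1) : ℕ) : ℤ) ∧
      f j = ⌊(∑ m, c m * (((j : ℕ).choose (m.2 : ℕ) : ℝ) * (ps m.1 j : ℝ))) + 0⌋}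
  have h1 := ncard_pairs (TP e N L) (TP_count e N L).1 F
    ((N * (2 * (Q * VB e N (L + 1))) + 1) ^ ((L + 1) * (e + 1)))
    (fun ps hps => by
      obtain ⟨l0, hl0⟩ := TP_one L ps hps
      have h2 := floor_count (N := N) (I := Fin (L + 1) × Fin (e + 1))
        (fun m j => ((j : ℕ).choose (m.2 : ℕ) : ℝ) * (ps m.1 j : ℝ)) (l0, 0)
        (fun j => by
          simp only [hl0]
          simp) (Q * VB e N (L + 1)) 0
      rw [Fintype.card_prod, Fintype.card_fin, Fintype.card_fin] at h2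
      exact h2)
    (fun _ π => (fun j => ((π j : ℤ) : ZMod Q))) (PatC e N Q L) (by
      rintro q ⟨ps, hps, A, hA, hq⟩
      refine ⟨ps, hps, fun j => ⌊(Q : ℝ) * comb ps A j⌋, ⟨fun x => Q * A x, fun j => ?_⟩, ?_⟩
      · have h3 := comb_bound ps A hA (VB e N L) (TP_bound L ps hps) j
        have h4 : |comb ps A j| ≤ (VB e N (L + 1) : ℝ) := by
          refine h3.trans ?_
          rw [VB]
          push_cast
          linarith
        have h5 : |(Q : ℝ) * comb ps A j| ≤ ((Q * VB e N (L + 1) : ℕ) : ℝ) := by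
          rw [abs_mul, abs_of_nonneg (Nat.cast_nonneg Q)]
          push_cast
          exact mul_le_mul_of_nonneg_left h4 (Nat.cast_nonneg _)
        have h6 := abs_le.1 h5
        refine ⟨?_, ?_, ?_⟩
        · rw [Int.le_floor]
          push_cast at h6 ⊢
          exact h6.1
        · have h7 : ((⌊(Q : ℝ) * comb ps A j⌋ : ℤ) : ℝ) ≤ ((Q * VB e N (L + 1) : ℕ) : ℝ) :=
            (Int.floor_le _).trans h6.2
          exact_mod_cast h7
        · simp only
          congr 1
          rw [add_zero, comb, Finset.mul_sum]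
          refine Finset.sum_congr rfl fun x _ => ?_
          ring
      · funext j
        exact (hq j).symm)
  exact ⟨h1.1, h1.2.trans (Nat.mul_le_mul_right _ (TP_count e N L).2)⟩

/-- the pattern of a coordinate along an arithmetic progression -/
theorem pattern_mem (e N Q : ℕ) (x : ℝ × ℕ) (ν : List (ℝ × ℕ)) (hμ : dg (x :: ν) ≤ e)
    (γ : ℝ) (a D : ℕ) : (fun j : Fin N => ((⌊(Q : ℝ) * (γ * br (x :: ν) (a + j * D))⌋ : ℤ) :
      ZMod Q)) ∈ PatC e N Q ν.length := by
  have hdg := dg_cons x ν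
  obtain ⟨ps, hps, p, hp, hrep⟩ := rep e N ν (by omega) a D
  let p' : Fin (ν.length + 1) → ℝ[X] := fun l =>
    C (γ * x.1) * (C (a : ℝ) + C (D : ℝ) * X) ^ x.2 * p l
  have hp' : ∀ l, (p' l).natDegree ≤ dg (x :: ν) := by
    intro l
    rw [hdg]
    refine natDegree_mul_le_of_le ((natDegree_C_mul_le _ _).trans ?_) (hp l)
    refine (natDegree_pow_le).trans ?_
    calc x.2 * (C (a : ℝ) + C (D : ℝ) * X).natDegree ≤ x.2 * 1 := by
          refine Nat.mul_le_mul_left _ ((natDegree_add_le _ _).trans (max_le ?_ ?_))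
          · rw [natDegree_C]
            exact Nat.zero_le _
          · exact (natDegree_C_mul_le _ _).trans natDegree_X_le
      _ = x.2 := mul_one _
  obtain ⟨A, b, hA, hsplit⟩ := split_comb hμ ps p' hp'
  refine ⟨ps, hps, A, hA, fun j => ?_⟩
  have h1 : γ * br (x :: ν) (a + j * D) = ∑ l, (p' l).eval ((j : ℕ) : ℝ) * (ps l j : ℝ) := by
    rw [br, hrep j, Finset.mul_sum, Finset.mul_sum]
    refine Finset.sum_congr rfl fun l _ => ?_
    simp only [p', eval_mul, eval_C, eval_pow, eval_add, eval_X]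
    push_cast
    ring
  have h2 : (Q : ℝ) * (γ * br (x :: ν) (a + j * D)) = (Q : ℝ) * comb ps A j +
      ((Q * ∑ l, (∑ m ∈ range (dg (x :: ν) + 1), b l m * ((j : ℕ).choose m : ℤ)) * ps l j : ℤ) :
        ℝ) := by
    rw [h1, hsplit j]
    push_cast
    ring
  simp only [h2]
  rw [Int.floor_add_intCast]
  push_cast
  rw [ZMod.natCast_self, zero_mul, add_zero]

theorem VB_PB (e : ℕ) (N : ℕ → ℕ) (hN : PB N) (L : ℕ) : PB fun Q => VB e (N Q) L := by
  induction L with
  | zero => exact PB.const 1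
  | succ L ih =>
    exact (((PB.const ((L + 1) * (e + 1))).mul ((hN.pow e).mul ih)).add (PB.const 1)).mono
      fun Q _ => le_refl _

theorem TC_PB (e : ℕ) (N : ℕ → ℕ) (hN : PB N) (L : ℕ) : PB fun Q => TC e (N Q) L := by
  induction L with
  | zero => exact PB.const 1
  | succ L ih =>
    exact (ih.mul (((hN.mul ((PB.const 2).mul (VB_PB e N hN (L + 1)))).add
      (PB.const 1)).pow ((L + 1) * (e + 1)))).mono fun Q _ => le_refl _

theorem PatC_PB (e : ℕ) (N : ℕ → ℕ) (hN : PB N) (L : ℕ) :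
    PB fun Q => (PatC e (N Q) Q L).ncard :=
  ((TC_PB e N hN L).mul (((hN.mul ((PB.const 2).mul (PB.id.mul (VB_PB e N hN (L + 1))))).add
      (PB.const 1)).pow ((L + 1) * (e + 1)))).mono fun Q _ => (PatC_count e (N Q) Q L).2

end Pool.Agent.H65.TL
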