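import Pool.Agent.H65.TL.G

/-!
# Phases of bracket polynomials along arithmetic progressions: tools
-/

set_option autoImplicit false

open Finset Polynomial
open scoped Nat

namespace Pool.Agent.H65.TL

theorem drift_core (e : ℕ) (C₀ : ℝ) (hC : ∀ P : ℝ[X], P.natDegree ≤ e →
    (∀ i : ℕ, i ≤ e → |P.eval (i : ℝ)| ≤ 1) → ∀ s t : ℝ, 0 ≤ s → s ≤ 2 * e → 0 ≤ t → t ≤ 2 * e →
      |P.eval t - P.eval s| ≤ C₀ * |t - s|) (hC0 : 0 ≤ C₀)
    (G : ℕ) (hG : 1 ≤ G) (R : ℝ[X]) (hR : R.natDegree ≤ e) (h0 : R.eval 0 = 0)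
    (hsmall : ∀ i : ℕ, i ≤ e → |R.eval ((i : ℝ) * G)| < 1) (L0 : ℕ)
    (hex : ∃ i ≤ e, 1 ≤ |R.eval ((i : ℝ) * (G * L0))|) :
    ∃ L : ℕ, L ≤ L0 ∧
      (∀ j < e * G, |R.eval ((L : ℝ) * (j + 1 : ℕ)) - R.eval ((L : ℝ) * j)| ≤ 2 * C₀ / G) ∧
      ∃ j ≤ e * G, 1 ≤ |R.eval ((L : ℝ) * j)| := by
  classical
  have hG' : (1 : ℝ) ≤ G := by exact_mod_cast hG
  have hex' : ∃ L : ℕ, ∃ i ≤ e, 1 ≤ |R.eval ((i : ℝ) * (G * L))| := ⟨L0, hex⟩
  have hfind := Nat.find_spec hex'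
  have hmin := fun m (hm : m < Nat.find hex') => Nat.find_min hex' hm
  have hle : Nat.find hex' ≤ L0 := Nat.find_min' hex' hex
  set L := Nat.find hex' with hL
  have hL2 : 2 ≤ L := by
    by_contra hcon
    have h1 : L = 0 ∨ L = 1 := by omega
    obtain ⟨i, hi, hi'⟩ := hfind
    rcases h1 with h1 | h1
    · rw [h1] at hi'
      simp only [Nat.cast_zero, mul_zero] at hi'
      rw [h0, abs_zero] at hi'
      linarith
    · rw [h1] at hi'
      have := hsmall i hi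
      rw [Nat.cast_one, mul_one] at hi'
      linarith
  have hprev := hmin (L - 1) (by omega)
  push Not at hprev
  have hLr : (2 : ℝ) ≤ L := by exact_mod_cast hL2
  have hLm : ((L - 1 : ℕ) : ℝ) = (L : ℝ) - 1 := by
    rw [Nat.cast_sub (by omega), Nat.cast_one]
  set H : ℝ := (G : ℝ) * ((L : ℝ) - 1) with hH
  have hH0 : 0 < H := by
    rw [hH]
    exact mul_pos (by linarith) (by linarith)
  refine ⟨L, hle, ?_, ?_⟩
  · intro j hj
    have h1 := hC (R.comp (C H * X)) (by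
      refine (Polynomial.natDegree_comp_le).trans ?_
      calc R.natDegree * (C H * X).natDegree ≤ e * 1 :=
            Nat.mul_le_mul hR ((Polynomial.natDegree_C_mul_le _ _).trans Polynomial.natDegree_X_le)
        _ = e := mul_one e) (by
      intro i hi
      have := hprev i hi
      rw [Polynomial.eval_comp, Polynomial.eval_mul, Polynomial.eval_C, Polynomial.eval_X,
        mul_comm, hH]
      rw [hLm] at this
      exact this.le) ((L : ℝ) * j / H) ((L : ℝ) * (j + 1 : ℕ) / H)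
    have hj1 : ((j + 1 : ℕ) : ℝ) ≤ e * G := by exact_mod_cast hj
    have hj0 : (j : ℝ) ≤ ((j + 1 : ℕ) : ℝ) := by
      push_cast
      linarith
    have hbound : (L : ℝ) * (j + 1 : ℕ) / H ≤ 2 * e := by
      rw [div_le_iff₀ hH0, hH]
      have e1 : (L : ℝ) * (j + 1 : ℕ) ≤ L * (e * G) :=
        mul_le_mul_of_nonneg_left hj1 (by positivity)
      have e2 : (0 : ℝ) ≤ (e : ℝ) * G := by positivity
      nlinarith
    have h2 := h1 (by positivity) (by
      refine le_trans ?_ hbound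
      exact div_le_div_of_nonneg_right (mul_le_mul_of_nonneg_left hj0 (by positivity)) hH0.le)
      (by positivity) hbound
    simp only [Polynomial.eval_comp, Polynomial.eval_mul, Polynomial.eval_C,
      Polynomial.eval_X] at h2
    rw [mul_div_cancel₀ _ hH0.ne', mul_div_cancel₀ _ hH0.ne'] at h2
    refine h2.trans ?_
    have h3 : |(L : ℝ) * (j + 1 : ℕ) / H - (L : ℝ) * j / H| = L / H := by
      rw [← sub_div, ← mul_sub]
      push_cast
      rw [add_sub_cancel_left, mul_one, abs_of_nonneg (by positivity)]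
    rw [h3]
    have h4 : (L : ℝ) / H ≤ 2 / G := by
      rw [div_le_div_iff₀ hH0 (by linarith), hH]
      nlinarith
    calc C₀ * (L / H) ≤ C₀ * (2 / G) := mul_le_mul_of_nonneg_left h4 hC0
      _ = 2 * C₀ / G := by ring
  · obtain ⟨i, hi, hi'⟩ := hfind
    refine ⟨i * G, Nat.mul_le_mul_right _ hi, ?_⟩
    have h1 : (L : ℝ) * ((i * G : ℕ) : ℝ) = (i : ℝ) * (G * L) := by
      push_cast
      ring
    rw [h1]
    exact hi'

/-- a large leading coefficient forces a large value -/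
theorem coeff_big (e : ℕ) (he : 1 ≤ e) (G : ℕ) (hG : 1 ≤ G) (R : ℝ[X]) (hR : R.natDegree ≤ e)
    (η : ℝ) (hη : 0 < η) (hη' : η ≤ |R.coeff e|) (L0 : ℕ) (hL0 : ((e : ℝ) + 1) / η ≤ L0) :
    ∃ i ≤ e, 1 ≤ |R.eval ((i : ℝ) * (G * L0))| := by
  by_contra hcon
  push Not at hcon
  have hG' : (1 : ℝ) ≤ G := by exact_mod_cast hG
  have h2 := coeff_le e (R.comp (C ((G : ℝ) * L0) * X)) (by
    refine (Polynomial.natDegree_comp_le).trans ?_
    calc R.natDegree * (C ((G : ℝ) * L0) * X).natDegree ≤ e * 1 :=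
          Nat.mul_le_mul hR ((Polynomial.natDegree_C_mul_le _ _).trans Polynomial.natDegree_X_le)
      _ = e := mul_one e) (by
    intro i hi
    have := hcon i hi
    rw [Polynomial.eval_comp, Polynomial.eval_mul, Polynomial.eval_C, Polynomial.eval_X,
      mul_comm]
    exact this)
  have h3 : (R.comp (C ((G : ℝ) * L0) * X)).coeff e = R.coeff e * ((G : ℝ) * L0) ^ e := by
    rw [Polynomial.comp_C_mul_X_coeff]
  rw [h3, abs_mul] at h2
  have hL1' : (0 : ℝ) < L0 := lt_of_lt_of_le (by positivity) hL0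
  have hL1 : 1 ≤ (G : ℝ) * L0 := by
    have : (1 : ℕ) ≤ L0 := by
      have : (0 : ℕ) < L0 := by exact_mod_cast hL1'
      omega
    have : (1 : ℝ) ≤ L0 := by exact_mod_cast this
    nlinarith
  have h4 : (G : ℝ) * L0 ≤ |((G : ℝ) * L0) ^ e| := by
    rw [abs_of_nonneg (by positivity)]
    exact le_self_pow₀ hL1 (by omega)
  have h5 : (e : ℝ) + 1 ≤ η * L0 := by
    rw [div_le_iff₀ hη] at hL0
    linarith
  have h6 : η * L0 ≤ |R.coeff e| * |((G : ℝ) * L0) ^ e| := by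
    refine mul_le_mul hη' ?_ (Nat.cast_nonneg _) (abs_nonneg _)
    have : (L0 : ℝ) ≤ (G : ℝ) * L0 := by nlinarith [Nat.cast_nonneg (α := ℝ) L0]
    linarith
  linarith

/-- a phase which drifts slowly visits all arcs -/
theorem visit_core (Q G e : ℕ) (hQ : 0 < Q) (C₀ : ℝ) (hG : 1 ≤ G) (hGQ : 2 * C₀ * Q ≤ G)
    (R : ℝ[X]) (h0 : R.eval 0 = 0) (L : ℕ)
    (hsteps : ∀ j < e * G, |R.eval ((L : ℝ) * (j + 1 : ℕ)) - R.eval ((L : ℝ) * j)| ≤ 2 * C₀ / G)
    (hjm : ∃ j ≤ e * G, 1 ≤ |R.eval ((L : ℝ) * j)|) (w₀ : ℝ) (ph : ℕ → ℝ)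
    (hph : ∀ j ≤ e * G, ∃ z : ℤ, ph j = R.eval ((L : ℝ) * j) + w₀ + z) (c : ZMod Q) :
    ∃ j ≤ e * G, ((⌊(Q : ℝ) * ph j⌋ : ℤ) : ZMod Q) = c := by
  obtain ⟨jm, hjm, hjm'⟩ := hjm
  have hQ' : (0 : ℝ) < Q := by exact_mod_cast hQ
  have hGr : (0 : ℝ) < G := by
    have : (1 : ℝ) ≤ G := by exact_mod_cast hG
    linarith
  set v : ℕ → ℤ := fun j => ⌊(Q : ℝ) * (R.eval ((L : ℝ) * j) + w₀)⌋ with hv
  have hvstep : ∀ j < jm, |v (j + 1) - v j| ≤ 1 := by
    intro j hj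
    have h1 := hsteps j (lt_of_lt_of_le hj hjm)
    have h2 : |(Q : ℝ) * (R.eval ((L : ℝ) * (j + 1 : ℕ)) + w₀) -
        (Q : ℝ) * (R.eval ((L : ℝ) * j) + w₀)| ≤ 1 := by
      have e1 : (Q : ℝ) * (R.eval ((L : ℝ) * (j + 1 : ℕ)) + w₀) -
        (Q : ℝ) * (R.eval ((L : ℝ) * j) + w₀) = Q * (R.eval ((L : ℝ) * (j + 1 : ℕ)) -
          R.eval ((L : ℝ) * j)) := by ring
      rw [e1, abs_mul, abs_of_pos hQ']
      calc (Q : ℝ) * |R.eval ((L : ℝ) * (j + 1 : ℕ)) - R.eval ((L : ℝ) * j)|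
          ≤ Q * (2 * C₀ / G) := mul_le_mul_of_nonneg_left h1 hQ'.le
        _ = 2 * C₀ * Q / G := by ring
        _ ≤ 1 := by
          rw [div_le_one hGr]
          exact hGQ
    have h3 := abs_le.1 h2
    simp only [hv]
    rw [abs_le]
    constructor
    · have e1 : ⌊(Q : ℝ) * (R.eval ((L : ℝ) * j) + w₀)⌋ - 1 ≤
          ⌊(Q : ℝ) * (R.eval ((L : ℝ) * (j + 1 : ℕ)) + w₀)⌋ := by
        rw [Int.le_floor]
        push_cast
        have := Int.floor_le ((Q : ℝ) * (R.eval ((L : ℝ) * j) + w₀))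
        push_cast at h3
        linarith [h3.1]
      linarith
    · have e1 : ⌊(Q : ℝ) * (R.eval ((L : ℝ) * (j + 1 : ℕ)) + w₀)⌋ - 1 ≤
          ⌊(Q : ℝ) * (R.eval ((L : ℝ) * j) + w₀)⌋ := by
        rw [Int.le_floor]
        push_cast
        have := Int.floor_le ((Q : ℝ) * (R.eval ((L : ℝ) * (j + 1 : ℕ)) + w₀))
        push_cast at this h3
        linarith [h3.2]
      linarith
  have hvtot : (Q : ℤ) ≤ |v jm - v 0| := by
    have h0' : R.eval ((L : ℝ) * ((0 : ℕ) : ℝ)) = 0 := by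
      rw [Nat.cast_zero, mul_zero, h0]
    simp only [hv]
    rw [h0']
    rcases le_abs.1 hjm' with h | h
    · have e1 : ⌊(Q : ℝ) * (0 + w₀)⌋ + Q ≤ ⌊(Q : ℝ) * (R.eval ((L : ℝ) * jm) + w₀)⌋ := by
        rw [Int.le_floor]
        push_cast
        have := Int.floor_le ((Q : ℝ) * (0 + w₀))
        nlinarith
      refine le_abs.2 (Or.inl ?_)
      linarith
    · have e1 : ⌊(Q : ℝ) * (R.eval ((L : ℝ) * jm) + w₀)⌋ + Q ≤ ⌊(Q : ℝ) * (0 + w₀)⌋ := by
        rw [Int.le_floor]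
        push_cast
        have := Int.floor_le ((Q : ℝ) * (R.eval ((L : ℝ) * jm) + w₀))
        nlinarith
      refine le_abs.2 (Or.inr ?_)
      linarith
  obtain ⟨j, hj, hjc⟩ := visits Q hQ v jm hvstep hvtot c
  refine ⟨j, hj.trans hjm, ?_⟩
  rw [← hjc]
  obtain ⟨z, hz⟩ := hph j (hj.trans hjm)
  have h1 : (Q : ℝ) * ph j = (Q : ℝ) * (R.eval ((L : ℝ) * j) + w₀) + ((Q * z : ℤ) : ℝ) := by
    rw [hz]
    push_cast
    ring
  rw [h1, Int.floor_add_intCast]
  simp only [hv]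
  push_cast
  rw [ZMod.natCast_self, zero_mul, add_zero]

/-- a polynomial has constant sign on a long run -/
theorem sign_run (e T : ℕ) (S : ℝ[X]) (hS : S.natDegree ≤ e) : ∃ j2 : ℕ,
    j2 + T ≤ (e + 1) * (T + 1) ∧
    ∀ i : ℕ, i ≤ T → (0 ≤ S.eval ((j2 + i : ℕ) : ℝ) ↔ 0 ≤ S.eval (j2 : ℝ)) := by
  by_contra hcon
  push Not at hcon
  have hroot : ∀ m : Fin (e + 1), ∃ x : ℝ, S.eval x = 0 ∧ (((m : ℕ) * (T + 1) : ℕ) : ℝ) ≤ x ∧
      x ≤ (((m : ℕ) * (T + 1) + T : ℕ) : ℝ) := by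
    intro m
    have hm : (m : ℕ) * (T + 1) + T ≤ (e + 1) * (T + 1) := by
      have := Nat.mul_le_mul_right (T + 1) (Nat.lt_succ_iff.1 m.2)
      have h2 : (e + 1) * (T + 1) = e * (T + 1) + (T + 1) := by ring
      omega
    obtain ⟨i, hi, hi'⟩ := hcon ((m : ℕ) * (T + 1)) hm
    have hle : (((m : ℕ) * (T + 1) : ℕ) : ℝ) ≤ (((m : ℕ) * (T + 1) + i : ℕ) : ℝ) := by
      exact_mod_cast Nat.le_add_right _ _
    have hle2 : (((m : ℕ) * (T + 1) + i : ℕ) : ℝ) ≤ (((m : ℕ) * (T + 1) + T : ℕ) : ℝ) := by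
      exact_mod_cast Nat.add_le_add_left hi _
    have hcont : ContinuousOn (fun x : ℝ => S.eval x)
        (Set.Icc (((m : ℕ) * (T + 1) : ℕ) : ℝ) (((m : ℕ) * (T + 1) + i : ℕ) : ℝ)) :=
      S.continuous.continuousOn
    rcases hi' with ⟨h1, h2⟩ | ⟨h1, h2⟩
    · obtain ⟨x, hx, hx'⟩ := intermediate_value_Icc hle hcont ⟨h2.le, h1⟩
      exact ⟨x, hx', hx.1, hx.2.trans hle2⟩
    · obtain ⟨x, hx, hx'⟩ := intermediate_value_Icc' hle hcont ⟨h1.le, h2⟩
      exact ⟨x, hx', hx.1, hx.2.trans hle2⟩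
  choose x hx hx1 hx2 using hroot
  have hinj : Function.Injective x := by
    intro m m' h
    by_contra hne
    rcases lt_or_gt_of_ne (fun h' => hne (Fin.ext h') : (m : ℕ) ≠ m') with h1 | h1
    · have h2 : (m : ℕ) * (T + 1) + T < (m' : ℕ) * (T + 1) := by
        have := Nat.mul_le_mul_right (T + 1) (Nat.succ_le_of_lt h1)
        rw [Nat.succ_mul] at this
        omega
      have h3 : (((m : ℕ) * (T + 1) + T : ℕ) : ℝ) < (((m' : ℕ) * (T + 1) : ℕ) : ℝ) := by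
        exact_mod_cast h2
      have h4 := hx2 m
      have h5 := hx1 m'
      rw [h] at h4
      linarith
    · have h2 : (m' : ℕ) * (T + 1) + T < (m : ℕ) * (T + 1) := by
        have := Nat.mul_le_mul_right (T + 1) (Nat.succ_le_of_lt h1)
        rw [Nat.succ_mul] at this
        omega
      have h3 : (((m' : ℕ) * (T + 1) + T : ℕ) : ℝ) < (((m : ℕ) * (T + 1) : ℕ) : ℝ) := by
        exact_mod_cast h2
      have h4 := hx2 m'
      have h5 := hx1 m
      rw [h] at h5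
      linarith
  have hzero : S = 0 := Polynomial.eq_zero_of_natDegree_lt_card_of_eval_eq_zero S hinj hx (by
    rw [Fintype.card_fin]
    omega)
  obtain ⟨i, hi, hi'⟩ := hcon 0 (by
    have : T + 1 ≤ (e + 1) * (T + 1) := Nat.le_mul_of_pos_left _ (Nat.succ_pos e)
    omega)
  rw [hzero] at hi'
  simp at hi'

theorem coeff_comp_lin (n : ℕ) (P : ℝ[X]) (hP : P.natDegree ≤ n) (u v : ℝ) :
    (P.comp (C u + C v * X)).coeff n = P.coeff n * v ^ n := by
  have hlin : (C u + C v * X).natDegree ≤ 1 := by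
    refine (natDegree_add_le _ _).trans (max_le ?_ ?_)
    · rw [natDegree_C]
      exact Nat.zero_le _
    · exact (natDegree_C_mul_le _ _).trans natDegree_X_le
  rw [Polynomial.comp_eq_sum_left, Polynomial.sum_over_range' _ (by simp) (n + 1)
    (Nat.lt_succ_of_le hP), Polynomial.finsetSum_coeff, Finset.sum_eq_single n]
  · rw [coeff_C_mul]
    have h1 := coeff_pow_of_natDegree_le (m := n) (n := 1) hlin
    rw [mul_one] at h1
    rw [h1]
    congr 2
    rw [coeff_add, coeff_C_mul, coeff_X_one, mul_one, coeff_C_succ, zero_add]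
  · intro m hm hmn
    have h1 := Finset.mem_range.1 hm
    have h2 : ((C u + C v * X) ^ m).natDegree ≤ m := by
      refine (natDegree_pow_le).trans ?_
      calc m * (C u + C v * X).natDegree ≤ m * 1 := Nat.mul_le_mul_left _ hlin
        _ = m := mul_one m
    have h3 : ((C u + C v * X) ^ m).coeff n = 0 :=
      Polynomial.coeff_eq_zero_of_natDegree_lt (by omega)
    rw [coeff_C_mul, h3, mul_zero]
  · intro h
    exact absurd (Finset.mem_range.2 (Nat.lt_succ_self n)) h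

/-- a polynomial which stays below one for a long time hardly moves -/
theorem near_const (e : ℕ) (he : 1 ≤ e) (C₀ : ℝ) (hC1 : 1 ≤ C₀) (hC : ∀ P : ℝ[X],
    P.natDegree ≤ e →
    (∀ i : ℕ, i ≤ e → |P.eval (i : ℝ)| ≤ 1) → ∀ s t : ℝ, 0 ≤ s → s ≤ 2 * e → 0 ≤ t → t ≤ 2 * e →
      |P.eval t - P.eval s| ≤ C₀ * |t - s|) (R : ℝ[X]) (hR : R.natDegree ≤ e)
    (h0 : R.eval 0 = 0) (H : ℝ) (hb : ∀ i : ℕ, i ≤ e → |R.eval ((i : ℝ) * H)| < 1)
    (t : ℝ) (ht0 : 0 ≤ t) (ht : 2 * C₀ * t < H) : |R.eval t| < 1 / 2 := by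
  have hH0 : 0 < H := lt_of_le_of_lt (by positivity) ht
  have he' : (1 : ℝ) ≤ e := by exact_mod_cast he
  have h1 := hC (R.comp (C H * X)) (by
    refine (Polynomial.natDegree_comp_le).trans ?_
    calc R.natDegree * (C H * X).natDegree ≤ e * 1 :=
          Nat.mul_le_mul hR ((Polynomial.natDegree_C_mul_le _ _).trans Polynomial.natDegree_X_le)
      _ = e := mul_one e) (by
    intro i hi
    have := hb i hi
    rw [Polynomial.eval_comp, Polynomial.eval_mul, Polynomial.eval_C, Polynomial.eval_X,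
      mul_comm]
    exact this.le) 0 (t / H) le_rfl (by positivity) (by positivity) (by
      rw [div_le_iff₀ hH0]
      nlinarith)
  simp only [Polynomial.eval_comp, Polynomial.eval_mul, Polynomial.eval_C,
    Polynomial.eval_X, mul_zero, h0, sub_zero] at h1
  rw [mul_div_cancel₀ _ hH0.ne', abs_of_nonneg (show 0 ≤ t / H by positivity)] at h1
  refine lt_of_le_of_lt h1 ?_
  rw [← mul_div_assoc, div_lt_iff₀ hH0]
  linarith

end Pool.Agent.H65.TL
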