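import Pool.Agent.H65.TL.I

/-!
# The tower: bracket polynomials along arithmetic progressions with a good difference
-/

set_option autoImplicit false

open Finset Polynomial
open scoped Nat

namespace Pool.Agent.H65.TL

/-- the parameters -/
structure Par (k Q G r W : ℕ) (C₀ δ : ℝ) : Prop where
  C1 : 1 ≤ C₀
  lip : ∀ e ≤ k, ∀ P : ℝ[X], P.natDegree ≤ e →
      (∀ i : ℕ, i ≤ e → |P.eval (i : ℝ)| ≤ 1) → ∀ s t : ℝ, 0 ≤ s → s ≤ 2 * e → 0 ≤ t →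
        t ≤ 2 * e → |P.eval t - P.eval s| ≤ C₀ * |t - s|
  G1 : 1 ≤ G
  Q1 : 0 < Q
  GQ : 2 * C₀ * Q ≤ G
  d0 : 0 < δ
  d1 : ∀ e ≤ k, 2 * δ * ((e : ℝ) + 1) * e ! ≤ 1 / 4
  small : ∀ e ≤ k, ∀ R : ℝ[X], R.natDegree ≤ e → (∀ i : ℕ, i ≤ e → |R.eval (i : ℝ)| ≤ δ) →
      ∀ i : ℕ, i ≤ e → |R.eval ((i : ℝ) * G)| < 1
  r0 : 0 < r
  rd : 1 / δ ≤ r
  vd : ∀ f : ℕ → Fin r, ∃ j0 q : ℕ, 0 < q ∧ q ≤ W ∧ j0 ≤ W ∧
      ∀ i : ℕ, i ≤ k → f (j0 + i * q) = f j0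

/-- the phase `ph` visits all cells along a bounded subprogression -/
def Mov (Q k G : ℕ) (ph : ℕ → ℝ) (a d B : ℕ) : Prop :=
  ∃ s t : ℕ, s + t * (k * G) ≤ B ∧ ∀ c : ZMod Q, ∃ j ≤ k * G,
    ((⌊(Q : ℝ) * ph (a + (s + j * t) * d)⌋ : ℤ) : ZMod Q) = c

theorem Mov.mono {Q k G : ℕ} {ph : ℕ → ℝ} {a d B B' : ℕ} (h : Mov Q k G ph a d B) (hB : B ≤ B') :
    Mov Q k G ph a d B' := by
  obtain ⟨s, t, h1, h2⟩ := h
  exact ⟨s, t, h1.trans hB, h2⟩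

/-- van der Waerden step: a polynomial is nearly constant modulo one on a short progression -/
theorem level {k Q G r W : ℕ} {C₀ δ : ℝ} (P : Par k Q G r W C₀ δ) (e : ℕ) (he : 1 ≤ e)
    (hek : e ≤ k) (Z : ℝ[X]) (hZ : Z.natDegree ≤ e) :
    ∃ (j1 q1 : ℕ) (I R : ℝ[X]) (D : ℤ) (w₀ : ℝ), 0 < q1 ∧ q1 ≤ W ∧ j1 ≤ W ∧ 0 ≤ w₀ ∧ w₀ < 1 ∧
      R.natDegree ≤ e ∧ I.natDegree ≤ e ∧ R.eval 0 = 0 ∧
      (∀ i : ℕ, i ≤ e → |R.eval (i : ℝ)| ≤ δ) ∧ (∀ t : ℕ, ∃ z : ℤ, I.eval (t : ℝ) = z) ∧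
      I.coeff e = D / e ! ∧ R.coeff e = Z.coeff e * (q1 : ℝ) ^ e - D / e ! ∧
      ∀ t : ℕ, Z.eval ((j1 + q1 * t : ℕ) : ℝ) = R.eval (t : ℝ) + w₀ + I.eval (t : ℝ) := by
  classical
  have hr' : (0 : ℝ) < r := by exact_mod_cast P.r0
  have hδ := P.d0
  have hrδ := P.rd
  set y : ℕ → ℝ := fun j => Z.eval (j : ℝ) with hy
  have hfr : ∀ x : ℝ, (⌊(r : ℝ) * Int.fract x⌋).toNat < r := by
    intro x
    have h1 : (r : ℝ) * Int.fract x < r := by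
      have := Int.fract_lt_one x
      nlinarith
    have h2 : 0 ≤ (r : ℝ) * Int.fract x := mul_nonneg hr'.le (Int.fract_nonneg x)
    have h3 : 0 ≤ ⌊(r : ℝ) * Int.fract x⌋ := Int.floor_nonneg.2 h2
    have h4 : ⌊(r : ℝ) * Int.fract x⌋ < r := by
      rw [Int.floor_lt]
      exact_mod_cast h1
    omega
  obtain ⟨j0, q, hq, hqW, hj0, hmono⟩ := P.vd (fun j => ⟨(⌊(r : ℝ) * Int.fract (y j)⌋).toNat,
    hfr _⟩)
  have hclose : ∀ i : ℕ, i ≤ k → |Int.fract (y (j0 + i * q)) - Int.fract (y j0)| ≤ δ := by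
    intro i hi
    have h1 := congrArg Fin.val (hmono i hi)
    simp only at h1
    have h2 : ⌊(r : ℝ) * Int.fract (y (j0 + i * q))⌋ = ⌊(r : ℝ) * Int.fract (y j0)⌋ := by
      have e1 : 0 ≤ ⌊(r : ℝ) * Int.fract (y (j0 + i * q))⌋ :=
        Int.floor_nonneg.2 (mul_nonneg hr'.le (Int.fract_nonneg _))
      have e2 : 0 ≤ ⌊(r : ℝ) * Int.fract (y j0)⌋ :=
        Int.floor_nonneg.2 (mul_nonneg hr'.le (Int.fract_nonneg _))
      omega
    have h3 := Int.abs_sub_lt_one_of_floor_eq_floor h2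
    rw [← mul_sub, abs_mul, abs_of_pos hr'] at h3
    rw [div_le_iff₀ hδ] at hrδ
    by_contra hcon
    push Not at hcon
    nlinarith
  set Zp : ℝ[X] := Z.comp (C (j0 : ℝ) + C (q : ℝ) * X) with hZp
  have hlin : (C (j0 : ℝ) + C (q : ℝ) * X).natDegree ≤ 1 := by
    refine (natDegree_add_le _ _).trans (max_le ?_ ?_)
    · rw [natDegree_C]
      exact Nat.zero_le _
    · exact (natDegree_C_mul_le _ _).trans natDegree_X_le
  have hZeval : ∀ i : ℕ, Zp.eval (i : ℝ) = y (j0 + i * q) := by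
    intro i
    rw [hZp, hy]
    simp only [eval_comp, eval_mul, eval_C, eval_add, eval_X]
    congr 1
    push_cast
    ring
  have hZdeg : Zp.natDegree ≤ e := by
    rw [hZp]
    refine (natDegree_comp_le).trans ?_
    calc Z.natDegree * (C (j0 : ℝ) + C (q : ℝ) * X).natDegree ≤ e * 1 :=
          Nat.mul_le_mul hZ hlin
      _ = e := mul_one e
  have hZcoeff : Zp.coeff e = Z.coeff e * (q : ℝ) ^ e := by
    rw [hZp, coeff_comp_lin e Z hZ]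
  obtain ⟨I, D, hIdeg, hIval, hIint, hIcoeff⟩ := exists_int e (fun i => ⌊y (j0 + i * q)⌋)
  set w₀ : ℝ := Int.fract (y j0) with hw₀
  set R : ℝ[X] := Zp - I - C w₀ with hR
  have hRdeg : R.natDegree ≤ e := by
    rw [hR]
    refine (natDegree_sub_le _ _).trans (max_le ((natDegree_sub_le _ _).trans
      (max_le hZdeg hIdeg)) ?_)
    rw [natDegree_C]
    exact Nat.zero_le _
  have hReval : ∀ i : ℕ, i ≤ e → R.eval (i : ℝ) = Int.fract (y (j0 + i * q)) - w₀ := by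
    intro i hi
    rw [hR, eval_sub, eval_sub, eval_C, hZeval, hIval i hi, ← Int.self_sub_floor]
  have hR0 : R.eval 0 = 0 := by
    have := hReval 0 (Nat.zero_le _)
    rw [Nat.cast_zero] at this
    rw [this, Nat.zero_mul, Nat.add_zero, sub_self]
  have hRsmall : ∀ i : ℕ, i ≤ e → |R.eval (i : ℝ)| ≤ δ := by
    intro i hi
    rw [hReval i hi]
    exact hclose i (hi.trans hek)
  have hRcoeff : R.coeff e = Z.coeff e * (q : ℝ) ^ e - D / e ! := by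
    rw [hR, coeff_sub, coeff_sub, hZcoeff, hIcoeff]
    have : (C w₀).coeff e = 0 := by
      rw [coeff_C, if_neg (by omega)]
    rw [this, sub_zero]
  refine ⟨j0, q, I, R, D, w₀, hq, hqW, hj0, Int.fract_nonneg _, Int.fract_lt_one _, hRdeg, hIdeg,
    hR0, hRsmall, hIint, hIcoeff, hRcoeff, fun t => ?_⟩
  have e1 := hZeval t
  have e2 : R.eval (t : ℝ) = Zp.eval (t : ℝ) - I.eval (t : ℝ) - w₀ := by
    rw [hR, eval_sub, eval_sub, eval_C]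
  have e3 : y (j0 + t * q) = Z.eval ((j0 + q * t : ℕ) : ℝ) := by
    rw [hy, mul_comm]
  rw [e2, e1, e3]
  ring

/-- a phase with a drift gives a mover -/
theorem mover {k Q G r W : ℕ} {C₀ δ : ℝ} (P : Par k Q G r W C₀ δ) (e : ℕ)
    (hek : e ≤ k) (R I : ℝ[X]) (hR : R.natDegree ≤ e) (h0 : R.eval 0 = 0)
    (hsm : ∀ i : ℕ, i ≤ e → |R.eval (i : ℝ)| ≤ δ) (hI : ∀ t : ℕ, ∃ z : ℤ, I.eval (t : ℝ) = z)
    (w₀ : ℝ) (L0 : ℕ) (hex : ∃ i ≤ e, 1 ≤ |R.eval ((i : ℝ) * (G * L0))|) (ph : ℕ → ℝ)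
    (a d s q B : ℕ) (hph : ∀ t ≤ L0 * (k * G), ph (a + (s + t * q) * d) =
      R.eval (t : ℝ) + w₀ + I.eval (t : ℝ)) (hB : s + L0 * (k * G) * q ≤ B) :
    Mov Q k G ph a d B := by
  have hC1 := P.C1
  obtain ⟨L, hL, hsteps, hjm⟩ := drift_core e C₀ (P.lip e hek) (by linarith) G P.G1 R hR h0
    (P.small e hek R hR hsm) L0 hex
  have heG : e * G ≤ k * G := Nat.mul_le_mul_right _ hek
  refine ⟨s, L * q, ?_, fun c => ?_⟩
  · refine le_trans (Nat.add_le_add_left ?_ _) hB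
    calc L * q * (k * G) = L * (k * G) * q := by ring
      _ ≤ L0 * (k * G) * q := Nat.mul_le_mul_right _ (Nat.mul_le_mul_right _ hL)
  · obtain ⟨j, hj, hj'⟩ := visit_core Q G e P.Q1 C₀ P.G1 P.GQ R h0 L hsteps hjm w₀
      (fun j => ph (a + (s + j * (L * q)) * d)) (fun j hj => by
        have h1 := hph (L * j) (Nat.mul_le_mul hL (hj.trans heG))
        obtain ⟨z, hz⟩ := hI (L * j)
        refine ⟨z, ?_⟩
        have e1 : s + j * (L * q) = s + L * j * q := by ring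
        have e2 : ((L : ℝ) * j) = ((L * j : ℕ) : ℝ) := by push_cast; ring
        simp only [e1]
        rw [e2, h1, hz]) c
    exact ⟨j, hj.trans heG, hj'⟩

/-- the polynomial of the phases of the next level -/
theorem zpoly (x : ℝ × ℕ) (ν : List (ℝ × ℕ)) (γ : ℝ) (a d j0 q : ℕ) (N : ℝ[X])
    (hN : N.natDegree ≤ dg ν) (hNc : N.coeff (dg ν) = (q : ℝ) ^ (dg ν) * (round (br ν d) : ℝ))
    (T : ℕ) (hNe : ∀ i : ℕ, i ≤ T → N.eval (i : ℝ) =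
      (round (br ν (a + (j0 + i * q) * d)) : ℝ)) :
    ∃ Z : ℝ[X], Z.natDegree ≤ dg (x :: ν) ∧
      Z.coeff (dg (x :: ν)) = (q : ℝ) ^ (dg (x :: ν)) * (γ * br (x :: ν) d) ∧
      ∀ i : ℕ, i ≤ T → Z.eval (i : ℝ) = γ * br (x :: ν) (a + (j0 + i * q) * d) := by
  have hlin : (C ((a + j0 * d : ℕ) : ℝ) + C ((q * d : ℕ) : ℝ) * X).natDegree ≤ 1 := by
    refine (natDegree_add_le _ _).trans (max_le ?_ ?_)
    · rw [natDegree_C]
      exact Nat.zero_le _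
    · exact (natDegree_C_mul_le _ _).trans natDegree_X_le
  have hpow : ((C ((a + j0 * d : ℕ) : ℝ) + C ((q * d : ℕ) : ℝ) * X) ^ x.2).natDegree ≤ x.2 := by
    refine (natDegree_pow_le).trans ?_
    calc x.2 * (C ((a + j0 * d : ℕ) : ℝ) + C ((q * d : ℕ) : ℝ) * X).natDegree ≤ x.2 * 1 :=
          Nat.mul_le_mul_left _ hlin
      _ = x.2 := mul_one _
  have hpc : ((C ((a + j0 * d : ℕ) : ℝ) + C ((q * d : ℕ) : ℝ) * X) ^ x.2).coeff x.2 =
      ((q * d : ℕ) : ℝ) ^ x.2 := by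
    have h1 := coeff_pow_of_natDegree_le (m := x.2) (n := 1) hlin
    rw [mul_one] at h1
    rw [h1]
    congr 1
    rw [coeff_add, coeff_C_mul, coeff_X_one, mul_one, coeff_C_succ, zero_add]
  have h2 : (C (γ * x.1) *
      (C ((a + j0 * d : ℕ) : ℝ) + C ((q * d : ℕ) : ℝ) * X) ^ x.2).natDegree ≤ x.2 :=
    (natDegree_C_mul_le _ _).trans hpow
  refine ⟨C (γ * x.1) * (C ((a + j0 * d : ℕ) : ℝ) + C ((q * d : ℕ) : ℝ) * X) ^ x.2 * N,
    ?_, ?_, fun i hi => ?_⟩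
  · rw [dg_cons]
    exact natDegree_mul_le_of_le h2 hN
  · rw [dg_cons, coeff_mul_add_eq_of_natDegree_le h2 hN, coeff_C_mul, hpc, hNc, br]
    push_cast
    ring
  · rw [eval_mul, eval_mul, eval_pow, eval_add, eval_mul, eval_C, eval_C, eval_C, eval_X,
      hNe i hi, br]
    push_cast
    ring

end Pool.Agent.H65.TL
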