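import Pool.Agent.H65.TL.J

/-!
# The tower theorem
-/

set_option autoImplicit false

open Finset Polynomial
open scoped Nat

namespace Pool.Agent.H65.TL

/-- all non-trivial inner parts of the bracket polynomial are nearly integers at `d` -/
def Good (ε : ℝ) (l : List (ℝ × ℕ)) (d : ℕ) : Prop :=
  ∀ μ, μ ≠ [] → μ <:+ l → |br μ d - round (br μ d)| < ε

theorem Good.tail {ε : ℝ} {x : ℝ × ℕ} {l : List (ℝ × ℕ)} {d : ℕ} (h : Good ε (x :: l) d) :
    Good ε l d := fun μ h1 h2 => h μ h1 (h2.trans (List.suffix_cons x l))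

/-- the final index bound -/
theorem idx_bound (W X j0 q j1 q1 m T : ℕ) (hj1 : j1 ≤ W) (hq1 : q1 ≤ W) (hm : m ≤ X)
    (hT : W + W * X ≤ T) : j0 + (j1 + q1 * m) * q ≤ j0 + q * T := by
  have h1 : j1 + q1 * m ≤ T := by
    have := Nat.mul_le_mul hq1 hm
    omega
  have h2 := Nat.mul_le_mul_left q h1
  have h3 : (j1 + q1 * m) * q = q * (j1 + q1 * m) := Nat.mul_comm _ _
  omega

theorem round_window (y : ℝ) (h0 : -(1 / 2) ≤ y) (h1 : y < 3 / 2) :
    round y = if 0 ≤ y - 1 / 2 then 1 else 0 := by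
  rw [round_eq]
  split_ifs with h
  · rw [Int.floor_eq_iff]
    push_cast
    constructor <;> linarith
  · push Not at h
    rw [Int.floor_eq_iff]
    push_cast
    constructor <;> linarith

theorem tower {k Q G r W : ℕ} {C₀ δ : ℝ} (P : Par k Q G r W C₀ δ) (hW1 : 1 ≤ W) (Lm : ℕ)
    (ε' : ℝ) (hε : (k ! : ℝ) * ((W ^ Lm : ℕ) : ℝ) ^ k * ε' ≤ 1 / 4)
    (l : List (ℝ × ℕ)) (hl : l.length ≤ Lm) (hdg : dg l ≤ k) (hpos : ∀ x ∈ l, 1 ≤ x.2) (T : ℕ) :
    ∃ B : ℕ, ∀ a d : ℕ, Good ε' l d → (∃ μ, μ ≠ [] ∧ μ <:+ l ∧ Mov Q k G (br μ) a d B) ∨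
      ∃ j0 q : ℕ, 0 < q ∧ q ≤ W ^ l.length ∧ j0 + q * T ≤ B ∧ ∃ N : ℝ[X], N.natDegree ≤ dg l ∧
        N.coeff (dg l) = (q : ℝ) ^ (dg l) * (round (br l d) : ℝ) ∧
        ∀ i : ℕ, i ≤ T → N.eval (i : ℝ) = (round (br l (a + (j0 + i * q) * d)) : ℝ) := by
  induction l generalizing T with
  | nil =>
    refine ⟨T, fun a d _ => Or.inr ⟨0, 1, one_pos, by simp, by omega, 1, ?_, ?_, fun i _ => ?_⟩⟩
    · simp
    · simp [dg, br]
    · simp [br]
  | cons x ν ih =>
    have hC1 := P.C1
    have hG1 := P.G1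
    have hdc := dg_cons x ν
    have hx : 1 ≤ x.2 := hpos x List.mem_cons_self
    have hlen : (x :: ν).length = ν.length + 1 := rfl
    set e : ℕ := dg (x :: ν) with he
    have he1 : 1 ≤ e := by omega
    set T2 : ℕ := (e + 1) * (T + 1) with hT2
    set Lb : ℕ := ⌈2 * C₀ * T2⌉₊ + 1 with hLb
    set X0 : ℕ := T2 + Lb * (k * G) with hX0
    obtain ⟨B, hB⟩ := ih (by omega) (by omega) (fun y hy => hpos y (List.mem_cons_of_mem x hy))
      (W + W * X0)
    refine ⟨B, fun a d hgood => ?_⟩
    rcases hB a d hgood.tail with ⟨μ, hμ, hμ', hm⟩ | ⟨j0, q, hq, hqW, hqB, N, hN1, hN2, hN3⟩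
    · exact Or.inl ⟨μ, hμ, hμ'.trans (List.suffix_cons x ν), hm⟩
    obtain ⟨Z, hZ1, hZ2, hZ3⟩ := zpoly x ν 1 a d j0 q N hN1 hN2 (W + W * X0) hN3
    rw [← he] at hZ1 hZ2
    obtain ⟨j1, q1, I, R, D, w₀, hq1, hq1W, hj1, hw0, hw1, hR1, hI1, hR0, hRs, hI2, hI3, hR2,
      hZR⟩ := level P e he1 hdg Z hZ1
    have hXT : ∀ m ≤ X0, j1 + q1 * m ≤ W + W * X0 := by
      intro m hm
      have := Nat.mul_le_mul hq1W hm
      omega
    have hph : ∀ m ≤ X0, br (x :: ν) (a + (j0 + (j1 + q1 * m) * q) * d) =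
        R.eval (m : ℝ) + w₀ + I.eval (m : ℝ) := by
      intro m hm
      have h1 := hZ3 (j1 + q1 * m) (hXT m hm)
      rw [one_mul] at h1
      rw [← h1]
      exact hZR m
    by_cases hex : ∃ i ≤ e, 1 ≤ |R.eval ((i : ℝ) * (G * Lb))|
    · -- drift
      left
      refine ⟨x :: ν, List.cons_ne_nil _ _, List.suffix_refl _, ?_⟩
      refine mover P e hdg R I hR1 hR0 hRs hI2 w₀ Lb hex (br (x :: ν)) a d (j0 + j1 * q) (q1 * q) B
        (fun t ht => ?_) ?_
      · rw [← hph t (by omega)]
        congr 1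
        ring
      · have h1 := idx_bound W X0 j0 q j1 q1 (Lb * (k * G)) (W + W * X0) hj1 hq1W (by omega) le_rfl
        have h2 : j0 + j1 * q + Lb * (k * G) * (q1 * q) = j0 + (j1 + q1 * (Lb * (k * G))) * q := by
          ring
        omega
    · -- no drift
      right
      push Not at hex
      have hLbG : 2 * C₀ * T2 < (G : ℝ) * Lb := by
        have h1 : 2 * C₀ * T2 ≤ (⌈2 * C₀ * T2⌉₊ : ℝ) := Nat.le_ceil _
        have h2 : (Lb : ℝ) = (⌈2 * C₀ * T2⌉₊ : ℝ) + 1 := by
          rw [hLb]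
          push_cast
          ring
        have h3 : (1 : ℝ) ≤ G := by exact_mod_cast hG1
        have h4 : (0 : ℝ) ≤ (Lb : ℝ) := Nat.cast_nonneg _
        nlinarith
      have hnear : ∀ t : ℕ, t ≤ T2 → |R.eval (t : ℝ)| < 1 / 2 := by
        intro t ht
        refine near_const e he1 C₀ hC1 (P.lip e hdg) R hR1 hR0 ((G : ℝ) * Lb) hex t
          (Nat.cast_nonneg _) ?_
        refine lt_of_le_of_lt ?_ hLbG
        have : (t : ℝ) ≤ T2 := by exact_mod_cast ht
        nlinarith
      obtain ⟨j2, hj2, hsign⟩ := sign_run e T (R + C (w₀ - 1 / 2)) (by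
        refine (natDegree_add_le _ _).trans (max_le hR1 ?_)
        rw [natDegree_C]
        exact Nat.zero_le _)
      set b : ℤ := if 0 ≤ (R + C (w₀ - 1 / 2)).eval (j2 : ℝ) then 1 else 0 with hb
      have hround : ∀ i : ℕ, i ≤ T → (round (br (x :: ν)
          (a + (j0 + (j1 + q1 * (j2 + i)) * q) * d)) : ℝ) = I.eval ((j2 + i : ℕ) : ℝ) + b := by
        intro i hi
        have hi2 : j2 + i ≤ T2 := by omega
        have h1 := hph (j2 + i) (by omega)
        obtain ⟨z, hz⟩ := hI2 (j2 + i)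
        have h2 := abs_lt.1 (hnear (j2 + i) hi2)
        rw [h1, hz, round_add_intCast, round_window _ (by linarith [h2.1]) (by linarith [h2.2])]
        push_cast
        rw [add_comm]
        congr 1
        have h3 : R.eval ((j2 + i : ℕ) : ℝ) + w₀ - 1 / 2 =
            (R + C (w₀ - 1 / 2)).eval ((j2 + i : ℕ) : ℝ) := by
          rw [eval_add, eval_C]
          ring
        have h3' := hsign i hi
        rw [← h3] at h3'
        rw [hb]
        by_cases h4 : 0 ≤ (R + C (w₀ - 1 / 2)).eval (j2 : ℝ)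
        · have h5 := h3'.2 h4
          push_cast at h5
          rw [if_pos h4, if_pos h5]
          simp
        · have h5 : ¬ (0 ≤ R.eval ((j2 + i : ℕ) : ℝ) + w₀ - 1 / 2) := fun h => h4 (h3'.1 h)
          push_cast at h5
          rw [if_neg h4, if_neg h5]
          simp
      -- the value of `D`
      have hQt : q1 * q ≤ W ^ Lm := by
        calc q1 * q ≤ W * W ^ ν.length := Nat.mul_le_mul hq1W hqW
          _ = W ^ (x :: ν).length := by rw [hlen, pow_succ']
          _ ≤ W ^ Lm := Nat.pow_le_pow_right hW1 hl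
      have hD : (D : ℝ) / e ! = ((q1 * q : ℕ) : ℝ) ^ e * (round (br (x :: ν) d) : ℝ) := by
        have he0 : (0 : ℝ) < e ! := by exact_mod_cast Nat.factorial_pos e
        have hbr := hgood (x :: ν) (List.cons_ne_nil _ _) (List.suffix_refl _)
        have hRc : |R.coeff e| ≤ 2 * δ * ((e : ℝ) + 1) := by
          have hδ := P.d0
          have h1 := coeff_le e (C (1 / (2 * δ)) * R) ((natDegree_C_mul_le _ _).trans hR1)
            (fun i hi => by
              rw [eval_mul, eval_C, abs_mul, abs_of_pos (by positivity : 0 < 1 / (2 * δ))]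
              have := hRs i hi
              calc 1 / (2 * δ) * |R.eval (i : ℝ)| ≤ 1 / (2 * δ) * δ :=
                    mul_le_mul_of_nonneg_left this (by positivity)
                _ = 1 / 2 := by field_simp
                _ < 1 := by norm_num)
          rw [coeff_C_mul, abs_mul, abs_of_pos (by positivity : 0 < 1 / (2 * δ)), one_div,
            inv_mul_lt_iff₀ (by positivity)] at h1
          exact h1.le
        have h2 : (D : ℝ) - e ! * ((q1 * q : ℕ) : ℝ) ^ e * (round (br (x :: ν) d) : ℝ) =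
            e ! * ((q1 * q : ℕ) : ℝ) ^ e * (br (x :: ν) d - round (br (x :: ν) d)) -
              e ! * R.coeff e := by
          have h3 : (D : ℝ) = e ! * (Z.coeff e * (q1 : ℝ) ^ e - R.coeff e) := by
            rw [hR2]
            field_simp
            ring
          rw [h3, hZ2]
          push_cast
          rw [mul_pow]
          ring
        have h4 : |e ! * ((q1 * q : ℕ) : ℝ) ^ e * (br (x :: ν) d - round (br (x :: ν) d))| ≤
            1 / 4 := by
          rw [abs_mul, abs_of_nonneg (by positivity)]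
          have h5 : (e ! : ℝ) * ((q1 * q : ℕ) : ℝ) ^ e ≤ (k ! : ℝ) * ((W ^ Lm : ℕ) : ℝ) ^ k := by
            have h6 : e ! * (q1 * q) ^ e ≤ k ! * (W ^ Lm) ^ k := by
              refine Nat.mul_le_mul (Nat.factorial_le hdg) ?_
              calc (q1 * q) ^ e ≤ (W ^ Lm) ^ e := Nat.pow_le_pow_left hQt e
                _ ≤ (W ^ Lm) ^ k := Nat.pow_le_pow_right (Nat.pow_pos hW1) hdg
            exact_mod_cast h6
          calc (e ! : ℝ) * ((q1 * q : ℕ) : ℝ) ^ e * |br (x :: ν) d - round (br (x :: ν) d)|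
              ≤ (k ! : ℝ) * ((W ^ Lm : ℕ) : ℝ) ^ k * ε' :=
                mul_le_mul h5 hbr.le (abs_nonneg _) (by positivity)
            _ ≤ 1 / 4 := hε
        have h7 : |e ! * R.coeff e| ≤ 1 / 4 := by
          rw [abs_mul, abs_of_pos he0]
          calc (e ! : ℝ) * |R.coeff e| ≤ e ! * (2 * δ * ((e : ℝ) + 1)) :=
                mul_le_mul_of_nonneg_left hRc he0.le
            _ = 2 * δ * ((e : ℝ) + 1) * e ! := by ring
            _ ≤ 1 / 4 := P.d1 e hdg
        have h8 : |((D - e ! * ((q1 * q : ℕ) : ℤ) ^ e * round (br (x :: ν) d) : ℤ) : ℝ)| < 1 := by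
          push_cast
          push_cast at h2 h4
          rw [h2]
          refine lt_of_le_of_lt (abs_sub _ _) ?_
          linarith
        have h9 : D - e ! * ((q1 * q : ℕ) : ℤ) ^ e * round (br (x :: ν) d) = 0 := by
          rw [← Int.abs_lt_one_iff]
          exact_mod_cast h8
        have h10 : (D : ℝ) = e ! * ((q1 * q : ℕ) : ℝ) ^ e * (round (br (x :: ν) d) : ℝ) := by
          have : D = e ! * ((q1 * q : ℕ) : ℤ) ^ e * round (br (x :: ν) d) := by linarith
          rw [this]
          push_cast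
          ring
        rw [h10]
        field_simp
      refine ⟨j0 + (j1 + q1 * j2) * q, q1 * q, Nat.mul_pos hq1 hq, ?_, ?_,
        I.comp (C (j2 : ℝ) + C (1 : ℝ) * X) + C (b : ℝ), ?_, ?_, fun i hi => ?_⟩
      · rw [hlen, pow_succ']
        exact Nat.mul_le_mul hq1W hqW
      · have h1 := idx_bound W X0 j0 q j1 q1 (j2 + T) (W + W * X0) hj1 hq1W (by omega) le_rfl
        have h2 : j0 + (j1 + q1 * j2) * q + q1 * q * T = j0 + (j1 + q1 * (j2 + T)) * q := by
          ring
        omega
      · refine (natDegree_add_le _ _).trans (max_le ((natDegree_comp_le).trans ?_) ?_)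
        · have hlin : (C (j2 : ℝ) + C (1 : ℝ) * X).natDegree ≤ 1 := by
            refine (natDegree_add_le _ _).trans (max_le ?_ ?_)
            · rw [natDegree_C]
              exact Nat.zero_le _
            · exact (natDegree_C_mul_le _ _).trans natDegree_X_le
          calc I.natDegree * (C (j2 : ℝ) + C (1 : ℝ) * X).natDegree ≤ e * 1 :=
                Nat.mul_le_mul hI1 hlin
            _ = e := mul_one e
        · rw [natDegree_C]
          exact Nat.zero_le _
      · rw [coeff_add, coeff_comp_lin e I hI1, hI3, one_pow, mul_one, hD]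
        have : (C (b : ℝ)).coeff e = 0 := by
          rw [coeff_C, if_neg (by omega)]
        rw [this, add_zero]
      · rw [eval_add, eval_comp, eval_add, eval_mul, eval_C, eval_C, eval_C, eval_X, one_mul]
        have h1 := hround i hi
        have h2 : j0 + (j1 + q1 * (j2 + i)) * q = j0 + (j1 + q1 * j2) * q + i * (q1 * q) := by
          ring
        rw [h2] at h1
        rw [h1]
        push_cast
        ring

end Pool.Agent.H65.TL
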