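import Pool.Agent.H65.TL.K

/-!
# Bad differences give movers
-/

set_option autoImplicit false

open Finset Polynomial
open scoped Nat

namespace Pool.Agent.H65.TL

theorem bad_level {k Q G r W : ℕ} {C₀ δ : ℝ} (P : Par k Q G r W C₀ δ) (hW1 : 1 ≤ W) (Lm : ℕ)
    (ε' : ℝ) (hε' : 0 < ε') (hε : (k ! : ℝ) * ((W ^ Lm : ℕ) : ℝ) ^ k * ε' ≤ 1 / 4)
    (M : ℕ) (hM : 0 < M) (hMd : ∀ e ≤ k, ∀ q, 0 < q → q ≤ W ^ Lm → e ! * q ^ e ∣ M)
    (x : ℝ × ℕ) (ν : List (ℝ × ℕ)) (hl : (x :: ν).length ≤ Lm) (hdg : dg (x :: ν) ≤ k)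
    (hpos : ∀ y ∈ x :: ν, 1 ≤ y.2) :
    ∃ B : ℕ, ∀ a d : ℕ, Good ε' ν d → ε' ≤ |br (x :: ν) d - round (br (x :: ν) d)| →
      (∃ μ, μ ≠ [] ∧ μ <:+ ν ∧ Mov Q k G (br μ) a d B) ∨
        Mov Q k G (fun y => 1 / (M : ℝ) * br (x :: ν) y) a d B := by
  have hC1 := P.C1
  have hG1 := P.G1
  have hM' : (0 : ℝ) < M := by exact_mod_cast hM
  have hdc := dg_cons x ν
  have hx : 1 ≤ x.2 := hpos x List.mem_cons_self
  have hlen : (x :: ν).length = ν.length + 1 := rfl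
  set e : ℕ := dg (x :: ν) with he
  have he1 : 1 ≤ e := by omega
  set L0 : ℕ := ⌈((k : ℝ) + 1) * M / ε'⌉₊ with hL0
  obtain ⟨B, hB⟩ := tower P hW1 Lm ε' hε ν (by omega) (by omega)
    (fun y hy => hpos y (List.mem_cons_of_mem x hy)) (W + W * (L0 * (k * G)))
  refine ⟨B, fun a d hgood hbad => ?_⟩
  rcases hB a d hgood with hm | ⟨j0, q, hq, hqW, hqB, N, hN1, hN2, hN3⟩
  · exact Or.inl hm
  right
  obtain ⟨Z, hZ1, hZ2, hZ3⟩ := zpoly x ν (1 / (M : ℝ)) a d j0 q N hN1 hN2 _ hN3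
  rw [← he] at hZ1 hZ2
  obtain ⟨j1, q1, I, R, D, w₀, hq1, hq1W, hj1, hw0, hw1, hR1, hI1, hR0, hRs, hI2, hI3, hR2,
    hZR⟩ := level P e he1 hdg Z hZ1
  have hQt : q1 * q ≤ W ^ Lm := by
    calc q1 * q ≤ W * W ^ ν.length := Nat.mul_le_mul hq1W hqW
      _ = W ^ (x :: ν).length := by rw [hlen, pow_succ']
      _ ≤ W ^ Lm := Nat.pow_le_pow_right hW1 hl
  obtain ⟨m, hm⟩ := hMd e hdg (q1 * q) (Nat.mul_pos hq1 hq) hQt
  have hm0 : 0 < m := by
    rcases Nat.eq_zero_or_pos m with h | h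
    · rw [h, mul_zero] at hm
      omega
    · exact h
  have he0 : (0 : ℝ) < e ! := by exact_mod_cast Nat.factorial_pos e
  have hq' : (0 : ℝ) < q := by exact_mod_cast hq
  have hq1' : (0 : ℝ) < q1 := by exact_mod_cast hq1
  have hm0' : (0 : ℝ) < m := by exact_mod_cast hm0
  have hMr : (M : ℝ) = e ! * (((q1 : ℝ) * q) ^ e) * m := by
    rw [hm]
    push_cast
    ring
  have hη' : ε' / M ≤ |R.coeff e| := by
    have h1 : (m : ℝ) * e ! * R.coeff e = br (x :: ν) d - ((m * D : ℤ) : ℝ) := by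
      rw [hR2, hZ2, hMr]
      push_cast
      rw [mul_pow]
      field_simp
    have h2 : ε' ≤ (m : ℝ) * e ! * |R.coeff e| := by
      have h3 : (m : ℝ) * e ! * |R.coeff e| = |(m : ℝ) * e ! * R.coeff e| := by
        rw [abs_mul, abs_of_pos (mul_pos hm0' he0)]
      rw [h3, h1]
      exact hbad.trans (round_le _ _)
    rw [div_le_iff₀ hM']
    refine h2.trans ?_
    rw [mul_comm]
    refine mul_le_mul_of_nonneg_left ?_ (abs_nonneg _)
    have h4 : m * e ! ≤ M := by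
      rw [hm]
      have : 1 ≤ (q1 * q) ^ e := Nat.one_le_pow _ _ (Nat.mul_pos hq1 hq)
      calc m * e ! = e ! * 1 * m := by ring
        _ ≤ e ! * (q1 * q) ^ e * m := Nat.mul_le_mul_right _ (Nat.mul_le_mul_left _ this)
    exact_mod_cast h4
  have hex := coeff_big e he1 G hG1 R hR1 (ε' / M) (by positivity) hη' L0 (by
    refine le_trans ?_ (Nat.le_ceil _)
    rw [div_div_eq_mul_div]
    refine div_le_div_of_nonneg_right ?_ hε'.le
    have : (e : ℝ) ≤ k := by exact_mod_cast hdg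
    nlinarith)
  refine mover P e hdg R I hR1 hR0 hRs hI2 w₀ L0 hex _ a d (j0 + j1 * q) (q1 * q) B
    (fun t ht => ?_) ?_
  · have h1 : j1 + q1 * t ≤ W + W * (L0 * (k * G)) := by
      have := Nat.mul_le_mul hq1W ht
      omega
    have h2 := hZ3 (j1 + q1 * t) h1
    rw [← hZR t, h2]
    congr 2
    ring
  · have h1 := idx_bound W (L0 * (k * G)) j0 q j1 q1 (L0 * (k * G)) _ hj1 hq1W le_rfl le_rfl
    have h2 : j0 + j1 * q + L0 * (k * G) * (q1 * q) = j0 + (j1 + q1 * (L0 * (k * G))) * q := by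
      ring
    omega

theorem all_levels {k Q G r W : ℕ} {C₀ δ : ℝ} (P : Par k Q G r W C₀ δ) (hW1 : 1 ≤ W) (Lm : ℕ)
    (ε' : ℝ) (hε' : 0 < ε') (hε : (k ! : ℝ) * ((W ^ Lm : ℕ) : ℝ) ^ k * ε' ≤ 1 / 4)
    (M : ℕ) (hM : 0 < M) (hMd : ∀ e ≤ k, ∀ q, 0 < q → q ≤ W ^ Lm → e ! * q ^ e ∣ M)
    (l : List (ℝ × ℕ)) (hl : l.length ≤ Lm) (hdg : dg l ≤ k) (hpos : ∀ y ∈ l, 1 ≤ y.2) :
    ∃ B : ℕ, ∀ a d : ℕ, ¬ Good ε' l d → ∃ μ, μ ≠ [] ∧ μ <:+ l ∧
      (Mov Q k G (br μ) a d B ∨ Mov Q k G (fun y => 1 / (M : ℝ) * br μ y) a d B) := by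
  induction l with
  | nil =>
    refine ⟨0, fun a d h => absurd ?_ h⟩
    intro μ h1 h2
    exact absurd (List.suffix_nil.1 h2) h1
  | cons x ν ih =>
    have hdc := dg_cons x ν
    have hlen : (x :: ν).length = ν.length + 1 := rfl
    obtain ⟨B1, hB1⟩ := ih (by omega) (by omega) (fun y hy => hpos y (List.mem_cons_of_mem x hy))
    obtain ⟨B2, hB2⟩ := bad_level P hW1 Lm ε' hε' hε M hM hMd x ν hl hdg hpos
    refine ⟨max B1 B2, fun a d hbad => ?_⟩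
    by_cases hgood : Good ε' ν d
    · have hb : ε' ≤ |br (x :: ν) d - round (br (x :: ν) d)| := by
        by_contra hcon
        push Not at hcon
        refine hbad fun μ h1 h2 => ?_
        rcases List.suffix_cons_iff.1 h2 with h3 | h3
        · rw [h3]
          exact hcon
        · exact hgood μ h1 h3
      rcases hB2 a d hgood hb with ⟨μ, h1, h2, h3⟩ | h3
      · exact ⟨μ, h1, h2.trans (List.suffix_cons x ν), Or.inl (h3.mono (le_max_right _ _))⟩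
      · exact ⟨x :: ν, List.cons_ne_nil _ _, List.suffix_refl _,
          Or.inr (h3.mono (le_max_right _ _))⟩
    · obtain ⟨μ, h1, h2, h3⟩ := hB1 a d hgood
      refine ⟨μ, h1, h2.trans (List.suffix_cons x ν), ?_⟩
      rcases h3 with h3 | h3
      · exact Or.inl (h3.mono (le_max_left _ _))
      · exact Or.inr (h3.mono (le_max_left _ _))

end Pool.Agent.H65.TL
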