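import Pool.Agent.H65.TL.Nil

/-!
# Recurrence in the nilmanifolds `U_n(ℝ)/U_n(ℤ)`
-/

set_option autoImplicit false

open Finset Polynomial
open scoped Nat

namespace Pool.Agent.H65.TL

/-- the function is a sum of bracket polynomials as long as some bracket polynomials are nearly
integers -/
def Adm (f : ℕ → ℝ) : Prop := ∃ S S' : List (List (ℝ × ℕ)), ∃ η : ℝ, 0 < η ∧
  (∀ l ∈ S, ∀ y ∈ l, 1 ≤ y.2) ∧ (∀ l ∈ S', ∀ y ∈ l, 1 ≤ y.2) ∧
  ∀ x : ℕ, (∀ l ∈ S, |br l x - round (br l x)| < η) → f x = (S'.map fun l => br l x).sum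

theorem Adm.zero : Adm fun _ => 0 := ⟨[], [], 1, one_pos, by simp, by simp, by simp⟩

theorem Adm.add {f g : ℕ → ℝ} (hf : Adm f) (hg : Adm g) : Adm fun x => f x + g x := by
  obtain ⟨S, S', η, hη, h1, h2, h3⟩ := hf
  obtain ⟨R, R', θ, hθ, k1, k2, k3⟩ := hg
  refine ⟨S ++ R, S' ++ R', min η θ, lt_min hη hθ, ?_, ?_, fun x hx => ?_⟩
  · intro l hl
    rcases List.mem_append.1 hl with h | h
    · exact h1 l h
    · exact k1 l h
  · intro l hl
    rcases List.mem_append.1 hl with h | h
    · exact h2 l h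
    · exact k2 l h
  · change f x + g x = _
    rw [List.map_append, List.sum_append,
      h3 x fun l hl => lt_of_lt_of_le (hx l (List.mem_append_left _ hl)) (min_le_left _ _),
      k3 x fun l hl => lt_of_lt_of_le (hx l (List.mem_append_right _ hl)) (min_le_right _ _)]

theorem Adm.sum {ι : Type} (s : Finset ι) (f : ι → ℕ → ℝ) (hf : ∀ i ∈ s, Adm (f i)) :
    Adm fun x => ∑ i ∈ s, f i x := by
  classical
  induction s using Finset.induction_on with
  | empty => simpa using Adm.zero
  | insert a s ha ih =>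
    have h1 := (hf a (Finset.mem_insert_self a s)).add
      (ih fun i hi => hf i (Finset.mem_insert_of_mem hi))
    simpa only [Finset.sum_insert ha] using h1

theorem sum_round (S : List (List (ℝ × ℕ))) (x : ℕ) (η : ℝ)
    (h : ∀ l ∈ S, |br l x - round (br l x)| < η) :
    |(S.map fun l => br l x).sum - (((S.map fun l => round (br l x)).sum : ℤ) : ℝ)| ≤
      S.length * η := by
  induction S with
  | nil => simp
  | cons l S ih =>
    have h1 := ih fun l' hl' => h l' (List.mem_cons_of_mem l hl')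
    have h2 := (h l List.mem_cons_self).le
    rw [List.map_cons, List.sum_cons, List.map_cons, List.sum_cons, List.length_cons,
      Int.cast_add, Nat.cast_succ]
    have h3 : br l x + (S.map fun l => br l x).sum -
        ((round (br l x) : ℝ) + (((S.map fun l => round (br l x)).sum : ℤ) : ℝ)) =
        (br l x - round (br l x)) + ((S.map fun l => br l x).sum -
          (((S.map fun l => round (br l x)).sum : ℤ) : ℝ)) := by ring
    rw [h3]
    refine (abs_add_le _ _).trans ?_
    linarith

theorem round_unique (y : ℝ) (z : ℤ) (h : |y - z| < 1 / 2) : round y = z := by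
  have h1 := abs_lt.1 h
  rw [round_eq, Int.floor_eq_iff]
  constructor <;> linarith [h1.1, h1.2]

theorem Adm.near {f : ℕ → ℝ} (hf : Adm f) (ε : ℝ) (hε : 0 < ε) :
    ∃ (S : List (List (ℝ × ℕ))) (η : ℝ), 0 < η ∧ (∀ l ∈ S, ∀ y ∈ l, 1 ≤ y.2) ∧
      ∀ x : ℕ, (∀ l ∈ S, |br l x - round (br l x)| < η) → |f x - round (f x)| < ε := by
  obtain ⟨S, S', η, hη, h1, h2, h3⟩ := hf
  refine ⟨S ++ S', min η (ε / (S'.length + 1)), lt_min hη (by positivity), ?_, fun x hx => ?_⟩
  · intro l hl
    rcases List.mem_append.1 hl with h | h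
    · exact h1 l h
    · exact h2 l h
  · rw [h3 x fun l hl => lt_of_lt_of_le (hx l (List.mem_append_left _ hl)) (min_le_left _ _)]
    refine lt_of_le_of_lt (round_le _ (S'.map fun l => round (br l x)).sum) ?_
    refine lt_of_le_of_lt (sum_round S' x (ε / (S'.length + 1)) fun l hl =>
      lt_of_lt_of_le (hx l (List.mem_append_right _ hl)) (min_le_right _ _)) ?_
    rw [← mul_div_assoc, div_lt_iff₀ (by positivity)]
    nlinarith

theorem list_range_sum (n : ℕ) (f : ℕ → ℝ) : ((List.range n).map f).sum = ∑ m ∈ range n, f m := by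
  induction n with
  | zero => simp
  | succ n ih => rw [List.range_succ, List.map_append, List.sum_append, ih, Finset.sum_range_succ,
      List.map_singleton, List.sum_singleton]

/-- the list of products -/
theorem prod_list (p : ℝ[X]) (hp : p.eval 0 = 0) (S : List (List (ℝ × ℕ)))
    (hS : ∀ l ∈ S, ∀ y ∈ l, 1 ≤ y.2) : ∃ R : List (List (ℝ × ℕ)),
      (∀ l ∈ R, ∀ y ∈ l, 1 ≤ y.2) ∧ ∀ x : ℕ, (R.map fun l => br l x).sum =
        p.eval (x : ℝ) * (((S.map fun l => round (br l x)).sum : ℤ) : ℝ) := by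
  induction S with
  | nil => exact ⟨[], by simp, by simp⟩
  | cons l S ih =>
    obtain ⟨R, hR1, hR2⟩ := ih fun l' hl' => hS l' (List.mem_cons_of_mem l hl')
    refine ⟨((List.range p.natDegree).map fun m => (p.coeff (m + 1), m + 1) :: l) ++ R, ?_,
      fun x => ?_⟩
    · intro l' hl'
      rcases List.mem_append.1 hl' with h | h
      · obtain ⟨m, _, rfl⟩ := List.mem_map.1 h
        intro y hy
        rcases List.mem_cons.1 hy with h1 | h1
        · rw [h1]
          exact Nat.succ_pos m
        · exact hS l List.mem_cons_self y h1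
      · exact hR1 l' h
    · rw [List.map_append, List.sum_append, hR2, List.map_cons, List.sum_cons, List.map_map]
      push_cast
      rw [mul_add]
      congr 1
      have h1 := list_range_sum p.natDegree ((fun l => br l x) ∘ fun m =>
          (p.coeff (m + 1), m + 1) :: l)
      rw [h1, Polynomial.eval_eq_sum_range, Finset.sum_range_succ', pow_zero, mul_one,
        Polynomial.coeff_zero_eq_eval_zero, hp, add_zero, Finset.sum_mul]
      exact Finset.sum_congr rfl fun m _ => rfl

theorem Adm.poly (p : ℝ[X]) (hp : p.eval 0 = 0) : Adm fun x => p.eval (x : ℝ) := by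
  obtain ⟨R, hR1, hR2⟩ := prod_list p hp [[]] (by simp)
  refine ⟨[], R, 1, one_pos, by simp, hR1, fun x _ => ?_⟩
  rw [hR2 x]
  simp [br]

theorem Adm.mul_round {f : ℕ → ℝ} (hf : Adm f) (p : ℝ[X]) (hp : p.eval 0 = 0) :
    Adm fun x => p.eval (x : ℝ) * (round (f x) : ℝ) := by
  obtain ⟨S, S', η, hη, h1, h2, h3⟩ := hf
  obtain ⟨R, hR1, hR2⟩ := prod_list p hp S' h2
  refine ⟨S ++ S', R, min η (1 / (2 * ((S'.length : ℝ) + 1))), lt_min hη (by positivity), ?_, hR1,
    fun x hx => ?_⟩
  · intro l hl
    rcases List.mem_append.1 hl with h | h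
    · exact h1 l h
    · exact h2 l h
  · change p.eval (x : ℝ) * (round (f x) : ℝ) = _
    rw [hR2 x]
    congr 2
    refine round_unique _ _ ?_
    rw [h3 x fun l hl => lt_of_lt_of_le (hx l (List.mem_append_left _ hl)) (min_le_left _ _)]
    refine lt_of_le_of_lt (sum_round S' x (1 / (2 * ((S'.length : ℝ) + 1))) fun l hl =>
      lt_of_lt_of_le (hx l (List.mem_append_right _ hl)) (min_le_right _ _)) ?_
    rw [mul_one_div, div_lt_div_iff₀ (by positivity) (by positivity)]
    linarith

/-- solving a triangular system -/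
theorem solve (n : ℕ) (U : Fin n → Fin n → ℝ[X]) (hU : ∀ i j, (U i j).eval 0 = 0)
    (v : Fin n → ℕ → ℝ) (hv : ∀ i, Adm (v i)) : ∃ f : Fin n → ℕ → ℝ, (∀ i, Adm (f i)) ∧
      ∀ i x, f i x = v i x + ∑ j, if i < j then (U i j).eval (x : ℝ) * (-(round (f j x) : ℝ))
        else 0 := by
  induction n with
  | zero => exact ⟨fun i => i.elim0, fun i => i.elim0, fun i => i.elim0⟩
  | succ n ih =>
    obtain ⟨f, hf1, hf2⟩ := ih (fun i j => U i.succ j.succ) (fun i j => hU _ _)
      (fun i => v i.succ) (fun i => hv _)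
    have h0 : Adm fun x => v 0 x + ∑ j : Fin n,
        (-(U 0 j.succ)).eval (x : ℝ) * (round (f j x) : ℝ) :=
      (hv 0).add (Adm.sum univ _ fun j _ => (hf1 j).mul_round _ (by
        rw [eval_neg, hU, neg_zero]))
    refine ⟨Fin.cons (fun x => v 0 x + ∑ j : Fin n,
        (-(U 0 j.succ)).eval (x : ℝ) * (round (f j x) : ℝ)) f, fun i => ?_, fun i x => ?_⟩
    · refine Fin.cases ?_ (fun i' => ?_) i
      · rw [Fin.cons_zero]
        exact h0
      · rw [Fin.cons_succ]
        exact hf1 i'
    · refine Fin.cases ?_ (fun i' => ?_) i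
      · rw [Fin.sum_univ_succ]
        simp only [Fin.cons_zero, Fin.cons_succ, lt_irrefl, if_false, zero_add, Fin.succ_pos,
          if_true]
        congr 1
        refine Finset.sum_congr rfl fun j _ => ?_
        rw [eval_neg]
        ring
      · rw [Fin.sum_univ_succ]
        simp only [Fin.cons_zero, Fin.cons_succ, Fin.succ_lt_succ_iff]
        rw [if_neg (Fin.not_lt_zero _), zero_add]
        exact hf2 i' x

end Pool.Agent.H65.TL
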