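import Pool.Agent.H65.TL.Mat

/-!
# Recurrence in the nilmanifolds `U_n(ℝ)/U_n(ℤ)`
-/

set_option autoImplicit false

open Finset Polynomial
open scoped Nat

namespace Pool.Agent.H65.TL

/-- reduction of a unitriangular matrix modulo integer matrices, bracket polynomial form -/
theorem red (n : ℕ) (U : Fin n → Fin n → ℝ[X]) (hU : ∀ i j, (U i j).eval 0 = 0)
    (hU' : ∀ i j, j ≤ i → U i j = 0) (ε : ℝ) (hε : 0 < ε) :
    ∃ (S : List (List (ℝ × ℕ))) (η : ℝ), 0 < η ∧ (∀ l ∈ S, ∀ y ∈ l, 1 ≤ y.2) ∧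
      ∀ x : ℕ, (∀ l ∈ S, |br l x - round (br l x)| < η) → ∃ b : Fin n → Fin n → ℤ,
        (∀ i j, j ≤ i → b i j = 0) ∧ ∀ i j,
          |(U i j).eval (x : ℝ) + b i j + ∑ k, (U i k).eval (x : ℝ) * b k j| < ε := by
  classical
  choose f hf1 hf2 using fun c : Fin n => solve n U hU (fun i x => (U i c).eval (x : ℝ))
    (fun i => Adm.poly _ (hU i c))
  choose S η hη hS hnear using fun c i => (hf1 c i).near ε hε
  -- vanishing below the diagonal
  have hzero : ∀ c x, ∀ m : ℕ, ∀ i : Fin n, c ≤ i → n ≤ (i : ℕ) + m → f c i x = 0 := by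
    intro c x m
    induction m with
    | zero =>
      intro i _ h
      have := i.2
      omega
    | succ m ih =>
      intro i hi h
      rw [hf2 c i x, hU' i c hi, eval_zero, zero_add]
      refine Finset.sum_eq_zero fun j _ => ?_
      split_ifs with h1
      · rw [ih j (hi.trans h1.le) (by
          have : (i : ℕ) < j := h1
          omega), round_zero, Int.cast_zero, neg_zero, mul_zero]
      · rfl
  obtain ⟨η₀, hη₀, hη₀'⟩ : ∃ η₀ : ℝ, 0 < η₀ ∧ ∀ c i, η₀ ≤ η c i := by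
    rcases Nat.eq_zero_or_pos n with h | h
    · subst h
      exact ⟨1, one_pos, fun c => c.elim0⟩
    · have : Nonempty (Fin n × Fin n) := ⟨(⟨0, h⟩, ⟨0, h⟩)⟩
      obtain ⟨p, hp⟩ := Finite.exists_min fun p : Fin n × Fin n => η p.1 p.2
      exact ⟨η p.1 p.2, hη _ _, fun c i => hp (c, i)⟩
  refine ⟨(List.ofFn fun c => (List.ofFn fun i => S c i).flatten).flatten, η₀, hη₀, ?_,
    fun x hx => ?_⟩
  · intro l hl
    rw [List.mem_flatten] at hl
    obtain ⟨L1, hL1, hl1⟩ := hl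
    rw [List.mem_ofFn] at hL1
    obtain ⟨c, rfl⟩ := hL1
    rw [List.mem_flatten] at hl1
    obtain ⟨L2, hL2, hl2⟩ := hl1
    rw [List.mem_ofFn] at hL2
    obtain ⟨i, rfl⟩ := hL2
    exact hS c i l hl2
  · have hx' : ∀ c i, ∀ l ∈ S c i, |br l x - round (br l x)| < η c i := by
      intro c i l hl
      refine lt_of_lt_of_le (hx l ?_) (hη₀' c i)
      rw [List.mem_flatten]
      refine ⟨_, (List.mem_ofFn).2 ⟨c, rfl⟩, ?_⟩
      rw [List.mem_flatten]
      exact ⟨_, (List.mem_ofFn).2 ⟨i, rfl⟩, hl⟩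
    refine ⟨fun i c => -round (f c i x), fun i c h => ?_, fun i c => ?_⟩
    · change -round (f c i x) = 0
      rw [hzero c x n i h (by omega), round_zero, neg_zero]
    · have h1 : ∑ k, (U i k).eval (x : ℝ) * ((-round (f c k x) : ℤ) : ℝ) =
          ∑ j, if i < j then (U i j).eval (x : ℝ) * (-(round (f c j x) : ℝ)) else 0 := by
        refine Finset.sum_congr rfl fun j _ => ?_
        split_ifs with h2
        · push_cast
          ring
        · rw [hU' i j (not_lt.1 h2), eval_zero, zero_mul]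
      have h2 := hf2 c i x
      have h3 : (U i c).eval (x : ℝ) + ((-round (f c i x) : ℤ) : ℝ) +
          ∑ k, (U i k).eval (x : ℝ) * ((-round (f c k x) : ℤ) : ℝ) =
          f c i x - round (f c i x) := by
        rw [h1]
        have h5 := h2.symm
        push_cast
        linarith
      rw [h3]
      exact hnear c i x (hx' c i)

/-- the same for matrices -/
theorem red_matrix (n : ℕ) (P : Matrix (Fin n) (Fin n) ℝ[X]) (h1 : ∀ i, P i i = 1)
    (h2 : ∀ i j, j < i → P i j = 0) (h3 : ∀ i j, i < j → (P i j).eval 0 = 0) (ε : ℝ)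
    (hε : 0 < ε) :
    ∃ (S : List (List (ℝ × ℕ))) (η : ℝ), 0 < η ∧ (∀ l ∈ S, ∀ y ∈ l, 1 ≤ y.2) ∧
      ∀ x : ℕ, (∀ l ∈ S, |br l x - round (br l x)| < η) → ∃ γ : Matrix (Fin n) (Fin n) ℤ,
        (∀ i, γ i i = 1) ∧ (∀ i j, j < i → γ i j = 0) ∧ ∀ i j,
          |((P.map fun p => p.eval (x : ℝ)) * (γ.map fun z => (z : ℝ))) i j -
            (1 : Matrix (Fin n) (Fin n) ℝ) i j| < ε := by
  classical
  obtain ⟨S, η, hη, hS, hred⟩ := red n (fun i j => if i < j then P i j else 0) (by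
    intro i j
    split_ifs with h
    · exact h3 i j h
    · exact eval_zero) (by
    intro i j h
    exact if_neg (not_lt.2 h)) ε hε
  refine ⟨S, η, hη, hS, fun x hx => ?_⟩
  obtain ⟨b, hb1, hb2⟩ := hred x hx
  refine ⟨fun i j => (if i = j then 1 else 0) + b i j, fun i => ?_, fun i j h => ?_,
    fun i j => ?_⟩
  · change (if i = i then 1 else 0) + b i i = 1
    rw [if_pos rfl, hb1 i i le_rfl, add_zero]
  · change (if i = j then 1 else 0) + b i j = 0
    rw [if_neg (ne_of_gt h), hb1 i j h.le, add_zero]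
  · have hP : ∀ k, (P i k).eval (x : ℝ) = (if i = k then 1 else 0) +
        (if i < k then P i k else 0).eval (x : ℝ) := by
      intro k
      rcases lt_trichotomy i k with h | h | h
      · rw [if_neg (ne_of_lt h), if_pos h, zero_add]
      · rw [if_pos h, if_neg (by rw [h]; exact lt_irrefl _), eval_zero, add_zero, ← h, h1,
          eval_one]
      · rw [if_neg (ne_of_gt h), if_neg (not_lt.2 h.le), eval_zero, add_zero, h2 i k h, eval_zero]
    have h4 : ((P.map fun p => p.eval (x : ℝ)) *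
        (Matrix.map (fun i j => (if i = j then 1 else 0) + b i j : Matrix (Fin n) (Fin n) ℤ)
          fun z => (z : ℝ))) i j - (1 : Matrix (Fin n) (Fin n) ℝ) i j =
        (if i < j then P i j else 0).eval (x : ℝ) + b i j +
          ∑ k, (if i < k then P i k else 0).eval (x : ℝ) * b k j := by
      have hγ : ∀ k, (Matrix.map (fun i j => (if i = j then 1 else 0) + b i j :
          Matrix (Fin n) (Fin n) ℤ) fun z => (z : ℝ)) k j = (if k = j then 1 else 0) + b k j := by
        intro k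
        change (((if k = j then 1 else 0) + b k j : ℤ) : ℝ) = _
        split_ifs <;> push_cast <;> rfl
      have hPm : ∀ k, (P.map fun p => p.eval (x : ℝ)) i k = (if i = k then 1 else 0) +
        (if i < k then P i k else 0).eval (x : ℝ) := fun k => hP k
      rw [Matrix.mul_apply]
      simp only [hPm, hγ, Matrix.one_apply]
      simp only [add_mul, mul_add, Finset.sum_add_distrib, ite_mul, one_mul, zero_mul, mul_ite,
        mul_one, mul_zero, Finset.sum_ite_eq, Finset.sum_ite_eq', Finset.mem_univ, if_true]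
      ring
    rw [h4]
    exact hb2 i j

/-- simultaneous recurrence -/
theorem mat_rec (A : Set ℕ)
    (hA : ∀ f : ℕ → Fin 2, ∀ K : ℕ, ∃ a d : ℕ, 0 < a ∧ d ∈ A ∧ ∀ i < K, f (a + i * d) = f a)
    (m : ℕ) (n : Fin m → ℕ) (P : ∀ t, Matrix (Fin (n t)) (Fin (n t)) ℝ[X])
    (h1 : ∀ t i, P t i i = 1) (h2 : ∀ t i j, j < i → P t i j = 0)
    (h3 : ∀ t i j, i < j → (P t i j).eval 0 = 0) (ε : ℝ) (hε : 0 < ε) :
    ∃ d ∈ A, ∀ t, ∃ γ : Matrix (Fin (n t)) (Fin (n t)) ℤ,
      (∀ i, γ i i = 1) ∧ (∀ i j, j < i → γ i j = 0) ∧ ∀ i j,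
        |(((P t).map fun p => p.eval (d : ℝ)) * (γ.map fun z => (z : ℝ))) i j -
          (1 : Matrix (Fin (n t)) (Fin (n t)) ℝ) i j| < ε := by
  classical
  choose S η hη hS hred using fun t => red_matrix (n t) (P t) (h1 t) (h2 t) (h3 t) ε hε
  obtain ⟨η₀, hη₀, hη₀'⟩ : ∃ η₀ : ℝ, 0 < η₀ ∧ ∀ t, η₀ ≤ η t := by
    rcases Nat.eq_zero_or_pos m with h | h
    · subst h
      exact ⟨1, one_pos, fun c => c.elim0⟩
    · have : Nonempty (Fin m) := ⟨⟨0, h⟩⟩
      obtain ⟨p, hp⟩ := Finite.exists_min η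
      exact ⟨η p, hη _, hp⟩
  obtain ⟨d, hd, hd'⟩ := nil_bohr (ι := Σ t : Fin m, Fin (S t).length) A hA
    (fun y => (S y.1).get y.2) (fun y => hS y.1 _ (List.get_mem _ _)) η₀ hη₀
  refine ⟨d, hd, fun t => hred t d fun l hl => ?_⟩
  obtain ⟨y, hy⟩ := List.get_of_mem hl
  have h4 := hd' ⟨t, y⟩
  simp only at h4
  rw [hy] at h4
  exact lt_of_lt_of_le h4 (hη₀' t)

end Pool.Agent.H65.TL
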