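import Pool.Agent.H65.TL.L

/-!
# `2`-large sets are sets of Nil-Bohr recurrence
-/

set_option autoImplicit false

open Finset Polynomial
open scoped Nat

namespace Pool.Agent.H65.TL

theorem exists_Par (k Q c₀ : ℕ) (C₀ : ℝ) (hC1 : 1 ≤ C₀) (hc₀ : C₀ ≤ c₀)
    (hC : ∀ e ≤ k, ∀ P : ℝ[X], P.natDegree ≤ e →
      (∀ i : ℕ, i ≤ e → |P.eval (i : ℝ)| ≤ 1) → ∀ s t : ℝ, 0 ≤ s → s ≤ 2 * e → 0 ≤ t →
        t ≤ 2 * e → |P.eval t - P.eval s| ≤ C₀ * |t - s|) (hQ : 0 < Q) :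
    ∃ (r W : ℕ) (δ : ℝ), 1 ≤ W ∧ Par k Q (2 * c₀ * Q) r W C₀ δ := by
  have hc1 : 1 ≤ c₀ := by
    have : (1 : ℝ) ≤ c₀ := hC1.trans hc₀
    exact_mod_cast this
  obtain ⟨δ₀, hδ₀, hsmall⟩ := exists_small k (2 * c₀ * Q)
  have hk0 : (0 : ℝ) < k ! := by exact_mod_cast Nat.factorial_pos k
  set δ : ℝ := min δ₀ (1 / (8 * ((k : ℝ) + 1) * k !)) with hδ
  have hδ0 : 0 < δ := lt_min hδ₀ (by positivity)
  obtain ⟨W, hW⟩ := vdw ⌈1 / δ⌉₊ k
  have hr0 : 0 < ⌈1 / δ⌉₊ := Nat.ceil_pos.2 (by positivity)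
  refine ⟨⌈1 / δ⌉₊, W, δ, ?_, hC1, hC, Nat.mul_pos (by omega) hQ, hQ, ?_, hδ0, ?_, ?_, hr0,
    Nat.le_ceil _, hW⟩
  · obtain ⟨j0, q, hq, hqW, _⟩ := hW (fun _ => ⟨0, hr0⟩)
    omega
  · push_cast
    have hQ0 : (0 : ℝ) ≤ Q := Nat.cast_nonneg _
    nlinarith
  · intro e he
    have h1 : δ ≤ 1 / (8 * ((k : ℝ) + 1) * k !) := min_le_right _ _
    have h2 : (e : ℝ) ≤ k := by exact_mod_cast he
    have h3 : (e ! : ℝ) ≤ k ! := by exact_mod_cast Nat.factorial_le he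
    have he0 : (0 : ℝ) < e ! := by exact_mod_cast Nat.factorial_pos e
    calc 2 * δ * ((e : ℝ) + 1) * e ! ≤ 2 * δ * ((k : ℝ) + 1) * k ! := by
          refine mul_le_mul ?_ h3 he0.le (by positivity)
          exact mul_le_mul_of_nonneg_left (by linarith) (by positivity)
      _ ≤ 2 * (1 / (8 * ((k : ℝ) + 1) * k !)) * ((k : ℝ) + 1) * k ! := by
          refine mul_le_mul_of_nonneg_right (mul_le_mul_of_nonneg_right ?_ (by positivity)) hk0.le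
          linarith
      _ = 1 / 4 := by
          field_simp
          norm_num
  · intro e he R hR hb i hi
    exact hsmall e he R hR (fun j hj => (hb j hj).trans (min_le_left _ _)) i hi

/-- a `2`-colouring of the cells for which no pattern which visits all cells of one coordinate is
monochromatic -/
theorem colour {κ : Type} [Fintype κ] (Q : ℕ) (hQ : 0 < Q) (n : ℕ)
    (Pf : κ → Finset (Fin n → ZMod Q)) (hcard : ∏ y, (Pf y).card < 2 ^ (Q - 1)) :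
    ∃ c : (κ → ZMod Q) → Bool, ∀ g : κ → Fin n → ZMod Q, (∀ y, g y ∈ Pf y) → ∀ y0,
      (∀ b : ZMod Q, ∃ j, g y0 j = b) → ∀ b : Bool, ∃ j, c (fun y => g y j) = b := by
  classical
  have : NeZero Q := ⟨by omega⟩
  let mk : (κ → Fin n → ZMod Q) → Finset (κ → ZMod Q) := fun g =>
    univ.image fun j : Fin n => fun y => g y j
  let Ed : Finset (Finset (κ → ZMod Q)) :=
    ((Fintype.piFinset Pf).image mk).filter fun E => Q ≤ E.card
  have hEd : Ed.card < 2 ^ (Q - 1) := by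
    calc Ed.card ≤ ((Fintype.piFinset Pf).image mk).card := Finset.card_filter_le _ _
      _ ≤ (Fintype.piFinset Pf).card := Finset.card_image_le
      _ = ∏ y, (Pf y).card := by
          rw [Fintype.card_piFinset]
      _ < 2 ^ (Q - 1) := hcard
  obtain ⟨c, hc⟩ := propB Ed Q (fun E hE => (Finset.mem_filter.1 hE).2) hQ hEd
  refine ⟨c, fun g hg y0 hvis b => ?_⟩
  have hE1 : mk g ∈ Ed := by
    refine Finset.mem_filter.2 ⟨Finset.mem_image.2 ⟨g, ?_, rfl⟩, ?_⟩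
    · rw [Fintype.mem_piFinset]
      exact hg
    · have h1 : (univ : Finset (ZMod Q)) ⊆ (mk g).image fun z => z y0 := by
        intro b _
        obtain ⟨j, hjb⟩ := hvis b
        exact Finset.mem_image.2 ⟨fun y => g y j,
          Finset.mem_image.2 ⟨j, Finset.mem_univ _, rfl⟩, hjb⟩
      have h2 := (Finset.card_le_card h1).trans Finset.card_image_le
      rwa [Finset.card_univ, ZMod.card] at h2
  obtain ⟨y1, hy1, hy1'⟩ := hc _ hE1 b
  obtain ⟨j1, _, hj1⟩ := Finset.mem_image.1 hy1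
  exact ⟨j1, by rw [hj1, hy1']⟩

/-- the pattern of a coordinate -/
theorem drop_pattern (k N Q : ℕ) (l : List (ℝ × ℕ)) (hl : dg l ≤ k) (m : ℕ) (hm : m < l.length)
    (γ : ℝ) (a d s t : ℕ) :
    (fun j : Fin N => ((⌊(Q : ℝ) * (γ * br (l.drop m) (a + (s + (j : ℕ) * t) * d))⌋ : ℤ) :
      ZMod Q)) ∈ PatC k N Q (l.length - m - 1) := by
  have hne : l.drop m ≠ [] := by
    rw [ne_eq, List.drop_eq_nil_iff]
    omega
  obtain ⟨x, ν, hxν⟩ := List.exists_cons_of_ne_nil hne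
  have hlenν : ν.length = l.length - m - 1 := by
    have := congrArg List.length hxν
    rw [List.length_drop, List.length_cons] at this
    omega
  have hdgx : dg (x :: ν) ≤ k := by
    refine le_trans ?_ hl
    rw [← hxν, dg, dg]
    exact ((List.drop_sublist _ _).map _).sum_le_sum (fun _ _ => Nat.zero_le _)
  have h1 := pattern_mem k N Q x ν hdgx γ (a + s * d) (t * d)
  rw [hlenν] at h1
  have h2 : (fun j : Fin N => ((⌊(Q : ℝ) * (γ * br (l.drop m) (a + (s + (j : ℕ) * t) * d))⌋ : ℤ) :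
      ZMod Q)) = fun j : Fin N =>
      ((⌊(Q : ℝ) * (γ * br (x :: ν) (a + s * d + (j : ℕ) * (t * d)))⌋ : ℤ) : ZMod Q) := by
    funext j
    rw [hxν]
    have h3 : a + (s + (j : ℕ) * t) * d = a + s * d + (j : ℕ) * (t * d) := by ring
    rw [h3]
  rw [h2]
  exact h1

/-- the moving coordinate -/
theorem moving (Q k G : ℕ) (M : ℕ) (l μ : List (ℝ × ℕ)) (hμ1 : μ ≠ []) (hμ2 : μ <:+ l)
    (a d B : ℕ) (h : Mov Q k G (br μ) a d B ∨ Mov Q k G (fun y => 1 / (M : ℝ) * br μ y) a d B) :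
    ∃ (m : Fin l.length) (b : Bool),
      Mov Q k G (fun x => (if b then 1 else 1 / (M : ℝ)) * br (l.drop m) x) a d B := by
  have h1 : μ.length ≤ l.length := hμ2.length_le
  have h2 : 0 < μ.length := List.length_pos_iff.2 hμ1
  have h3 : μ = l.drop (l.length - μ.length) := List.suffix_iff_eq_drop.1 hμ2
  rcases h with h4 | h4
  · refine ⟨⟨l.length - μ.length, by omega⟩, true, ?_⟩
    have e1 : (fun x => (if true then 1 else 1 / (M : ℝ)) *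
        br (l.drop (l.length - μ.length)) x) = br μ := by
      funext x
      rw [← h3]
      simp
    simp only at e1 ⊢
    rw [e1]
    exact h4
  · refine ⟨⟨l.length - μ.length, by omega⟩, false, ?_⟩
    have e1 : (fun x => (if false = true then 1 else 1 / (M : ℝ)) *
        br (l.drop (l.length - μ.length)) x) = fun x => 1 / (M : ℝ) * br μ x := by
      funext x
      rw [← h3]
      simp
    simp only at e1 ⊢
    rw [e1]
    exact h4

/-- one step: parameters for which bad differences give movers in time `B` -/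
theorem params {ι : Type} [Fintype ι] (lam : ι → List (ℝ × ℕ))
    (hpos : ∀ i, ∀ x ∈ lam i, 1 ≤ x.2) (ε : ℝ) (hε : 0 < ε) (k Lm : ℕ) (hdk : ∀ i, dg (lam i) ≤ k)
    (hlk : ∀ i, (lam i).length ≤ Lm) {Q G r W : ℕ} {C₀ δ : ℝ} (P : Par k Q G r W C₀ δ)
    (hW1 : 1 ≤ W) : ∃ M B : ℕ, ∀ a d : ℕ, ∀ i, ε ≤ |br (lam i) d - round (br (lam i) d)| →
      ∃ (m : Fin (lam i).length) (b : Bool),
        Mov Q k G (fun x => (if b then 1 else 1 / (M : ℝ)) * br ((lam i).drop m) x) a d B := by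
  have hk0 : (0 : ℝ) < k ! := by exact_mod_cast Nat.factorial_pos k
  have hWL : 0 < W ^ Lm := Nat.pow_pos hW1
  have hWL' : (0 : ℝ) < ((W ^ Lm : ℕ) : ℝ) ^ k := by
    have : (0 : ℝ) < ((W ^ Lm : ℕ) : ℝ) := by exact_mod_cast hWL
    positivity
  obtain ⟨ε', hε'0, hε'2, hε'1⟩ : ∃ ε' : ℝ, 0 < ε' ∧ ε' ≤ ε ∧
      (k ! : ℝ) * ((W ^ Lm : ℕ) : ℝ) ^ k * ε' ≤ 1 / 4 := by
    refine ⟨min ε (1 / (4 * ((k ! : ℝ) * ((W ^ Lm : ℕ) : ℝ) ^ k))), lt_min hε (by positivity),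
      min_le_left _ _, ?_⟩
    calc (k ! : ℝ) * ((W ^ Lm : ℕ) : ℝ) ^ k * min ε (1 / (4 * ((k ! : ℝ) *
          ((W ^ Lm : ℕ) : ℝ) ^ k))) ≤ (k ! : ℝ) * ((W ^ Lm : ℕ) : ℝ) ^ k *
          (1 / (4 * ((k ! : ℝ) * ((W ^ Lm : ℕ) : ℝ) ^ k))) :=
          mul_le_mul_of_nonneg_left (min_le_right _ _) (by positivity)
      _ = 1 / 4 := by field_simp
  obtain ⟨M, hM0, hMdvd⟩ : ∃ M : ℕ, 0 < M ∧
      ∀ e ≤ k, ∀ q, 0 < q → q ≤ W ^ Lm → e ! * q ^ e ∣ M := by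
    refine ⟨k ! * ((W ^ Lm) !) ^ k, Nat.mul_pos (Nat.factorial_pos k)
      (pow_pos (Nat.factorial_pos _) k), ?_⟩
    intro e he q hq hqW
    refine Nat.mul_dvd_mul (Nat.factorial_dvd_factorial he) ?_
    exact (pow_dvd_pow_of_dvd (Nat.dvd_factorial hq hqW) e).trans (pow_dvd_pow _ he)
  choose B hB using fun i => all_levels P hW1 Lm ε' hε'0 hε'1 M hM0 hMdvd (lam i) (hlk i)
    (hdk i) (hpos i)
  refine ⟨M, univ.sup B, fun a d i hi => ?_⟩
  have hBi : B i ≤ univ.sup B := Finset.le_sup (Finset.mem_univ i)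
  have hbad : ¬ Good ε' (lam i) d := by
    intro h
    by_cases hnil : lam i = []
    · rw [hnil] at hi
      simp only [br, round_one, Int.cast_one, sub_self, abs_zero] at hi
      linarith
    · have h1 := h (lam i) hnil (List.suffix_refl _)
      linarith
  obtain ⟨μ, hμ1, hμ2, hμ3⟩ := hB i a d hbad
  obtain ⟨m, b, hm⟩ := moving Q k G M (lam i) μ hμ1 hμ2 a d (B i) hμ3
  exact ⟨m, b, hm.mono hBi⟩

/-- the number of patterns -/
theorem exists_Q' {κ : Type} [Fintype κ] (k c₀ : ℕ) (L : κ → ℕ) : ∃ Q : ℕ, 0 < Q ∧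
    ∏ y, (PatC k (k * (2 * c₀ * Q) + 1) Q (L y)).ncard < 2 ^ (Q - 1) := by
  have hN : PB fun Q => k * (2 * c₀ * Q) + 1 :=
    ((PB.const k).mul ((PB.const (2 * c₀)).mul PB.id)).add (PB.const 1)
  have hprod : PB fun Q => ∏ y ∈ (univ : Finset κ),
      (PatC k (k * (2 * c₀ * Q) + 1) Q (L y)).ncard :=
    PB.prod univ (fun y Q => (PatC k (k * (2 * c₀ * Q) + 1) Q (L y)).ncard)
      fun y _ => PatC_PB k _ hN _
  exact hprod.exists_lt

theorem exists_C (k : ℕ) : ∃ C₀ : ℝ, 1 ≤ C₀ ∧ ∀ e ≤ k, ∀ P : ℝ[X], P.natDegree ≤ e →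
      (∀ i : ℕ, i ≤ e → |P.eval (i : ℝ)| ≤ 1) → ∀ s t : ℝ, 0 ≤ s → s ≤ 2 * e → 0 ≤ t →
        t ≤ 2 * e → |P.eval t - P.eval s| ≤ C₀ * |t - s| := by
  choose Ce hCe1 hCe using lipC
  have hCe0 : ∀ e, 0 ≤ Ce e := fun e => zero_le_one.trans (hCe1 e)
  refine ⟨∑ e ∈ range (k + 1), Ce e, (hCe1 0).trans (Finset.single_le_sum (fun e _ => hCe0 e)
    (Finset.mem_range.2 (Nat.succ_pos k))), ?_⟩
  intro e he P hP hb s t hs hs' ht ht'
  refine (hCe e P hP hb s t hs hs' ht ht').trans (mul_le_mul_of_nonneg_right ?_ (abs_nonneg _))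
  exact Finset.single_le_sum (fun e _ => hCe0 e) (Finset.mem_range.2 (Nat.lt_succ_of_le he))

theorem nil_bohr {ι : Type} [Fintype ι] (A : Set ℕ)
    (hA : ∀ f : ℕ → Fin 2, ∀ K : ℕ, ∃ a d : ℕ, 0 < a ∧ d ∈ A ∧ ∀ i < K, f (a + i * d) = f a)
    (lam : ι → List (ℝ × ℕ)) (hpos : ∀ i, ∀ x ∈ lam i, 1 ≤ x.2) (ε : ℝ) (hε : 0 < ε) :
    ∃ d ∈ A, ∀ i, |br (lam i) d - round (br (lam i) d)| < ε := by
  classical
  by_contra hcon
  push Not at hcon
  obtain ⟨k, hdk⟩ : ∃ k, ∀ i, dg (lam i) ≤ k := ⟨univ.sup fun i => dg (lam i),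
    fun i => Finset.le_sup (f := fun i => dg (lam i)) (Finset.mem_univ i)⟩
  obtain ⟨Lm, hlk⟩ : ∃ Lm, ∀ i, (lam i).length ≤ Lm := ⟨univ.sup fun i => (lam i).length,
    fun i => Finset.le_sup (f := fun i => (lam i).length) (Finset.mem_univ i)⟩
  obtain ⟨C₀, hC01, hC⟩ := exists_C k
  obtain ⟨c₀, hc₀⟩ : ∃ c₀ : ℕ, C₀ ≤ c₀ := ⟨_, Nat.le_ceil _⟩
  obtain ⟨Q, hQ, hQbound⟩ := exists_Q' (κ := (Σ i : ι, Fin (lam i).length) × Bool) k c₀
    (fun y => (lam y.1.1).length - y.1.2 - 1)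
  obtain ⟨r, W, δ, hW1, hPar⟩ := exists_Par k Q c₀ C₀ hC01 hc₀ hC hQ
  obtain ⟨M, B, hMB⟩ := params lam hpos ε hε k Lm hdk hlk hPar hW1
  -- the colouring
  obtain ⟨c, hc⟩ := colour (κ := (Σ i : ι, Fin (lam i).length) × Bool) Q hQ
    (k * (2 * c₀ * Q) + 1)
    (fun y => (PatC_count k (k * (2 * c₀ * Q) + 1) Q
      ((lam y.1.1).length - y.1.2 - 1)).1.toFinset) (by
      refine lt_of_le_of_lt (le_of_eq (Finset.prod_congr rfl fun y _ => ?_)) hQbound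
      exact (Set.ncard_eq_toFinset_card _ _).symm)
  obtain ⟨a, d, _, hd, hmono⟩ := hA (fun x => if c (fun y =>
    ((⌊(Q : ℝ) * ((if y.2 then 1 else 1 / (M : ℝ)) * br ((lam y.1.1).drop y.1.2) x)⌋ : ℤ) :
      ZMod Q)) then 1 else 0) (B + 1)
  obtain ⟨i, hi⟩ := hcon d hd
  obtain ⟨m, b, s, t, hst, hvis⟩ := hMB a d i hi
  have h2 := hc (fun y j => ((⌊(Q : ℝ) * ((if y.2 then 1 else 1 / (M : ℝ)) *
    br ((lam y.1.1).drop y.1.2) (a + (s + (j : ℕ) * t) * d))⌋ : ℤ) : ZMod Q))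
    (fun y => by
      rw [Set.Finite.mem_toFinset]
      exact drop_pattern k (k * (2 * c₀ * Q) + 1) Q (lam y.1.1) (hdk y.1.1) y.1.2 y.1.2.2 _
        a d s t) (⟨i, m⟩, b) (fun b' => by
      obtain ⟨j, hj, hjb⟩ := hvis b'
      exact ⟨⟨j, Nat.lt_succ_of_le hj⟩, hjb⟩)
  have hidx : ∀ j : Fin (k * (2 * c₀ * Q) + 1), s + (j : ℕ) * t < B + 1 := by
    intro j
    have h1 : (j : ℕ) ≤ k * (2 * c₀ * Q) := Nat.lt_succ_iff.1 j.2
    have h2 : (j : ℕ) * t ≤ t * (k * (2 * c₀ * Q)) := by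
      rw [mul_comm]
      exact Nat.mul_le_mul_left _ h1
    omega
  obtain ⟨j1, hj1⟩ := h2 true
  obtain ⟨j2, hj2⟩ := h2 false
  have h3 := hmono _ (hidx j1)
  have h4 := hmono _ (hidx j2)
  rw [hj1] at h3
  rw [hj2] at h4
  rw [← h3] at h4
  revert h4
  simp

end Pool.Agent.H65.TL
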