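import Pool.Agent.H65.TL.Mat2

/-!
# Powers of unitriangular matrices are polynomial
-/

set_option autoImplicit false

open Finset Polynomial
open scoped Nat

namespace Pool.Agent.H65.TL

theorem pow_ut (n : ℕ) (g : Matrix (Fin n) (Fin n) ℝ) (h1 : ∀ i, g i i = 1)
    (h2 : ∀ i j, j < i → g i j = 0) (x : ℕ) :
    (∀ i, (g ^ x) i i = 1) ∧ ∀ i j, j < i → (g ^ x) i j = 0 := by
  induction x with
  | zero =>
    refine ⟨fun i => by rw [pow_zero, Matrix.one_apply_eq], fun i j h => ?_⟩
    rw [pow_zero, Matrix.one_apply_ne (ne_of_gt h)]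
  | succ x ih =>
    obtain ⟨k1, k2⟩ := ih
    refine ⟨fun i => ?_, fun i j h => ?_⟩
    · rw [pow_succ, Matrix.mul_apply, Finset.sum_eq_single i]
      · rw [k1, h1, one_mul]
      · intro j _ hj
        rcases lt_or_gt_of_ne hj with h | h
        · rw [k2 i j h, zero_mul]
        · rw [h2 j i h, mul_zero]
      · intro h
        exact absurd (Finset.mem_univ i) h
    · rw [pow_succ, Matrix.mul_apply]
      refine Finset.sum_eq_zero fun l _ => ?_
      rcases lt_or_ge l i with h' | h'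
      · rw [k2 i l h', zero_mul]
      · rw [h2 l j (lt_of_lt_of_le h h'), mul_zero]

theorem nilp (n : ℕ) (N : Matrix (Fin n) (Fin n) ℝ) (h : ∀ i j, j ≤ i → N i j = 0) :
    N ^ n = 0 := by
  have h1 : N.IsUpperTriangular := fun i j hij => h i j (le_of_lt hij)
  have h2 := Matrix.charpoly_of_isUpperTriangular N h1
  have h3 : N.charpoly = X ^ n := by
    rw [h2]
    simp only [h _ _ le_rfl, map_zero, sub_zero, Finset.prod_const, Finset.card_univ,
      Fintype.card_fin]
  have h4 := Matrix.aeval_self_charpoly N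
  rwa [h3, map_pow, aeval_X] at h4

theorem pow_poly (n : ℕ) (g : Matrix (Fin n) (Fin n) ℝ) (h1 : ∀ i, g i i = 1)
    (h2 : ∀ i j, j < i → g i j = 0) : ∃ P : Matrix (Fin n) (Fin n) ℝ[X],
      (∀ i, P i i = 1) ∧ (∀ i j, j < i → P i j = 0) ∧ (∀ i j, i < j → (P i j).eval 0 = 0) ∧
      ∀ x : ℕ, (P.map fun p => p.eval (x : ℝ)) = g ^ x := by
  classical
  choose F hF1 hF2 using fun i j : Fin n => poly_of_val n fun m => ((g - 1) ^ m) i j
  refine ⟨fun i j => if i < j then F i j else if i = j then 1 else 0, fun i => ?_,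
    fun i j h => ?_, fun i j h => ?_, fun x => ?_⟩
  · change (if i < i then F i i else if i = i then 1 else 0) = 1
    rw [if_neg (lt_irrefl _), if_pos rfl]
  · change (if i < j then F i j else if i = j then 1 else 0) = 0
    rw [if_neg (not_lt.2 h.le), if_neg (ne_of_gt h)]
  · change (if i < j then F i j else if i = j then 1 else 0).eval 0 = 0
    rw [if_pos h]
    have h3 := hF2 i j 0
    rw [Nat.cast_zero] at h3
    rw [h3, Finset.sum_range_succ', Nat.choose_zero_right, Nat.cast_one, mul_one, pow_zero,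
      Matrix.one_apply_ne (ne_of_lt h), add_zero]
    refine Finset.sum_eq_zero fun m _ => ?_
    rw [Nat.choose_zero_succ, Nat.cast_zero, mul_zero]
  · ext i j
    change (if i < j then F i j else if i = j then 1 else 0).eval (x : ℝ) = (g ^ x) i j
    obtain ⟨k1, k2⟩ := pow_ut n g h1 h2 x
    rcases lt_trichotomy i j with h | h | h
    · rw [if_pos h, hF2]
      have hN : (g - 1) ^ n = 0 := by
        refine nilp n _ fun i j hij => ?_
        rw [Matrix.sub_apply]
        rcases lt_or_eq_of_le hij with h' | h'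
        · rw [h2 i j h', Matrix.one_apply_ne (ne_of_gt h'), sub_zero]
        · rw [h', h1, Matrix.one_apply_eq, sub_self]
      have h3 : g ^ x = ∑ m ∈ range (x + 1), (g - 1) ^ m * (x.choose m : Matrix _ _ ℝ) := by
        have h4 := (Commute.one_right (g - 1)).add_pow x
        rw [sub_add_cancel] at h4
        rw [h4]
        refine Finset.sum_congr rfl fun m _ => ?_
        rw [one_pow, mul_one]
      have h5 : ∀ m, (((g - 1) ^ m * (x.choose m : Matrix _ _ ℝ)) : Matrix _ _ ℝ) i j =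
          ((g - 1) ^ m) i j * (x.choose m : ℝ) := by
        intro m
        rw [← nsmul_eq_mul', Matrix.smul_apply, nsmul_eq_mul, mul_comm]
      rw [h3, Matrix.sum_apply]
      simp only [h5]
      have h6 : ∀ K, x ≤ K → ∑ m ∈ range (x + 1), ((g - 1) ^ m) i j * (x.choose m : ℝ) =
          ∑ m ∈ range (K + 1), ((g - 1) ^ m) i j * (x.choose m : ℝ) := by
        intro K hK
        refine Finset.sum_subset (Finset.range_subset_range.2 (by omega)) fun m _ hm => ?_
        rw [Finset.mem_range] at hm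
        rw [Nat.choose_eq_zero_of_lt (by omega), Nat.cast_zero, mul_zero]
      have h7 : ∀ K, n ≤ K → ∑ m ∈ range (n + 1), ((g - 1) ^ m) i j * (x.choose m : ℝ) =
          ∑ m ∈ range (K + 1), ((g - 1) ^ m) i j * (x.choose m : ℝ) := by
        intro K hK
        refine Finset.sum_subset (Finset.range_subset_range.2 (by omega)) fun m _ hm => ?_
        rw [Finset.mem_range] at hm
        have h8 : (g - 1) ^ m = 0 := pow_eq_zero_of_le (by omega) hN
        rw [h8, Matrix.zero_apply, zero_mul]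
      rw [h6 (max x n) (le_max_left _ _), h7 (max x n) (le_max_right _ _)]
    · rw [if_neg (by rw [h]; exact lt_irrefl _), if_pos h, eval_one, ← h, k1]
    · rw [if_neg (not_lt.2 h.le), if_neg (ne_of_gt h), eval_zero, k2 i j h]

/-- simultaneous recurrence of nilrotations -/
theorem pow_rec (A : Set ℕ)
    (hA : ∀ f : ℕ → Fin 2, ∀ K : ℕ, ∃ a d : ℕ, 0 < a ∧ d ∈ A ∧ ∀ i < K, f (a + i * d) = f a)
    (m : ℕ) (n : Fin m → ℕ) (g : ∀ t, Matrix (Fin (n t)) (Fin (n t)) ℝ)
    (h1 : ∀ t i, g t i i = 1) (h2 : ∀ t i j, j < i → g t i j = 0) (ε : ℝ) (hε : 0 < ε) :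
    ∃ d ∈ A, ∀ t, ∃ γ : Matrix (Fin (n t)) (Fin (n t)) ℤ,
      (∀ i, γ i i = 1) ∧ (∀ i j, j < i → γ i j = 0) ∧ ∀ i j,
        |(g t ^ d * (γ.map fun z => (z : ℝ))) i j -
          (1 : Matrix (Fin (n t)) (Fin (n t)) ℝ) i j| < ε := by
  choose P hP1 hP2 hP3 hP4 using fun t => pow_poly (n t) (g t) (h1 t) (h2 t)
  obtain ⟨d, hd, hd'⟩ := mat_rec A hA m n P hP1 hP2 hP3 ε hε
  refine ⟨d, hd, fun t => ?_⟩
  obtain ⟨γ, k1, k2, k3⟩ := hd' t
  exact ⟨γ, k1, k2, fun i j => by
    have := k3 i j
    rwa [hP4] at this⟩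

end Pool.Agent.H65.TL
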